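import Mathlib

set_option autoImplicit false

/-!
# The explicit generating series for the Euler characteristics of the minimal strata
-/

namespace Pool.Agent.TH187.EC

open PowerSeries Finset

/-- The power series `S(z) = sinh(z/2)/(z/2) = ∑_{n even} z^n / (2^n (n+1)!)`. -/
noncomputable def S : ℚ⟦X⟧ :=
  PowerSeries.mk fun n => if Even n then 1 / ((2 : ℚ) ^ n * ((n + 1).factorial : ℚ)) else 0

/-- `b n` is the coefficient of `z ^ n` in `1 / S(z) = (z/2)/sinh(z/2)`; it vanishes for odd `n`,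
and `|b (2 j)|` is the Hodge integral `∫ λ_j ψ^{2j-2}` over the moduli space of curves of genus `j`
with one marked point. -/
noncomputable def b (n : ℕ) : ℚ := PowerSeries.coeff n S⁻¹

/-- The power series in `t` (with coefficients in `ℚ⟦z⟧`)
`T_N(z,t) = - N ∑_{n ≥ 1} (n-1)! b_n t^n S((n-1) z) / S(z)`. -/
noncomputable def T (N : ℚ) : ℚ⟦X⟧⟦X⟧ :=
  PowerSeries.mk fun n =>
    if n = 0 then 0
    else (-(N * ((n - 1).factorial : ℚ) * b n)) • (PowerSeries.rescale ((n : ℚ) - 1) S * S⁻¹)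

/-- `exp (N z S'(z) / S(z))`. -/
noncomputable def P (N : ℚ) : ℚ⟦X⟧ :=
  (PowerSeries.exp ℚ).subst (N • (X * (PowerSeries.derivative ℚ S) * S⁻¹))

/-- `exp (T_N(z,t))`, a power series in `t` with coefficients in `ℚ⟦z⟧`. -/
noncomputable def H (N : ℚ) : ℚ⟦X⟧⟦X⟧ := (PowerSeries.exp ℚ⟦X⟧).subst (T N)

/-- The orbifold Euler characteristic of the minimal stratum of genus `g`, given by the explicit
formula, with `N = 2 g - 1`,
`- ∑_{h=0}^{g-1} 2 (g-h) N^(2h-2) [z^(2h) t^(2g-2h)] exp(N z S'(z)/S(z)) exp(T_N(z,t)) / S(z)^(2h+1)`.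
-/
noncomputable def chi (g : ℕ) : ℚ :=
  -∑ h ∈ range g, 2 * ((g : ℚ) - h) * ((2 * (g : ℚ) - 1) ^ (2 * h) / (2 * (g : ℚ) - 1) ^ 2) *
    PowerSeries.coeff (2 * h)
      (P (2 * g - 1) * PowerSeries.coeff (2 * (g - h)) (H (2 * g - 1)) * S⁻¹ ^ (2 * h + 1))

end Pool.Agent.TH187.EC
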