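import Mathlib

set_option autoImplicit false
set_option linter.unusedSectionVars false

/-!
# The exponential of a formal power series

`Ex Y` is `exp Y` for a power series `Y` without constant term.
-/

namespace Pool.Agent.TH187.EC

open PowerSeries Finset

variable {A : Type*} [CommRing A] [Algebra ℚ A]

/-- `exp(Y)` for a power series `Y` (without constant term). -/
noncomputable def Ex (Y : A⟦X⟧) : A⟦X⟧ := (PowerSeries.exp A).subst Y

lemma hs {Y : A⟦X⟧} (hY : constantCoeff Y = 0) : HasSubst Y :=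
  HasSubst.of_constantCoeff_zero' hY

lemma coeff_pow_eq_zero {Y : A⟦X⟧} (hY : constantCoeff Y = 0) {n k : ℕ} (h : n < k) :
    coeff n (Y ^ k) = 0 := by
  have h1 : (X : A⟦X⟧) ∣ Y := X_dvd_iff.2 hY
  have h2 : (X : A⟦X⟧) ^ k ∣ Y ^ k := pow_dvd_pow_of_dvd h1 k
  exact X_pow_dvd_iff.1 h2 n h

lemma coeff_subst_eq {B : Type*} [CommRing B] [Algebra A B] {Y : B⟦X⟧}
    (hY : constantCoeff Y = 0) (f : A⟦X⟧) {n m : ℕ} (h : n ≤ m) :
    coeff n (f.subst Y) = ∑ k ∈ range (m + 1), coeff k f • coeff n (Y ^ k) := by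
  rw [coeff_subst' (HasSubst.of_constantCoeff_zero' hY)]
  rw [finsum_eq_sum_of_support_subset]
  intro k hk
  simp only [Function.mem_support, ne_eq] at hk
  simp only [coe_range, Set.mem_Iio]
  by_contra hcon
  apply hk
  have h1 : (X : B⟦X⟧) ∣ Y := X_dvd_iff.2 hY
  have h2 : (X : B⟦X⟧) ^ k ∣ Y ^ k := pow_dvd_pow_of_dvd h1 k
  rw [X_pow_dvd_iff.1 h2 n (by omega), smul_zero]

lemma coeff_Ex {Y : A⟦X⟧} (hY : constantCoeff Y = 0) {n m : ℕ} (h : n ≤ m) :
    coeff n (Ex Y) = ∑ k ∈ range (m + 1), (1 / (k.factorial : ℚ)) • coeff n (Y ^ k) := by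
  unfold Ex
  rw [coeff_subst_eq hY _ h]
  refine sum_congr rfl fun k _ => ?_
  rw [coeff_exp, algebraMap_smul]

lemma constantCoeff_Ex {Y : A⟦X⟧} (hY : constantCoeff Y = 0) : constantCoeff (Ex Y) = 1 := by
  rw [← coeff_zero_eq_constantCoeff_apply, coeff_Ex hY (le_refl 0)]
  simp

lemma derivative_Ex {Y : A⟦X⟧} (hY : constantCoeff Y = 0) :
    d⁄dX A (Ex Y) = d⁄dX A Y * Ex Y := by
  unfold Ex
  rw [derivative_subst (hs hY), derivative_exp, mul_comm]

/-- Uniqueness for `f' = e f`. -/
lemma ode_unique [IsAddTorsionFree A] {e f g : A⟦X⟧} (hf : d⁄dX A f = e * f)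
    (hg : d⁄dX A g = e * g) (h0 : constantCoeff f = constantCoeff g) : f = g := by
  have key : ∀ n, coeff n f = coeff n g := by
    intro n
    induction n using Nat.strong_induction_on with
    | _ n ih =>
      cases n with
      | zero => simpa using h0
      | succ n =>
        have h1 := congrArg (coeff n) hf
        have h2 := congrArg (coeff n) hg
        rw [coeff_derivative, coeff_mul] at h1 h2
        have h3 : ∑ p ∈ antidiagonal n, coeff p.1 e * coeff p.2 f =
            ∑ p ∈ antidiagonal n, coeff p.1 e * coeff p.2 g := by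
          refine sum_congr rfl fun p hp => ?_
          rw [ih p.2 (by have := mem_antidiagonal.1 hp; omega)]
        rw [h3, ← h2] at h1
        have h4 : (n + 1) • coeff (n + 1) f = (n + 1) • coeff (n + 1) g := by
          simp only [nsmul_eq_mul]
          push_cast
          rw [mul_comm, h1, mul_comm]
        exact nsmul_right_injective (Nat.succ_ne_zero n) h4
  exact PowerSeries.ext key

lemma Ex_add [IsAddTorsionFree A] {Y Z : A⟦X⟧} (hY : constantCoeff Y = 0)
    (hZ : constantCoeff Z = 0) : Ex (Y + Z) = Ex Y * Ex Z := by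
  have hYZ : constantCoeff (Y + Z) = 0 := by rw [map_add, hY, hZ, add_zero]
  apply ode_unique (e := d⁄dX A (Y + Z))
  · exact derivative_Ex hYZ
  · rw [Derivation.leibniz, derivative_Ex hY, derivative_Ex hZ, map_add]
    simp only [smul_eq_mul]
    ring
  · rw [constantCoeff_Ex hYZ, map_mul, constantCoeff_Ex hY, constantCoeff_Ex hZ, one_mul]

lemma Ex_zero : Ex (0 : A⟦X⟧) = 1 := by
  ext n
  rw [coeff_Ex (by simp) (le_refl n), sum_eq_single 0]
  · simp
  · intro k _ hk
    rw [zero_pow hk]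
    simp
  · simp

lemma Ex_sum [IsAddTorsionFree A] {ι : Type*} (s : Finset ι) (Y : ι → A⟦X⟧)
    (hY : ∀ i ∈ s, constantCoeff (Y i) = 0) : Ex (∑ i ∈ s, Y i) = ∏ i ∈ s, Ex (Y i) := by
  classical
  induction s using Finset.induction_on with
  | empty => simp [Ex_zero]
  | insert a s ha ih =>
    rw [sum_insert ha, prod_insert ha, Ex_add (hY a (mem_insert_self a s)), ih]
    · intro i hi
      exact hY i (mem_insert_of_mem hi)
    · rw [map_sum]
      exact sum_eq_zero fun i hi => hY i (mem_insert_of_mem hi)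

/-- `log(1+Y)`. -/
noncomputable def Lg (Y : A⟦X⟧) : A⟦X⟧ := (PowerSeries.log A).subst Y

lemma constantCoeff_Lg {Y : A⟦X⟧} (hY : constantCoeff Y = 0) : constantCoeff (Lg Y) = 0 := by
  unfold Lg
  exact constantCoeff_subst_eq_zero hY _ constantCoeff_log

lemma deriv_log_mul : d⁄dX A (PowerSeries.log A) * (1 + X) = 1 := by
  rw [deriv_log]
  ext n
  cases n with
  | zero => simp
  | succ n =>
    rw [mul_add, mul_one, map_add, coeff_mk, coeff_succ_mul_X, coeff_mk, coeff_one,
      if_neg (Nat.succ_ne_zero n), ← map_add]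
    rw [pow_succ]
    simp

lemma derivative_Lg_mul {Y : A⟦X⟧} (hY : constantCoeff Y = 0) :
    d⁄dX A (Lg Y) * (1 + Y) = d⁄dX A Y := by
  unfold Lg
  rw [derivative_subst (hs hY)]
  have h1 : (d⁄dX A (PowerSeries.log A)).subst Y * (1 + Y) = (1 : A⟦X⟧) := by
    have h2 := congrArg (PowerSeries.subst Y) (deriv_log_mul (A := A))
    rw [subst_mul (hs hY), subst_add (hs hY), subst_X (hs hY)] at h2
    have h3 : PowerSeries.subst Y (1 : A⟦X⟧) = (1 : A⟦X⟧) := by
      rw [← coe_substAlgHom (hs hY), map_one]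
    rw [h3] at h2
    exact h2
  calc PowerSeries.subst Y (d⁄dX A (PowerSeries.log A)) * d⁄dX A Y * (1 + Y)
      = (PowerSeries.subst Y (d⁄dX A (PowerSeries.log A)) * (1 + Y)) * d⁄dX A Y := by ring
    _ = d⁄dX A Y := by rw [h1, one_mul]

lemma Ex_Lg [IsAddTorsionFree A] {Y : A⟦X⟧} (hY : constantCoeff Y = 0) : Ex (Lg Y) = 1 + Y := by
  apply ode_unique (e := d⁄dX A (Lg Y))
  · exact derivative_Ex (constantCoeff_Lg hY)
  · rw [derivative_Lg_mul hY, map_add, derivative_one, zero_add]
  · rw [constantCoeff_Ex (constantCoeff_Lg hY), map_add, map_one, hY, add_zero]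

lemma Lg_exp_sub_one [IsAddTorsionFree A] : Lg (PowerSeries.exp A - 1) = X := by
  have h0 : constantCoeff (PowerSeries.exp A - 1) = 0 := by simp
  have h1 := derivative_Lg_mul h0
  rw [add_sub_cancel, map_sub, derivative_exp, derivative_one, sub_zero] at h1
  have h2 : d⁄dX A (Lg (PowerSeries.exp A - 1)) = 1 := by
    obtain ⟨u, hu⟩ := isUnit_exp A
    have h3 : (d⁄dX A (Lg (PowerSeries.exp A - 1)) - 1) * PowerSeries.exp A = 0 := by
      rw [sub_mul, h1, one_mul, sub_self]
    rw [← hu, Units.mul_left_eq_zero] at h3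
    exact sub_eq_zero.1 (by rw [hu] at h3; exact h3)
  apply derivative.ext
  · rw [h2, derivative_X]
  · rw [constantCoeff_Lg h0, constantCoeff_X]

end Pool.Agent.TH187.EC
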