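import Mathlib
import Pool.Agent.TH187.EC.ExpSub

set_option autoImplicit false
set_option linter.unusedSectionVars false

/-!
# Evaluation of `F(z,t)` at `t = φ(z)`

`F` is a power series in `t` whose coefficients are power series in `z`.
-/

namespace Pool.Agent.TH187.EC

open PowerSeries Finset

/-- `F(z, φ(z))`. -/
noncomputable def ev (φ : ℚ⟦X⟧) (F : ℚ⟦X⟧⟦X⟧) : ℚ⟦X⟧ :=
  PowerSeries.mk fun n => coeff n (∑ m ∈ range (n + 1), coeff m F * φ ^ m)

variable {φ : ℚ⟦X⟧}

lemma coeff_term_zero (hφ : constantCoeff φ = 0) (f : ℚ⟦X⟧) {n m : ℕ} (h : n < m) :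
    coeff n (f * φ ^ m) = 0 := by
  have h1 : (X : ℚ⟦X⟧) ^ m ∣ f * φ ^ m :=
    (pow_dvd_pow_of_dvd (X_dvd_iff.2 hφ) m).mul_left f
  exact X_pow_dvd_iff.1 h1 n h

lemma coeff_ev (hφ : constantCoeff φ = 0) (F : ℚ⟦X⟧⟦X⟧) {n M : ℕ} (h : n ≤ M) :
    coeff n (ev φ F) = ∑ m ∈ range (M + 1), coeff n (coeff m F * φ ^ m) := by
  unfold ev
  rw [coeff_mk, map_sum]
  apply sum_subset
  · intro x hx
    simp only [mem_range] at *
    omega
  · intro x _ hx
    simp only [mem_range, not_lt] at hx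
    exact coeff_term_zero hφ _ (by omega)

lemma ev_add (F G : ℚ⟦X⟧⟦X⟧) : ev φ (F + G) = ev φ F + ev φ G := by
  ext n
  unfold ev
  simp only [coeff_mk, map_add, add_mul, sum_add_distrib]

lemma ev_mul (hφ : constantCoeff φ = 0) (F G : ℚ⟦X⟧⟦X⟧) : ev φ (F * G) = ev φ F * ev φ G := by
  ext n
  rw [coeff_ev hφ _ (le_refl n)]
  have h1 : coeff n (ev φ F * ev φ G) =
      ∑ x ∈ range (n + 1) ×ˢ range (n + 1),
        coeff n ((coeff x.1 F * φ ^ x.1) * (coeff x.2 G * φ ^ x.2)) := by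
    rw [coeff_mul]
    have h2 : ∀ p ∈ antidiagonal n, coeff p.1 (ev φ F) * coeff p.2 (ev φ G) =
        coeff p.1 (∑ i ∈ range (n + 1), coeff i F * φ ^ i) *
          coeff p.2 (∑ j ∈ range (n + 1), coeff j G * φ ^ j) := by
      intro p hp
      have := mem_antidiagonal.1 hp
      rw [coeff_ev hφ F (show p.1 ≤ n by omega), coeff_ev hφ G (show p.2 ≤ n by omega), map_sum,
        map_sum]
    rw [sum_congr rfl h2, ← coeff_mul, sum_mul_sum, map_sum, sum_product]
    refine sum_congr rfl fun i _ => ?_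
    rw [map_sum]
  rw [h1]
  have h3 : ∑ x ∈ range (n + 1) ×ˢ range (n + 1),
        coeff n ((coeff x.1 F * φ ^ x.1) * (coeff x.2 G * φ ^ x.2)) =
      ∑ x ∈ (range (n + 1) ×ˢ range (n + 1)).filter (fun x => x.1 + x.2 ∈ range (n + 1)),
        coeff n ((coeff x.1 F * φ ^ x.1) * (coeff x.2 G * φ ^ x.2)) := by
    symm
    apply sum_filter_of_ne
    intro x _ hx
    by_contra hcon
    apply hx
    simp only [mem_range, not_lt] at hcon
    have h4 : (coeff x.1 F * φ ^ x.1) * (coeff x.2 G * φ ^ x.2) =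
        (coeff x.1 F * coeff x.2 G) * φ ^ (x.1 + x.2) := by ring
    rw [h4]
    exact coeff_term_zero hφ _ (by omega)
  rw [h3, ← sum_fiberwise_of_maps_to (g := fun x : ℕ × ℕ => x.1 + x.2) (t := range (n + 1))]
  · refine sum_congr rfl fun m hm => ?_
    rw [coeff_mul m F G, sum_mul, map_sum]
    have h5 : filter (fun x : ℕ × ℕ => x.1 + x.2 = m)
        (filter (fun x : ℕ × ℕ => x.1 + x.2 ∈ range (n + 1)) (range (n + 1) ×ˢ range (n + 1))) =
        antidiagonal m := by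
      ext x
      simp only [mem_filter, mem_product, mem_range, HasAntidiagonal.mem_antidiagonal] at *
      omega
    rw [h5]
    refine sum_congr rfl fun x hx => ?_
    have h6 := mem_antidiagonal.1 hx
    rw [← h6]
    congr 1
    ring
  · intro x hx
    exact (mem_filter.1 hx).2

lemma ev_one (hφ : constantCoeff φ = 0) : ev φ 1 = 1 := by
  ext n
  rw [coeff_ev hφ _ (le_refl n), sum_eq_single 0]
  · simp
  · intro m _ hm
    rw [coeff_one, if_neg hm]
    simp
  · simp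

lemma ev_pow (hφ : constantCoeff φ = 0) (F : ℚ⟦X⟧⟦X⟧) (k : ℕ) : ev φ (F ^ k) = ev φ F ^ k := by
  induction k with
  | zero => rw [pow_zero, pow_zero, ev_one hφ]
  | succ k ih => rw [pow_succ, pow_succ, ev_mul hφ, ih]

lemma constantCoeff_ev (hφ : constantCoeff φ = 0) {F : ℚ⟦X⟧⟦X⟧} (hF : constantCoeff F = 0) :
    constantCoeff (ev φ F) = 0 := by
  rw [← coeff_zero_eq_constantCoeff_apply, coeff_ev hφ _ (le_refl 0)]
  simp [hF]

lemma ev_Ex (hφ : constantCoeff φ = 0) {F : ℚ⟦X⟧⟦X⟧} (hF : constantCoeff F = 0) :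
    ev φ (Ex F) = Ex (ev φ F) := by
  ext n
  rw [coeff_ev hφ _ (le_refl n), coeff_Ex (constantCoeff_ev hφ hF) (le_refl n)]
  have h1 : ∀ m ∈ range (n + 1), coeff n (coeff m (Ex F) * φ ^ m) =
      ∑ k ∈ range (n + 1), (1 / (k.factorial : ℚ)) • coeff n (coeff m (F ^ k) * φ ^ m) := by
    intro m hm
    have h2 : m ≤ n := by
      simp only [mem_range] at hm
      omega
    rw [coeff_Ex hF h2, sum_mul, map_sum]
    refine sum_congr rfl fun k _ => ?_
    rw [smul_mul_assoc, map_smul]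
  rw [sum_congr rfl h1, sum_comm]
  refine sum_congr rfl fun k _ => ?_
  rw [← smul_sum, ← ev_pow hφ, coeff_ev hφ _ (le_refl n)]

end Pool.Agent.TH187.EC
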