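import Mathlib
import Pool.Agent.TH187.EC.ExpSub
import Pool.Agent.TH187.EC.Ev
import Pool.Agent.TH187.EC.Defs

set_option autoImplicit false
set_option linter.unusedSectionVars false

namespace Pool.Agent.TH187.EC

open PowerSeries Finset

/-- `e^{cz}` -/
noncomputable def ez (c : ℚ) : ℚ⟦X⟧ := rescale c (exp ℚ)

lemma coeff_ez (c : ℚ) (n : ℕ) : coeff n (ez c) = c ^ n / (n.factorial : ℚ) := by
  unfold ez
  rw [coeff_rescale, coeff_exp]
  simp [div_eq_mul_inv]

lemma ez_mul (a b : ℚ) : ez a * ez b = ez (a + b) := exp_mul_exp_eq_exp_add a b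

lemma ez_zero : ez 0 = 1 := by
  ext n
  rw [coeff_ez, coeff_one]
  split_ifs with h
  · subst h; simp
  · rw [zero_pow h, zero_div]

lemma constantCoeff_ez (c : ℚ) : constantCoeff (ez c) = 1 := by
  rw [← coeff_zero_eq_constantCoeff_apply, coeff_ez]; simp

lemma derivative_ez (c : ℚ) : d⁄dX ℚ (ez c) = c • ez c := by
  ext n
  rw [coeff_derivative, coeff_ez, map_smul, coeff_ez, smul_eq_mul, Nat.factorial_succ]
  push_cast
  have h1 : (n.factorial : ℚ) ≠ 0 := by positivity
  have h2 : ((n : ℚ) + 1) ≠ 0 := by positivity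
  field_simp
  ring

lemma ez_one : ez 1 = exp ℚ := by
  unfold ez
  rw [rescale_one]; rfl

lemma ez_pow (c : ℚ) (n : ℕ) : ez c ^ n = ez (n * c) := by
  induction n with
  | zero => simp [ez_zero]
  | succ n ih =>
    rw [pow_succ, ih, ez_mul]
    congr 1
    push_cast
    ring

lemma Ex_smul_X (c : ℚ) : Ex (c • (X : ℚ⟦X⟧)) = ez c := by
  have h0 : constantCoeff (c • (X : ℚ⟦X⟧)) = 0 := by
    rw [← coeff_zero_eq_constantCoeff_apply, map_smul]
    simp
  apply ode_unique (e := PowerSeries.C c)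
  · rw [derivative_Ex h0, Derivation.map_smul, derivative_X, smul_mul_assoc, one_mul,
      smul_eq_C_mul]
  · rw [derivative_ez, smul_eq_C_mul]
  · rw [constantCoeff_Ex h0, constantCoeff_ez]

lemma X_mul_rescale_S (c : ℚ) : c • (X * rescale c S) = ez (c / 2) - ez (-(c / 2)) := by
  ext n
  rw [map_smul, map_sub, coeff_ez, coeff_ez]
  cases n with
  | zero => simp
  | succ n =>
    rw [coeff_succ_X_mul, coeff_rescale]
    unfold S
    rw [coeff_mk, smul_eq_mul, neg_pow (c / 2) (n + 1)]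
    have h1 : ((n + 1).factorial : ℚ) ≠ 0 := by positivity
    split_ifs with h
    · have h2 : (-1 : ℚ) ^ (n + 1) = -1 := Odd.neg_one_pow h.add_one
      rw [h2, div_pow]
      field_simp
      ring
    · have h2 : (-1 : ℚ) ^ (n + 1) = 1 := by
        rw [Nat.not_even_iff_odd] at h
        exact Even.neg_one_pow h.add_one
      rw [h2]
      simp

lemma constantCoeff_S : constantCoeff S = 1 := by
  unfold S
  rw [← coeff_zero_eq_constantCoeff_apply, coeff_mk]
  simp

lemma S_mul_inv : S * S⁻¹ = 1 := PowerSeries.mul_inv_cancel _ (by rw [constantCoeff_S]; simp)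

lemma X_mul_S : X * S = ez (1 / 2) - ez (-(1 / 2)) := by
  have h := X_mul_rescale_S 1
  rw [one_smul, rescale_one] at h
  exact h

lemma b_zero : b 0 = 1 := by
  unfold b
  rw [coeff_zero_eq_constantCoeff_apply, constantCoeff_inv, constantCoeff_S]
  simp

lemma rescale_neg_one_S : rescale (-1 : ℚ) S = S := by
  ext n
  rw [coeff_rescale]
  unfold S
  rw [coeff_mk]
  split_ifs with h
  · rw [h.neg_one_pow, one_mul]
  · rw [mul_zero]

lemma rescale_neg_one_S_inv : rescale (-1 : ℚ) S⁻¹ = S⁻¹ := by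
  have h1 : rescale (-1 : ℚ) S⁻¹ * S = 1 := by
    conv_lhs => rw [← rescale_neg_one_S]
    rw [← map_mul, rescale_neg_one_S, mul_comm, S_mul_inv, map_one]
  calc rescale (-1 : ℚ) S⁻¹ = rescale (-1 : ℚ) S⁻¹ * (S * S⁻¹) := by rw [S_mul_inv, mul_one]
    _ = S⁻¹ := by rw [← mul_assoc, h1, one_mul]

lemma b_odd {n : ℕ} (hn : Odd n) : b n = 0 := by
  have h := congrArg (coeff n) rescale_neg_one_S_inv
  rw [coeff_rescale, hn.neg_one_pow] at h
  unfold b
  linarith

/-- `∑_{n ≥ 1} (n-1)! b_{n+1} y^n`. -/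
noncomputable def M : ℚ⟦X⟧ :=
  PowerSeries.mk fun n => if n = 0 then 0 else ((n - 1).factorial : ℚ) * b (n + 1)

/-- `(1/S - 1)/u^2` -/
noncomputable def mm : ℚ⟦X⟧ := PowerSeries.mk fun n => b (n + 2)

lemma X_sq_mul_mm : X ^ 2 * mm = S⁻¹ - 1 := by
  ext n
  rcases n with _ | _ | n
  · rw [coeff_zero_eq_constantCoeff_apply, map_mul, map_sub]
    simp [constantCoeff_S]
  · rw [coeff_X_pow_mul', if_neg (by omega), map_sub, coeff_one, if_neg (by omega), sub_zero]
    exact (b_odd (by decide)).symm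
  · rw [show n + 1 + 1 = n + 2 by rfl, coeff_X_pow_mul, map_sub, coeff_one, if_neg (by omega),
      sub_zero]
    unfold mm
    rw [coeff_mk]
    rfl

/-- `y/(1+Ny)` -/
noncomputable def rr (N : ℚ) : ℚ⟦X⟧ := X * rescale (-N) (PowerSeries.mk 1)

lemma constantCoeff_rr (N : ℚ) : constantCoeff (rr N) = 0 := by
  unfold rr; simp

lemma rr_mul (N : ℚ) : rr N * (1 + N • X) = X := by
  unfold rr
  have h1 : rescale (-N) (PowerSeries.mk 1 : ℚ⟦X⟧) * (1 + N • X) = 1 := by
    have h2 := congrArg (rescale (-N)) (mk_one_mul_one_sub_eq_one ℚ)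
    rw [map_mul, map_sub, map_one, rescale_X] at h2
    have h3 : (1 : ℚ⟦X⟧) + N • X = 1 - PowerSeries.C (-N) * X := by
      rw [smul_eq_C_mul, map_neg]
      ring
    rw [h3, h2]
  rw [mul_assoc, h1, mul_one]

lemma coeff_rr_pow (N : ℚ) (k n : ℕ) : coeff (n + 1) (rr N ^ (k + 1)) =
    if k ≤ n then (-N) ^ (n - k) * (n.choose k : ℚ) else 0 := by
  unfold rr
  rw [mul_pow, ← map_pow, mk_one_pow_eq_mk_choose_add, coeff_X_pow_mul', coeff_rescale, coeff_mk]
  by_cases h : k ≤ n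
  · rw [if_pos (by omega), if_pos h]
    have h1 : n + 1 - (k + 1) = n - k := by omega
    have h2 : k + (n - k) = n := by omega
    rw [h1, h2]
  · rw [if_neg (by omega), if_neg h]

lemma coeff_M_subst_rr (N : ℚ) (n : ℕ) : coeff (n + 1) (M.subst (rr N)) =
    (n.factorial : ℚ) * coeff n (mm * ez (-N)) := by
  rw [coeff_subst_eq (constantCoeff_rr N) _ (le_refl (n + 1)), sum_range_succ']
  have h0 : coeff 0 M • coeff (n + 1) (rr N ^ 0) = 0 := by
    unfold M
    rw [coeff_mk]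
    simp
  rw [h0, add_zero, coeff_mul, mul_sum, Finset.Nat.sum_antidiagonal_eq_sum_range_succ_mk]
  refine sum_congr rfl fun k hk => ?_
  have hk' : k ≤ n := by
    simp only [mem_range] at hk
    omega
  rw [coeff_rr_pow, if_pos hk', coeff_ez]
  unfold M mm
  rw [coeff_mk, coeff_mk, if_neg (Nat.succ_ne_zero k), Nat.add_sub_cancel, smul_eq_mul]
  have h1 : (n.choose k : ℚ) = (n.factorial : ℚ) / ((k.factorial : ℚ) * ((n - k).factorial : ℚ)) :=
    Nat.cast_choose ℚ hk'
  rw [h1]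
  have h2 : (k.factorial : ℚ) ≠ 0 := by positivity
  have h3 : ((n - k).factorial : ℚ) ≠ 0 := by positivity
  field_simp
  try ring

lemma inv_mul_ez (N : ℕ) : S⁻¹ * (ez (-(N : ℚ)) - 1) =
    -(X * ∑ k ∈ range N, ez (-((k : ℚ) + 1 / 2))) := by
  have h1 : ez (-(N : ℚ)) - 1 = S * -(X * ∑ k ∈ range N, ez (-((k : ℚ) + 1 / 2))) := by
    have h2 : S * -(X * ∑ k ∈ range N, ez (-((k : ℚ) + 1 / 2))) =
        -∑ k ∈ range N, (X * S) * ez (-((k : ℚ) + 1 / 2)) := by
      rw [← mul_sum]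
      ring
    rw [h2, X_mul_S]
    have h3 : ∀ k ∈ range N, (ez (1 / 2) - ez (-(1 / 2))) * ez (-((k : ℚ) + 1 / 2)) =
        ez (-(k : ℚ)) - ez (-((k + 1 : ℕ) : ℚ)) := by
      intro k _
      rw [sub_mul, ez_mul, ez_mul]
      congr 2
      · ring
      · push_cast; ring
    rw [sum_congr rfl h3]
    have h4 := Finset.sum_range_sub' (fun k : ℕ => ez (-(k : ℚ))) N
    rw [h4]
    simp [ez_zero]
  rw [h1, ← mul_assoc, mul_comm S⁻¹ S, S_mul_inv, one_mul]

/-- The logarithmic part. -/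
noncomputable def Lc (c : ℚ) : ℚ⟦X⟧ := rescale c (PowerSeries.log ℚ)

lemma coeff_Lc (c : ℚ) (n : ℕ) :
    coeff n (Lc c) = if n = 0 then 0 else c ^ n * ((-1) ^ (n + 1) / n) := by
  unfold Lc
  rw [coeff_rescale, coeff_log]
  split_ifs
  · rw [mul_zero]
  · rfl

/-- The remaining part. -/
noncomputable def G (N : ℚ) : ℚ⟦X⟧ :=
  PowerSeries.mk fun n => if n = 0 then 0 else (-1) ^ n * N ^ (n + 1) / ((n : ℚ) * (n + 1))

lemma X_mul_G (N : ℚ) : X * G N = N • X - (1 + N • X) * Lc N := by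
  ext n
  rw [add_mul, one_mul, map_sub, map_add, map_smul, smul_mul_assoc, map_smul]
  cases n with
  | zero =>
    simp only [coeff_zero_eq_constantCoeff_apply, map_mul, constantCoeff_X, zero_mul, smul_zero,
      zero_sub, add_zero]
    rw [← coeff_zero_eq_constantCoeff_apply, coeff_Lc]
    simp
  | succ n =>
    rw [coeff_succ_X_mul, coeff_succ_X_mul, coeff_Lc, coeff_Lc, if_neg (Nat.succ_ne_zero n), coeff_X]
    unfold G
    rw [coeff_mk]
    by_cases hn : n = 0
    · subst hn; simp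
    · rw [if_neg hn, if_neg hn, if_neg (by omega)]
      have h1 : (n : ℚ) ≠ 0 := by exact_mod_cast hn
      have h2 : ((n : ℚ) + 1) ≠ 0 := by positivity
      push_cast
      simp only [smul_eq_mul]
      field_simp
      ring

/-- The functional equation. -/
lemma FE (N : ℕ) : M.subst (rr N) - M = ∑ k ∈ range N, Lc ((k : ℚ) + 1 / 2) + G N := by
  ext n
  cases n with
  | zero =>
    have hM : constantCoeff M = 0 := by
      unfold M
      rw [← coeff_zero_eq_constantCoeff_apply, coeff_mk, if_pos rfl]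
    have h1 : constantCoeff (M.subst (rr N)) = 0 :=
      constantCoeff_subst_eq_zero (constantCoeff_rr N) _ hM
    rw [coeff_zero_eq_constantCoeff_apply, coeff_zero_eq_constantCoeff_apply, map_sub, map_add, h1,
      hM]
    simp only [← coeff_zero_eq_constantCoeff_apply, map_sum, coeff_Lc]
    unfold G
    rw [coeff_mk]
    simp
  | succ n =>
    rw [map_sub, coeff_M_subst_rr, map_add, map_sum]
    have h1 : coeff (n + 1) M = (n.factorial : ℚ) * coeff n mm := by
      unfold M mm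
      rw [coeff_mk, coeff_mk, if_neg (Nat.succ_ne_zero n), Nat.add_sub_cancel]
    rw [h1, ← mul_sub, ← map_sub]
    have h2 : mm * ez (-(N : ℚ)) - mm = mm * (ez (-(N : ℚ)) - 1) := by ring
    rw [h2]
    have h3 : coeff n (mm * (ez (-(N : ℚ)) - 1)) =
        coeff (n + 2) (X ^ 2 * (mm * (ez (-(N : ℚ)) - 1))) := by
      rw [coeff_X_pow_mul]
    rw [h3, ← mul_assoc, X_sq_mul_mm, sub_mul, inv_mul_ez, one_mul, map_sub, map_neg,
      coeff_succ_X_mul, map_sum, map_sub, coeff_one, if_neg (by omega), sub_zero, coeff_ez]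
    simp only [coeff_ez, coeff_Lc, if_neg (Nat.succ_ne_zero n)]
    unfold G
    rw [coeff_mk, if_neg (Nat.succ_ne_zero n), mul_sub, mul_neg, mul_sum]
    have h5 : (n.factorial : ℚ) ≠ 0 := by positivity
    have h6 : ((n : ℚ) + 1) ≠ 0 := by positivity
    have h7 : ((n : ℚ) + 1 + 1) ≠ 0 := by positivity
    have h4 : ((n + 1).factorial : ℚ) = ((n : ℚ) + 1) * (n.factorial : ℚ) := by
      rw [Nat.factorial_succ]; push_cast; ring
    have h4' : ((n + 2).factorial : ℚ) = ((n : ℚ) + 1 + 1) * (((n : ℚ) + 1) * (n.factorial : ℚ)) := by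
      rw [Nat.factorial_succ, Nat.factorial_succ]; push_cast; ring
    rw [h4, h4']
    have e1 : -∑ i ∈ range N, (n.factorial : ℚ) * ((-((i : ℚ) + 1 / 2)) ^ (n + 1) /
        (((n : ℚ) + 1) * (n.factorial : ℚ))) =
        ∑ i ∈ range N, ((i : ℚ) + 1 / 2) ^ (n + 1) * ((-1) ^ (n + 1 + 1) / ((n + 1 : ℕ) : ℚ)) := by
      rw [← sum_neg_distrib]
      refine sum_congr rfl fun i _ => ?_
      rw [neg_pow]
      push_cast
      field_simp
      ring
    rw [e1]
    have e2 : (n.factorial : ℚ) * ((-(N : ℚ)) ^ (n + 2) /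
        (((n : ℚ) + 1 + 1) * (((n : ℚ) + 1) * (n.factorial : ℚ)))) =
        -((-1) ^ (n + 1) * (N : ℚ) ^ (n + 1 + 1) / (((n + 1 : ℕ) : ℚ) * (((n + 1 : ℕ) : ℚ) + 1))) := by
      rw [neg_pow]
      push_cast
      field_simp
      ring
    rw [e2]
    ring

end Pool.Agent.TH187.EC
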