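import Mathlib
import Pool.Agent.TH187.EC.Key

set_option autoImplicit false
set_option linter.unusedSectionVars false

namespace Pool.Agent.TH187.EC

open PowerSeries Finset

noncomputable def qq (N : ℚ) : ℚ⟦X⟧ := (1 / N) • (ez 1 - 1)
noncomputable def pp (N : ℚ) : ℚ⟦X⟧ := (1 / N) • (1 - ez (-1))
noncomputable def ph (N : ℚ) : ℚ⟦X⟧ := (1 / N) • (X * S)

lemma cc_qq (N : ℚ) : constantCoeff (qq N) = 0 := by
  unfold qq
  rw [← coeff_zero_eq_constantCoeff_apply, map_smul, map_sub, coeff_ez]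
  simp

lemma cc_pp (N : ℚ) : constantCoeff (pp N) = 0 := by
  unfold pp
  rw [← coeff_zero_eq_constantCoeff_apply, map_smul, map_sub, coeff_ez]
  simp

lemma cc_ph (N : ℚ) : constantCoeff (ph N) = 0 := by
  unfold ph
  rw [← coeff_zero_eq_constantCoeff_apply, map_smul]
  simp

lemma ph_mul_ez (N : ℚ) : ph N * ez (1 / 2) = qq N := by
  unfold ph qq
  rw [X_mul_S, smul_mul_assoc, sub_mul, ez_mul, ez_mul]
  norm_num [ez_zero]

lemma ph_mul_ez' (N : ℚ) : ph N * ez (-(1 / 2)) = pp N := by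
  unfold ph pp
  rw [X_mul_S, smul_mul_assoc, sub_mul, ez_mul, ez_mul]
  norm_num [ez_zero]

lemma N_smul_qq {N : ℚ} (hN : N ≠ 0) : N • qq N = ez 1 - 1 := by
  unfold qq
  rw [smul_smul, mul_one_div_cancel hN, one_smul]

lemma subst_smul' {Y : ℚ⟦X⟧} (hY : constantCoeff Y = 0) (c : ℚ) (f : ℚ⟦X⟧) :
    (c • f).subst Y = c • f.subst Y := subst_smul (hs hY) c f

lemma subst_one' {Y : ℚ⟦X⟧} (hY : constantCoeff Y = 0) : (1 : ℚ⟦X⟧).subst Y = (1 : ℚ⟦X⟧) := by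
  rw [← coe_substAlgHom (hs hY), map_one]

lemma rr_subst_qq {N : ℚ} (hN : N ≠ 0) : (rr N).subst (qq N) = pp N := by
  have h1 := congrArg (PowerSeries.subst (qq N)) (rr_mul N)
  rw [subst_mul (hs (cc_qq N)), subst_add (hs (cc_qq N)), subst_smul' (cc_qq N),
    subst_X (hs (cc_qq N)), subst_one' (cc_qq N)] at h1
  have h2 : (1 : ℚ⟦X⟧) + N • qq N = ez 1 := by
    rw [N_smul_qq hN]; ring
  erw [h2] at h1
  have h3 : qq N = pp N * ez 1 := by
    unfold qq pp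
    rw [smul_mul_assoc, sub_mul, one_mul, ez_mul]
    norm_num [ez_zero]
  rw [h3] at h1
  have h4 : ez 1 * ez (-1) = 1 := by rw [ez_mul]; norm_num [ez_zero]
  calc (rr N).subst (qq N) = (rr N).subst (qq N) * (ez 1 * ez (-1)) := by rw [h4, mul_one]
    _ = ((rr N).subst (qq N) * ez 1) * ez (-1) := by ring
    _ = (pp N * ez 1) * ez (-1) := by
        congr 1
        rw [← h3] at h1 ⊢
        exact h1
    _ = pp N * (ez 1 * ez (-1)) := by ring
    _ = pp N := by rw [h4, mul_one]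

lemma M_subst_pp {N : ℚ} (hN : N ≠ 0) :
    PowerSeries.subst (qq N) (PowerSeries.subst (rr N) M : ℚ⟦X⟧) = PowerSeries.subst (pp N) M := by
  rw [subst_comp_subst_apply (hs (constantCoeff_rr N)) (hs (cc_qq N)), rr_subst_qq hN]

lemma Lc_subst (c N : ℚ) : (Lc c).subst (qq N) = Lg (c • qq N) := by
  unfold Lc Lg
  rw [rescale_eq_subst, subst_comp_subst_apply (HasSubst.smul_X' c) (hs (cc_qq N)),
    subst_smul' (cc_qq N), subst_X (hs (cc_qq N))]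

lemma Lg_N_qq {N : ℚ} (hN : N ≠ 0) : Lg (N • qq N) = X := by
  rw [N_smul_qq hN, ez_one, Lg_exp_sub_one]

lemma ne_zero_of_coeff {f : ℚ⟦X⟧} {n : ℕ} (h : coeff n f ≠ 0) : f ≠ 0 := by
  rintro rfl
  simp at h

lemma qq_ne_zero {N : ℚ} (hN : N ≠ 0) : qq N ≠ 0 := by
  apply ne_zero_of_coeff (n := 1)
  unfold qq
  rw [map_smul, map_sub, coeff_ez, coeff_one]
  simp [hN]

lemma derivative_X_mul_S : S + X * d⁄dX ℚ S = (1 / 2 : ℚ) • (ez (1 / 2) + ez (-(1 / 2))) := by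
  have h := congrArg (d⁄dX ℚ) X_mul_S
  rw [Derivation.leibniz, map_sub, derivative_ez, derivative_ez, derivative_X] at h
  simp only [smul_eq_mul, mul_one] at h
  rw [add_comm, h, smul_add, neg_smul, sub_neg_eq_add]

/-- `N z S'/S + G(q) = - (N/2) z`. -/
lemma G_qq {N : ℚ} (hN : N ≠ 0) :
    N • (X * d⁄dX ℚ S * S⁻¹) + (G N).subst (qq N) = (-(N / 2)) • X := by
  have h1 : qq N * (G N).subst (qq N) = ez 1 - 1 - ez 1 * X := by
    have h2 := congrArg (PowerSeries.subst (qq N)) (X_mul_G N)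
    rw [subst_mul (hs (cc_qq N)), subst_sub (hs (cc_qq N)), subst_mul (hs (cc_qq N)),
      subst_add (hs (cc_qq N)), subst_smul' (cc_qq N), subst_X (hs (cc_qq N)),
      subst_one' (cc_qq N), Lc_subst, Lg_N_qq hN, N_smul_qq hN] at h2
    rw [h2]
    ring
  apply mul_left_cancel₀ (qq_ne_zero hN)
  rw [mul_add, h1]
  have h3 : qq N = (1 / N) • (ez (1 / 2) * (X * S)) := by
    rw [← ph_mul_ez]
    unfold ph
    rw [smul_mul_assoc, mul_comm]
  have h4 : qq N * N • (X * d⁄dX ℚ S * S⁻¹) = ez (1 / 2) * X * (X * d⁄dX ℚ S) := by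
    rw [h3, smul_mul_assoc, mul_smul_comm, smul_smul, one_div_mul_cancel hN, one_smul]
    calc ez (1 / 2) * (X * S) * (X * d⁄dX ℚ S * S⁻¹)
        = ez (1 / 2) * X * (X * d⁄dX ℚ S) * (S * S⁻¹) := by ring
      _ = _ := by rw [S_mul_inv, mul_one]
  have h5 : X * d⁄dX ℚ S = (1 / 2 : ℚ) • (ez (1 / 2) + ez (-(1 / 2))) - S := by
    rw [← derivative_X_mul_S]; ring
  have h6 : ez 1 = ez (1 / 2) * ez (1 / 2) := by rw [ez_mul]; norm_num
  have h7 : ez (1 / 2) * ez (-(1 / 2)) = 1 := by rw [ez_mul]; norm_num [ez_zero]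
  have h8 : ez (1 / 2) * (X * S) = ez 1 - 1 := by
    rw [X_mul_S, mul_sub, h7, h6]
  rw [h4, h5]
  have h9 : qq N * (-(N / 2)) • (X : ℚ⟦X⟧) = -((1 / 2 : ℚ) • ((ez 1 - 1) * X)) := by
    unfold qq
    rw [smul_mul_assoc, mul_smul_comm, smul_smul, ← neg_smul]
    congr 1
    field_simp
  rw [h9]
  have h10 : ez (1 / 2) * X * ((1 / 2 : ℚ) • (ez (1 / 2) + ez (-(1 / 2))) - S) =
      (1 / 2 : ℚ) • ((ez 1 + 1) * X) - (ez 1 - 1) := by
    rw [mul_sub]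
    congr 1
    · rw [mul_smul_comm]
      congr 1
      rw [h6]
      calc ez (1 / 2) * X * (ez (1 / 2) + ez (-(1 / 2)))
          = ez (1 / 2) * ez (1 / 2) * X + (ez (1 / 2) * ez (-(1 / 2))) * X := by ring
        _ = _ := by rw [h7]; ring
    · rw [← h8]; ring
  rw [h10]
  have h11 : (1 / 2 : ℚ) • ((ez 1 + 1) * X) = (1 / 2 : ℚ) • ((ez 1 - 1) * X) + X := by
    have h12 : (ez 1 + 1) * X = (ez 1 - 1) * X + (2 : ℚ) • X := by
      rw [two_smul]; ring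
    rw [h12, smul_add, smul_smul]
    norm_num
  rw [h11]
  have h13 : ez 1 * X = (ez 1 - 1) * X + X := by ring
  rw [h13]
  have h14 : (ez 1 - 1) * (X : ℚ⟦X⟧) = (1 / 2 : ℚ) • ((ez 1 - 1) * X) + (1 / 2 : ℚ) • ((ez 1 - 1) * X) := by
    rw [← add_smul]; norm_num
  generalize (1 / 2 : ℚ) • ((ez 1 - 1) * (X : ℚ⟦X⟧)) = W at *
  rw [h14]
  ring

/-- The pieces `T_n φ^n`. -/
lemma T_term (N : ℚ) (hN : N ≠ 0) (n : ℕ) (hn : 2 ≤ n) :
    coeff n (T N) * ph N ^ n = (((n - 2).factorial : ℚ) * b n) • (pp N ^ (n - 1) - qq N ^ (n - 1)) := by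
  obtain ⟨m, rfl⟩ : ∃ m, n = m + 2 := ⟨n - 2, by omega⟩
  have e1 : m + 2 - 2 = m := by omega
  have e2 : m + 2 - 1 = m + 1 := by omega
  rw [e1, e2]
  unfold T
  rw [coeff_mk, if_neg (by omega), e2, ← ph_mul_ez, ← ph_mul_ez']
  rw [mul_pow, mul_pow, ez_pow, ez_pow, ← mul_sub]
  have h1 := X_mul_rescale_S (((m + 2 : ℕ) : ℚ) - 1)
  have e3 : ((m + 2 : ℕ) : ℚ) - 1 = (m : ℚ) + 1 := by push_cast; ring
  rw [e3] at h1 ⊢
  have h2 : ez (((m + 1 : ℕ) : ℚ) * -(1 / 2)) - ez (((m + 1 : ℕ) : ℚ) * (1 / 2)) =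
      -(((m : ℚ) + 1) • (X * rescale ((m : ℚ) + 1) S)) := by
    rw [h1]
    have e4 : ((m + 1 : ℕ) : ℚ) * (1 / 2) = ((m : ℚ) + 1) / 2 := by push_cast; ring
    have e5 : ((m + 1 : ℕ) : ℚ) * -(1 / 2) = -(((m : ℚ) + 1) / 2) := by push_cast; ring
    rw [e4, e5]
    ring
  rw [h2]
  have h3 : ph N ^ (m + 2) = ph N ^ (m + 1) * ((1 / N) • (X * S)) := by
    rw [pow_succ]; rfl
  rw [h3]
  have h4 : (-(N * ((m + 1).factorial : ℚ) * b (m + 2))) • (rescale ((m : ℚ) + 1) S * S⁻¹) *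
      (ph N ^ (m + 1) * ((1 / N) • (X * S))) =
      ((-(N * ((m + 1).factorial : ℚ) * b (m + 2))) * (1 / N)) •
        (ph N ^ (m + 1) * (X * rescale ((m : ℚ) + 1) S) * (S * S⁻¹)) := by
    rw [mul_smul_comm, smul_mul_assoc, mul_smul_comm, smul_smul]
    congr 1
    ring
  rw [h4, S_mul_inv, mul_one, mul_neg, mul_smul_comm, smul_neg, smul_smul, ← neg_smul]
  congr 1
  rw [Nat.factorial_succ]
  push_cast
  field_simp

end Pool.Agent.TH187.EC
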