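import Mathlib
import Pool.Agent.TH187.EC.Key2

set_option autoImplicit false
set_option linter.unusedSectionVars false

namespace Pool.Agent.TH187.EC

open PowerSeries Finset

lemma ev_of_terms (N : ℚ) (F : ℚ⟦X⟧⟦X⟧) (c : ℕ → ℚ) (h0 : coeff 0 F = 0)
    (h : ∀ k, coeff (k + 1) F * ph N ^ (k + 1) = c k • (pp N ^ k - qq N ^ k)) :
    ev (ph N) F = PowerSeries.subst (pp N) (PowerSeries.mk c) -
      PowerSeries.subst (qq N) (PowerSeries.mk c) := by
  ext n
  rw [coeff_ev (cc_ph N) _ (show n ≤ n + 1 by omega), sum_range_succ', h0, zero_mul, map_zero,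
    add_zero, map_sub, coeff_subst_eq (cc_pp N) _ (le_refl n), coeff_subst_eq (cc_qq N) _ (le_refl n),
    ← sum_sub_distrib]
  refine sum_congr rfl fun k _ => ?_
  rw [h k, coeff_mk, map_smul, map_sub, smul_sub]

lemma T_term' (N : ℚ) (hN : N ≠ 0) (k : ℕ) :
    coeff (k + 1) (T N) * ph N ^ (k + 1) = coeff k M • (pp N ^ k - qq N ^ k) := by
  rcases k with _ | k
  · have hb : b 1 = 0 := b_odd (by decide)
    unfold T
    rw [coeff_mk]
    simp [hb]
  · rw [T_term N hN (k + 1 + 1) (by omega)]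
    unfold M
    rw [coeff_mk, if_neg (Nat.succ_ne_zero k)]
    have e1 : k + 1 + 1 - 2 = k := by omega
    have e2 : k + 1 + 1 - 1 = k + 1 := by omega
    have e3 : k + 1 - 1 = k := by omega
    rw [e1, e2, e3]

lemma coeff_zero_T (N : ℚ) : coeff 0 (T N) = 0 := by
  unfold T
  rw [coeff_mk, if_pos rfl]

lemma cc_T (N : ℚ) : constantCoeff (T N) = 0 := by
  rw [← coeff_zero_eq_constantCoeff_apply, coeff_zero_T]

lemma ev_T {N : ℚ} (hN : N ≠ 0) :
    ev (ph N) (T N) = PowerSeries.subst (pp N) M - PowerSeries.subst (qq N) M := by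
  have h := ev_of_terms N (T N) (fun k => coeff k M) (coeff_zero_T N) (T_term' N hN)
  have h1 : PowerSeries.mk (fun k => coeff k M) = M := by
    ext n; rw [coeff_mk]
  rw [h1] at h
  exact h

/-- `∑_{n ≥ 1} (n+1) (n-1)! b_{n+1} y^n`. -/
noncomputable def V : ℚ⟦X⟧ := PowerSeries.mk fun n => ((n : ℚ) + 1) * coeff n M

lemma ev_DT {N : ℚ} (hN : N ≠ 0) :
    ev (ph N) (X * d⁄dX ℚ⟦X⟧ (T N)) =
      PowerSeries.subst (pp N) V - PowerSeries.subst (qq N) V := by
  refine ev_of_terms N _ _ ?_ ?_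
  · simp
  · intro k
    rw [coeff_succ_X_mul, coeff_derivative]
    have h1 : coeff (k + 1) (T N) * ((k : ℚ⟦X⟧) + 1) * ph N ^ (k + 1) =
        ((k : ℚ) + 1) • (coeff (k + 1) (T N) * ph N ^ (k + 1)) := by
      rw [smul_eq_C_mul]
      simp only [map_add, map_natCast, map_one]
      ring
    rw [h1, T_term' N hN, smul_smul]

lemma cc_SS (N : ℚ) : constantCoeff (N • (X * d⁄dX ℚ S * S⁻¹)) = 0 := by
  rw [← coeff_zero_eq_constantCoeff_apply, map_smul]
  simp

lemma H_eq (N : ℚ) : H N = Ex (T N) := rfl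
lemma P_eq (N : ℚ) : P N = Ex (N • (X * d⁄dX ℚ S * S⁻¹)) := rfl

lemma cc_Lg_smul (N c : ℚ) : constantCoeff (c • qq N) = 0 := by
  rw [← coeff_zero_eq_constantCoeff_apply, map_smul, coeff_zero_eq_constantCoeff_apply, cc_qq,
    smul_zero]

lemma subst_finsum (Y : ℚ⟦X⟧) (hY : constantCoeff Y = 0) {ι : Type*} (s : Finset ι)
    (f : ι → ℚ⟦X⟧) : PowerSeries.subst Y (∑ i ∈ s, f i) = ∑ i ∈ s, PowerSeries.subst Y (f i) := by
  rw [← coe_substAlgHom (hs hY), map_sum]

/-- **The key identity.** -/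
lemma key (N : ℕ) (hN : N ≠ 0) :
    P N * ev (ph N) (H N) =
      ez (-((N : ℚ) / 2)) * ∏ k ∈ range N, (1 + ((k : ℚ) + 1 / 2) • qq N) := by
  have hN' : (N : ℚ) ≠ 0 := by exact_mod_cast hN
  rw [H_eq, P_eq, ev_Ex (cc_ph _) (cc_T _), ← Ex_add (cc_SS _) (constantCoeff_ev (cc_ph _) (cc_T _))]
  have h1 : (N : ℚ) • (X * d⁄dX ℚ S * S⁻¹) + ev (ph N) (T N) =
      (-((N : ℚ) / 2)) • X + ∑ k ∈ range N, Lg (((k : ℚ) + 1 / 2) • qq N) := by
    rw [ev_T hN', ← M_subst_pp hN']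
    have h2 : PowerSeries.subst (qq (N : ℚ)) (PowerSeries.subst (rr (N : ℚ)) M : ℚ⟦X⟧) -
        PowerSeries.subst (qq (N : ℚ)) M =
        PowerSeries.subst (qq (N : ℚ)) ((PowerSeries.subst (rr (N : ℚ)) M : ℚ⟦X⟧) - M) := by
      rw [subst_sub (hs (cc_qq _))]
    rw [h2, FE, subst_add (hs (cc_qq _)), subst_finsum _ (cc_qq _), ← G_qq hN']
    simp only [Lc_subst]
    ring
  rw [h1, Ex_add, Ex_smul_X, Ex_sum]
  · congr 1
    refine prod_congr rfl fun k _ => ?_
    rw [Ex_Lg (cc_Lg_smul _ _)]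
  · intro k _
    exact constantCoeff_Lg (cc_Lg_smul _ _)
  · rw [← coeff_zero_eq_constantCoeff_apply, map_smul]
    simp
  · rw [map_sum]
    exact sum_eq_zero fun k _ => constantCoeff_Lg (cc_Lg_smul _ _)

/-- The residue lemma: `[z^n] (z/q)^{n+1} q' q^k = δ_{kn}`, where `q = z v`. -/
lemma residue (v u : ℚ⟦X⟧) (huv : v * u = 1) (n k : ℕ) :
    coeff n (u ^ (n + 1) * d⁄dX ℚ (X * v) * (X * v) ^ k) = if k = n then 1 else 0 := by
  have hd : d⁄dX ℚ (X * v) = v + X * d⁄dX ℚ v := by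
    rw [Derivation.leibniz, derivative_X]
    simp only [smul_eq_mul, mul_one]
    ring
  have huv' : constantCoeff v * constantCoeff u = 1 := by
    rw [← map_mul, huv, map_one]
  rw [hd]
  rcases lt_trichotomy k n with h | h | h
  · rw [if_neg (by omega)]
    obtain ⟨d, rfl⟩ : ∃ d, n = k + (d + 1) := ⟨n - k - 1, by omega⟩
    -- u^(k+d+2) v^k = u^(d+2)
    have h1 : u ^ (k + (d + 1) + 1) * (v + X * d⁄dX ℚ v) * (X * v) ^ k =
        X ^ k * (u ^ (d + 1) + X * (u ^ (d + 2) * d⁄dX ℚ v)) := by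
      have h2 : u ^ (k + (d + 1) + 1) = u ^ k * (u ^ (d + 1) * u) := by ring
      have h3 : u ^ k * v ^ k = 1 := by rw [← mul_pow, mul_comm u v, huv, one_pow]
      calc u ^ (k + (d + 1) + 1) * (v + X * d⁄dX ℚ v) * (X * v) ^ k
          = X ^ k * ((u ^ k * v ^ k) * (u ^ (d + 1) * (v * u) +
              X * (u ^ (d + 1) * u * d⁄dX ℚ v))) := by rw [h2, mul_pow]; ring
        _ = _ := by rw [h3, huv]; ring
    rw [h1, show k + (d + 1) = (d + 1) + k by ring, coeff_X_pow_mul]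
    -- derivative of u^(d+1)
    have hdu : d⁄dX ℚ (u ^ (d + 1)) = -(((d : ℚ) + 1) • (u ^ (d + 2) * d⁄dX ℚ v)) := by
      have h4 : d⁄dX ℚ v * u + v * d⁄dX ℚ u = 0 := by
        have h5 := congrArg (d⁄dX ℚ) huv
        rw [Derivation.leibniz, derivative_one] at h5
        simp only [smul_eq_mul] at h5
        rw [← h5]; ring
      have h6 : d⁄dX ℚ u = -(u ^ 2 * d⁄dX ℚ v) := by
        calc d⁄dX ℚ u = (v * u) * d⁄dX ℚ u := by rw [huv, one_mul]
          _ = u * (v * d⁄dX ℚ u) := by ring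
          _ = u * (-(d⁄dX ℚ v * u)) := by rw [eq_neg_of_add_eq_zero_right h4]
          _ = _ := by ring
      rw [Derivation.leibniz_pow, h6, smul_eq_C_mul]
      simp only [nsmul_eq_mul, smul_eq_mul, map_add, map_natCast, map_one]
      have h7 : d + 1 - 1 = d := by omega
      rw [h7]
      push_cast
      ring
    have h8 := congrArg (coeff d) hdu
    rw [coeff_derivative, map_neg, map_smul] at h8
    rw [map_add, coeff_succ_X_mul]
    have h9 : ((d : ℚ) + 1) ≠ 0 := by positivity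
    have h10 : ((d : ℚ) + 1) * (coeff (d + 1) (u ^ (d + 1)) +
        coeff d (u ^ (d + 2) * d⁄dX ℚ v)) = 0 := by
      rw [mul_add]
      rw [smul_eq_mul] at h8
      linarith
    exact (mul_eq_zero.1 h10).resolve_left h9
  · subst h
    rw [if_pos rfl]
    have h1 : u ^ (k + 1) * (v + X * d⁄dX ℚ v) * (X * v) ^ k =
        X ^ k * (u ^ (k + 1) * v ^ k * (v + X * d⁄dX ℚ v)) := by rw [mul_pow]; ring
    rw [h1]
    have h2 := coeff_X_pow_mul (u ^ (k + 1) * v ^ k * (v + X * d⁄dX ℚ v)) k 0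
    rw [zero_add] at h2
    rw [h2, coeff_zero_eq_constantCoeff_apply]
    simp only [map_mul, map_add, map_pow, constantCoeff_X, zero_mul, add_zero]
    calc constantCoeff u ^ (k + 1) * constantCoeff v ^ k * constantCoeff v
        = (constantCoeff v * constantCoeff u) ^ (k + 1) := by ring
      _ = 1 := by rw [huv', one_pow]
  · rw [if_neg (by omega)]
    have h1 : u ^ (n + 1) * (v + X * d⁄dX ℚ v) * (X * v) ^ k =
        X ^ k * (u ^ (n + 1) * v ^ k * (v + X * d⁄dX ℚ v)) := by rw [mul_pow]; ring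
    rw [h1]
    exact X_pow_dvd_iff.1 (Dvd.intro _ rfl) n h

end Pool.Agent.TH187.EC
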