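import Mathlib
import Pool.Agent.TH187.EC.Key3

set_option autoImplicit false
set_option linter.unusedSectionVars false

namespace Pool.Agent.TH187.EC

open PowerSeries Finset

lemma ev_C_mul {φ : ℚ⟦X⟧} (hφ : constantCoeff φ = 0) (A : ℚ⟦X⟧) (F : ℚ⟦X⟧⟦X⟧) :
    ev φ (PowerSeries.C A * F) = A * ev φ F := by
  rw [ev_mul hφ]
  congr 1
  ext n
  rw [coeff_ev hφ _ (le_refl n), sum_eq_single 0]
  · simp
  · intro m _ hm
    rw [coeff_C, if_neg hm]
    simp
  · simp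

lemma coeff_mul_ev {φ : ℚ⟦X⟧} (hφ : constantCoeff φ = 0) (A : ℚ⟦X⟧) (F : ℚ⟦X⟧⟦X⟧) (n : ℕ) :
    coeff n (A * ev φ F) = ∑ m ∈ range (n + 1), coeff n (A * coeff m F * φ ^ m) := by
  rw [← ev_C_mul hφ, coeff_ev hφ _ (le_refl n)]
  refine sum_congr rfl fun m _ => ?_
  rw [coeff_C_mul]

lemma coeff_mul_subst {Y : ℚ⟦X⟧} (hY : constantCoeff Y = 0) (A W : ℚ⟦X⟧) (n : ℕ) :
    coeff n (A * PowerSeries.subst Y W) = ∑ k ∈ range (n + 1), coeff k W * coeff n (A * Y ^ k) := by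
  rw [coeff_mul]
  have h1 : ∀ p ∈ antidiagonal n, coeff p.1 A * coeff p.2 (PowerSeries.subst Y W) =
      ∑ k ∈ range (n + 1), coeff k W * (coeff p.1 A * coeff p.2 (Y ^ k)) := by
    intro p hp
    have hp' := HasAntidiagonal.mem_antidiagonal.1 hp
    rw [coeff_subst_eq hY _ (show p.2 ≤ n by omega), mul_sum]
    refine sum_congr rfl fun k _ => ?_
    rw [smul_eq_mul]; ring
  rw [sum_congr rfl h1, sum_comm]
  refine sum_congr rfl fun k _ => ?_
  rw [coeff_mul n A, mul_sum]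

lemma T_even (N : ℚ) : rescale (-1 : ℚ⟦X⟧) (T N) = T N := by
  ext1 n
  rw [coeff_rescale]
  rcases Nat.even_or_odd n with h | h
  · rw [h.neg_one_pow, one_mul]
  · have hb := b_odd h
    have h0 : coeff n (T N) = 0 := by
      unfold T
      rw [coeff_mk, hb]
      split_ifs <;> simp
    rw [h0, mul_zero]

lemma H_odd (N : ℚ) {m : ℕ} (hm : Odd m) : coeff m (H N) = 0 := by
  rw [H_eq, coeff_Ex (cc_T N) (le_refl m)]
  apply sum_eq_zero
  intro k _
  have h1 : coeff m (T N ^ k) = 0 := by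
    have h2 : rescale (-1 : ℚ⟦X⟧) (T N ^ k) = T N ^ k := by rw [map_pow, T_even]
    have h3 := congrArg (coeff m) h2
    rw [coeff_rescale, hm.neg_one_pow, neg_one_mul] at h3
    have h4 : (2 : ℚ) • coeff m (T N ^ k) = 0 := by
      rw [two_smul]
      nth_rewrite 1 [← h3]
      rw [neg_add_cancel]
    exact (smul_eq_zero.1 h4).resolve_left (by norm_num)
  rw [h1, smul_zero]

lemma ph_pow_mul (N : ℚ) (m : ℕ) :
    ph N ^ m = (1 / N ^ m) • (X ^ m * S ^ m) := by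
  unfold ph
  rw [smul_pow, one_div, one_div, inv_pow, mul_pow]

lemma S_inv_pow (a m : ℕ) (h : m ≤ a) : S⁻¹ ^ a * S ^ m = S⁻¹ ^ (a - m) := by
  obtain ⟨d, rfl⟩ : ∃ d, a = d + m := ⟨a - m, by omega⟩
  rw [Nat.add_sub_cancel, pow_add, mul_assoc, ← mul_pow, mul_comm S⁻¹ S, S_mul_inv, one_pow, mul_one]

/-- Step 1 -/
lemma step_one (N : ℚ) (hN : N ≠ 0) (g : ℕ) :
    ∑ h ∈ range g, 2 * ((g : ℚ) - h) * N ^ (2 * h) *
      coeff (2 * h) (P N * coeff (2 * (g - h)) (H N) * S⁻¹ ^ (2 * h + 1)) =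
    N ^ (2 * g) * coeff (2 * g) (S⁻¹ ^ (2 * g + 1) * P N * ev (ph N) (X * d⁄dX ℚ⟦X⟧ (H N))) := by
  rw [coeff_mul_ev (cc_ph N), mul_sum]
  have h1 : ∀ m ∈ range (2 * g + 1), N ^ (2 * g) *
      coeff (2 * g) (S⁻¹ ^ (2 * g + 1) * P N * coeff m (X * d⁄dX ℚ⟦X⟧ (H N)) * ph N ^ m) =
      (m : ℚ) * (N ^ (2 * g - m) *
        coeff (2 * g - m) (P N * coeff m (H N) * S⁻¹ ^ (2 * g - m + 1))) := by
    intro m hm
    have hm' : m ≤ 2 * g := by
      simp only [mem_range] at hm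
      omega
    have h2 : coeff m (X * d⁄dX ℚ⟦X⟧ (H N)) = (m : ℚ) • coeff m (H N) := by
      cases m with
      | zero => simp
      | succ m =>
        rw [coeff_succ_X_mul, coeff_derivative, smul_eq_C_mul, mul_comm]
        simp only [map_natCast]
        push_cast
        rfl
    rw [h2, ph_pow_mul N]
    have h3 : S⁻¹ ^ (2 * g + 1) * P N * (m : ℚ) • coeff m (H N) * (1 / N ^ m) • (X ^ m * S ^ m) =
        ((m : ℚ) * (1 / N ^ m)) • (P N * coeff m (H N) * (S⁻¹ ^ (2 * g + 1) * S ^ m) * X ^ m) := by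
      rw [mul_smul_comm, mul_smul_comm, smul_mul_assoc, smul_smul, mul_comm (m : ℚ) (1 / N ^ m)]
      congr 1
      ring
    rw [h3, S_inv_pow _ _ (by omega), map_smul, smul_eq_mul]
    have h4 : 2 * g = (2 * g - m) + m := by omega
    have h5 : coeff (2 * g) (P N * coeff m (H N) * S⁻¹ ^ (2 * g + 1 - m) * X ^ m) =
        coeff (2 * g - m) (P N * coeff m (H N) * S⁻¹ ^ (2 * g - m + 1)) := by
      conv_lhs => rw [h4]
      rw [coeff_mul_X_pow]
      congr 3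
      omega
    rw [h5]
    have h6 : N ^ (2 * g) = N ^ (2 * g - m) * N ^ m := by
      rw [← pow_add]; congr 1
    rw [h6]
    have h7 : N ^ m ≠ 0 := pow_ne_zero _ hN
    field_simp
  rw [sum_congr rfl h1]
  -- only even `m` contribute
  have h8 : ∑ m ∈ range (2 * g + 1), (m : ℚ) * (N ^ (2 * g - m) *
        coeff (2 * g - m) (P N * coeff m (H N) * S⁻¹ ^ (2 * g - m + 1))) =
      ∑ m ∈ (range g).image (fun h => 2 * (g - h)), (m : ℚ) * (N ^ (2 * g - m) *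
        coeff (2 * g - m) (P N * coeff m (H N) * S⁻¹ ^ (2 * g - m + 1))) := by
    symm
    apply sum_subset
    · intro m hm
      obtain ⟨h, hh, rfl⟩ := mem_image.1 hm
      simp only [mem_range] at *
      omega
    · intro m hm hm'
      rcases Nat.even_or_odd m with he | ho
      · have hm0 : m = 0 := by
          by_contra hne
          apply hm'
          obtain ⟨j, hj⟩ := he
          simp only [mem_range] at hm
          refine mem_image.2 ⟨g - j, ?_, ?_⟩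
          · simp only [mem_range]; omega
          · omega
        subst hm0
        simp
      · rw [H_odd N ho]
        simp
  rw [h8, sum_image]
  · refine sum_congr rfl fun h hh => ?_
    simp only [mem_range] at hh
    have e1 : 2 * g - 2 * (g - h) = 2 * h := by omega
    rw [e1]
    have e2 : ((2 * (g - h) : ℕ) : ℚ) = 2 * ((g : ℚ) - h) := by
      push_cast [Nat.cast_sub hh.le]
      ring
    rw [e2]
    ring
  · intro x hx y hy hxy
    simp only [coe_range, Set.mem_Iio] at hx hy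
    have : 2 * (g - x) = 2 * (g - y) := hxy
    omega

/-- The product. -/
noncomputable def Q (N : ℕ) : ℚ⟦X⟧ :=
  ez (-((N : ℚ) / 2)) * ∏ k ∈ range N, (1 + ((k : ℚ) + 1 / 2) • qq N)

lemma step_two (N : ℕ) (hN : N ≠ 0) (A : ℚ⟦X⟧) :
    A * P N * ev (ph N) (X * d⁄dX ℚ⟦X⟧ (H N)) =
      A * Q N * (PowerSeries.subst (pp N) V - PowerSeries.subst (qq N) V) := by
  have hN' : (N : ℚ) ≠ 0 := by exact_mod_cast hN
  have h1 : X * d⁄dX ℚ⟦X⟧ (H N) = (X * d⁄dX ℚ⟦X⟧ (T N)) * H N := by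
    rw [H_eq, derivative_Ex (cc_T _)]
    ring
  rw [h1, ev_mul (cc_ph _), ev_DT hN']
  have h2 := key N hN
  unfold Q
  rw [← h2]
  ring

lemma V_odd : rescale (-1 : ℚ) V = -V := by
  ext n
  rw [coeff_rescale, map_neg]
  rcases Nat.even_or_odd n with h | h
  · have h0 : coeff n V = 0 := by
      unfold V M
      rw [coeff_mk, coeff_mk]
      split_ifs
      · simp
      · rw [b_odd h.add_one]; simp
    rw [h0]; simp
  · rw [h.neg_one_pow]; ring

lemma rescale_subst (c : ℚ) {Y : ℚ⟦X⟧} (hY : constantCoeff Y = 0) (W : ℚ⟦X⟧) :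
    rescale c (PowerSeries.subst Y W) = PowerSeries.subst (rescale c Y) W := by
  rw [rescale_eq_subst, rescale_eq_subst, subst_comp_subst_apply (hs hY) (HasSubst.smul_X' c)]

lemma rescale_ez (c d : ℚ) : rescale c (ez d) = ez (c * d) := by
  unfold ez
  ext n
  rw [coeff_rescale, coeff_rescale, coeff_rescale]
  rw [mul_pow]; ring

lemma rescale_pp (N : ℚ) : rescale (-1 : ℚ) (pp N) = -qq N := by
  unfold pp qq
  rw [smul_eq_C_mul, map_mul, map_sub, rescale_ez, map_one, smul_eq_C_mul]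
  have h : rescale (-1 : ℚ) (PowerSeries.C (1 / N)) = PowerSeries.C (1 / N) := by
    ext n
    rw [coeff_rescale, coeff_C]
    split_ifs with h
    · subst h; simp
    · simp
  rw [h]
  have e : (-1 : ℚ) * -1 = 1 := by norm_num
  rw [e]
  ring

lemma rescale_qq (N : ℚ) : rescale (-1 : ℚ) (qq N) = -pp N := by
  unfold pp qq
  rw [smul_eq_C_mul, map_mul, map_sub, rescale_ez, map_one, smul_eq_C_mul]
  have h : rescale (-1 : ℚ) (PowerSeries.C (1 / N)) = PowerSeries.C (1 / N) := by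
    ext n
    rw [coeff_rescale, coeff_C]
    split_ifs with h
    · subst h; simp
    · simp
  rw [h]
  have e : (-1 : ℚ) * 1 = -1 := by norm_num
  rw [e]
  ring

lemma neg_eq_rescale_subst (Y : ℚ⟦X⟧) (hY : constantCoeff Y = 0) (W : ℚ⟦X⟧) :
    PowerSeries.subst (-Y) W = PowerSeries.subst Y (rescale (-1 : ℚ) W) := by
  rw [rescale_eq_subst, subst_comp_subst_apply (HasSubst.smul_X' (-1 : ℚ)) (hs hY),
    subst_smul' hY, subst_X (hs hY), neg_one_smul]

lemma subst_neg' {Y : ℚ⟦X⟧} (hY : constantCoeff Y = 0) (W : ℚ⟦X⟧) :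
    PowerSeries.subst Y (-W) = -PowerSeries.subst Y W := by
  have h := subst_smul' hY (-1) W
  rw [neg_one_smul, neg_one_smul] at h
  exact h

lemma rescale_V_pp (N : ℚ) : rescale (-1 : ℚ) (PowerSeries.subst (pp N) V) =
    -PowerSeries.subst (qq N) V := by
  rw [rescale_subst _ (cc_pp N), rescale_pp, neg_eq_rescale_subst _ (cc_qq N), V_odd,
    subst_neg' (cc_qq N)]

lemma ez_neg_mul (c : ℚ) : ez c * ez (-c) = 1 := by
  rw [ez_mul, add_neg_cancel, ez_zero]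

lemma rescale_Q (N : ℕ) (hN : N ≠ 0) : rescale (-1 : ℚ) (Q N) = Q N := by
  have hN' : (N : ℚ) ≠ 0 := by exact_mod_cast hN
  unfold Q
  rw [map_mul, rescale_ez, map_prod]
  have h1 : ∀ k ∈ range N, rescale (-1 : ℚ) (1 + ((k : ℚ) + 1 / 2) • qq N) =
      ez (-1) * (1 + ((N : ℚ) - ((k : ℚ) + 1 / 2)) • qq N) := by
    intro k _
    rw [map_add, map_one, smul_eq_C_mul, map_mul]
    have h : rescale (-1 : ℚ) (PowerSeries.C ((k : ℚ) + 1 / 2)) = PowerSeries.C ((k : ℚ) + 1 / 2) := by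
      ext n
      rw [coeff_rescale, coeff_C]
      split_ifs with h
      · subst h; simp
      · simp
    rw [h, rescale_qq, ← smul_eq_C_mul, sub_smul, N_smul_qq hN']
    have h2 : ez (-1) * qq (N : ℚ) = pp N := by
      unfold qq pp
      rw [mul_smul_comm, mul_sub, mul_comm (ez (-1)) (ez 1), ez_neg_mul, mul_one]
    have h3 : ez (-1) * (1 + (ez 1 - 1 - ((k : ℚ) + 1 / 2) • qq (N : ℚ))) =
        ez 1 * ez (-1) - ((k : ℚ) + 1 / 2) • (ez (-1) * qq (N : ℚ)) := by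
      rw [← mul_smul_comm]; ring
    rw [h3, h2, ez_neg_mul, smul_neg]
    ring
  rw [prod_congr rfl h1, prod_mul_distrib, prod_const, card_range, ez_pow, ← mul_assoc, ez_mul]
  have h4 : ∏ x ∈ range N, (1 + ((N : ℚ) - ((x : ℚ) + 1 / 2)) • qq (N : ℚ)) =
      ∏ x ∈ range N, (1 + ((x : ℚ) + 1 / 2) • qq (N : ℚ)) := by
    rw [← Finset.prod_range_reflect]
    refine prod_congr rfl fun k hk => ?_
    simp only [mem_range] at hk
    have h5 : ((N - 1 - k : ℕ) : ℚ) = (N : ℚ) - 1 - k := by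
      rw [Nat.cast_sub (by omega), Nat.cast_sub (by omega)]
      simp
    rw [h5]
    congr 2
    ring
  rw [h4]
  congr 2
  ring

lemma step_three (N : ℕ) (hN : N ≠ 0) (g : ℕ) :
    coeff (2 * g) (S⁻¹ ^ (2 * g + 1) * Q N *
        (PowerSeries.subst (pp N) V - PowerSeries.subst (qq N) V)) =
      -2 * coeff (2 * g) (S⁻¹ ^ (2 * g + 1) * Q N * PowerSeries.subst (qq N) V) := by
  rw [mul_sub, map_sub]
  have h1 : coeff (2 * g) (S⁻¹ ^ (2 * g + 1) * Q N * PowerSeries.subst (pp N) V) =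
      -coeff (2 * g) (S⁻¹ ^ (2 * g + 1) * Q N * PowerSeries.subst (qq N) V) := by
    have h2 : coeff (2 * g) (rescale (-1 : ℚ)
        (S⁻¹ ^ (2 * g + 1) * Q N * PowerSeries.subst (pp (N : ℚ)) V)) =
        coeff (2 * g) (S⁻¹ ^ (2 * g + 1) * Q N * PowerSeries.subst (pp (N : ℚ)) V) := by
      rw [coeff_rescale, Even.neg_one_pow ⟨g, by ring⟩, one_mul]
    have h3 : rescale (-1 : ℚ)
        (S⁻¹ ^ (2 * g + 1) * Q N * PowerSeries.subst (pp (N : ℚ)) V) =
        -(S⁻¹ ^ (2 * g + 1) * Q N * PowerSeries.subst (qq (N : ℚ)) V) := by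
      rw [map_mul, map_mul, map_pow, rescale_neg_one_S_inv, rescale_Q N hN, rescale_V_pp, mul_neg]
    rw [← h2, h3, map_neg]
  rw [h1]; ring

lemma step_four (g : ℕ) (hg : 1 ≤ g) :
    ((2 * g - 1 : ℕ) : ℚ) ^ (2 * g) * coeff (2 * g) (S⁻¹ ^ (2 * g + 1) * Q (2 * g - 1) *
      PowerSeries.subst (qq ((2 * g - 1 : ℕ) : ℚ)) V) =
    coeff (2 * g) (V * ∏ k ∈ range (2 * g - 1), (1 + ((k : ℚ) + 1 / 2) • (X : ℚ⟦X⟧))) := by
  set N : ℕ := 2 * g - 1 with hNdef
  have hN : N ≠ 0 := by omega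
  have hN' : (N : ℚ) ≠ 0 := by exact_mod_cast hN
  set W : ℚ⟦X⟧ := V * ∏ k ∈ range N, (1 + ((k : ℚ) + 1 / 2) • (X : ℚ⟦X⟧)) with hW
  have h1 : PowerSeries.subst (qq (N : ℚ)) W =
      PowerSeries.subst (qq (N : ℚ)) V * ∏ k ∈ range N, (1 + ((k : ℚ) + 1 / 2) • qq (N : ℚ)) := by
    rw [hW, subst_mul (hs (cc_qq _))]
    congr 1
    rw [← coe_substAlgHom (hs (cc_qq _)), map_prod]
    refine prod_congr rfl fun k _ => ?_
    rw [coe_substAlgHom (hs (cc_qq _)), subst_add (hs (cc_qq _)), subst_one' (cc_qq _),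
      subst_smul' (cc_qq _), subst_X (hs (cc_qq _))]
  set v : ℚ⟦X⟧ := (1 / (N : ℚ)) • (S * ez (1 / 2)) with hv
  set u : ℚ⟦X⟧ := (N : ℚ) • (S⁻¹ * ez (-(1 / 2))) with hu
  have huv : v * u = 1 := by
    rw [hv, hu, smul_mul_assoc, mul_smul_comm, smul_smul, one_div_mul_cancel hN', one_smul]
    calc S * ez (1 / 2) * (S⁻¹ * ez (-(1 / 2))) = (S * S⁻¹) * (ez (1 / 2) * ez (-(1 / 2))) := by ring
      _ = 1 := by rw [S_mul_inv, ez_neg_mul, one_mul]
  have hXv : X * v = qq (N : ℚ) := by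
    rw [← ph_mul_ez, hv]
    unfold ph
    rw [mul_smul_comm, smul_mul_assoc]
    congr 1
    ring
  have hq' : d⁄dX ℚ (qq (N : ℚ)) = (1 / (N : ℚ)) • ez 1 := by
    unfold qq
    rw [Derivation.map_smul, map_sub, derivative_ez, derivative_one, sub_zero, one_smul]
  have h2 : u ^ (2 * g + 1) * d⁄dX ℚ (X * v) =
      ((N : ℚ) ^ (2 * g)) • (S⁻¹ ^ (2 * g + 1) * ez (-((N : ℚ) / 2))) := by
    rw [hXv, hq', hu, smul_pow, mul_pow, ez_pow, smul_mul_assoc, mul_smul_comm, smul_smul,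
      mul_assoc, ez_mul]
    have e1 : (N : ℚ) ^ (2 * g + 1) * (1 / (N : ℚ)) = (N : ℚ) ^ (2 * g) := by
      rw [pow_succ]; field_simp
    have e2 : ((2 * g + 1 : ℕ) : ℚ) * -(1 / 2) + 1 = -((N : ℚ) / 2) := by
      have e3 : (N : ℚ) = 2 * (g : ℚ) - 1 := by
        rw [hNdef, Nat.cast_sub (by omega)]
        push_cast
        ring
      rw [e3]
      push_cast
      ring
    rw [e1, e2]
  have h3 : (N : ℚ) ^ (2 * g) * coeff (2 * g) (S⁻¹ ^ (2 * g + 1) * Q N *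
      PowerSeries.subst (qq (N : ℚ)) V) =
      coeff (2 * g) (u ^ (2 * g + 1) * d⁄dX ℚ (X * v) * PowerSeries.subst (qq (N : ℚ)) W) := by
    rw [h2, h1, smul_mul_assoc, map_smul, smul_eq_mul]
    congr 2
    unfold Q
    ring
  rw [h3, coeff_mul_subst (cc_qq _)]
  have h4 : ∀ k ∈ range (2 * g + 1), coeff k W *
      coeff (2 * g) (u ^ (2 * g + 1) * d⁄dX ℚ (X * v) * qq (N : ℚ) ^ k) =
      if k = 2 * g then coeff k W else 0 := by
    intro k _
    rw [← hXv, residue v u huv]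
    split_ifs <;> simp
  rw [sum_congr rfl h4, sum_ite_eq' (range (2 * g + 1)) (2 * g)]
  simp

/-- The Euler characteristic in terms of one power series. -/
theorem chi_eq (g : ℕ) (hg : 1 ≤ g) :
    chi g = 2 / (2 * (g : ℚ) - 1) ^ 2 *
      coeff (2 * g) (V * ∏ k ∈ range (2 * g - 1), (1 + ((k : ℚ) + 1 / 2) • (X : ℚ⟦X⟧))) := by
  have hN : (2 * g - 1 : ℕ) ≠ 0 := by omega
  have e3 : ((2 * g - 1 : ℕ) : ℚ) = 2 * (g : ℚ) - 1 := by
    rw [Nat.cast_sub (by omega)]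
    push_cast
    ring
  have hN' : (2 * (g : ℚ) - 1) ≠ 0 := by
    rw [← e3]; exact_mod_cast hN
  have h1 := step_one (2 * (g : ℚ) - 1) hN' g
  have h2 := step_two (2 * g - 1) hN (S⁻¹ ^ (2 * g + 1))
  have h3 := step_three (2 * g - 1) hN g
  have h4 := step_four g hg
  rw [e3] at h2 h3 h4
  rw [h2, h3] at h1
  unfold chi
  have h5 : ∑ h ∈ range g, 2 * ((g : ℚ) - h) * ((2 * (g : ℚ) - 1) ^ (2 * h) / (2 * (g : ℚ) - 1) ^ 2) *
      coeff (2 * h) (P (2 * g - 1) * coeff (2 * (g - h)) (H (2 * g - 1)) * S⁻¹ ^ (2 * h + 1)) =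
      (1 / (2 * (g : ℚ) - 1) ^ 2) * ∑ h ∈ range g, 2 * ((g : ℚ) - h) * (2 * (g : ℚ) - 1) ^ (2 * h) *
      coeff (2 * h) (P (2 * g - 1) * coeff (2 * (g - h)) (H (2 * g - 1)) * S⁻¹ ^ (2 * h + 1)) := by
    rw [mul_sum]
    refine sum_congr rfl fun h _ => ?_
    ring
  rw [h5, h1]
  have h6 : (2 * (g : ℚ) - 1) ^ (2 * g) * (-2 * coeff (2 * g) (S⁻¹ ^ (2 * g + 1) * Q (2 * g - 1) *
      PowerSeries.subst (qq (2 * (g : ℚ) - 1)) V)) = -2 * ((2 * (g : ℚ) - 1) ^ (2 * g) *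
      coeff (2 * g) (S⁻¹ ^ (2 * g + 1) * Q (2 * g - 1) *
      PowerSeries.subst (qq (2 * (g : ℚ) - 1)) V)) := by ring
  rw [h6, h4]
  ring

end Pool.Agent.TH187.EC
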