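import Mathlib
import Pool.Agent.TH187.EC.Key4

set_option autoImplicit false
set_option linter.unusedSectionVars false

namespace Pool.Agent.TH187.EC

open PowerSeries Finset

/-- The elementary symmetric functions of `1/2, 3/2, …, N - 1/2`. -/
def el : ℕ → ℕ → ℚ
  | 0, 0 => 1
  | 0, _ + 1 => 0
  | N + 1, 0 => el N 0
  | N + 1, i + 1 => el N (i + 1) + ((N : ℚ) + 1 / 2) * el N i

lemma coeff_prod_el (N i : ℕ) :
    coeff i (∏ k ∈ range N, (1 + ((k : ℚ) + 1 / 2) • (X : ℚ⟦X⟧))) = el N i := by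
  induction N generalizing i with
  | zero =>
    cases i with
    | zero => simp [el]
    | succ i => simp [el, coeff_one]
  | succ N ih =>
    rw [prod_range_succ, mul_add, mul_one, map_add, mul_smul_comm, map_smul]
    cases i with
    | zero =>
      rw [ih]
      simp [el]
    | succ i =>
      rw [coeff_succ_mul_X, ih, ih, smul_eq_mul]
      simp [el]

/-- `∏ (Y + k + 1/2)` -/
noncomputable def EE (N : ℕ) : Polynomial ℚ :=
  ∏ k ∈ range N, (Polynomial.X + Polynomial.C ((k : ℚ) + 1 / 2))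

lemma coeff_EE (N : ℕ) : (∀ i ≤ N, (EE N).coeff (N - i) = el N i) ∧
    (∀ j, N < j → (EE N).coeff j = 0) ∧ (∀ i, N < i → el N i = 0) := by
  induction N with
  | zero =>
    refine ⟨fun i hi => ?_, fun j hj => ?_, fun i hi => ?_⟩
    · have : i = 0 := by omega
      subst this
      simp [EE, el]
    · unfold EE
      rw [prod_range_zero, Polynomial.coeff_one, if_neg (by omega)]
    · obtain ⟨i, rfl⟩ : ∃ k, i = k + 1 := ⟨i - 1, by omega⟩
      simp [el]
  | succ N ih =>
    obtain ⟨h1, h2, h3⟩ := ih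
    have hE : EE (N + 1) = EE N * Polynomial.X + Polynomial.C ((N : ℚ) + 1 / 2) * EE N := by
      unfold EE
      rw [prod_range_succ]; ring
    refine ⟨fun i hi => ?_, fun j hj => ?_, fun i hi => ?_⟩
    · rw [hE, Polynomial.coeff_add, Polynomial.coeff_C_mul]
      cases i with
      | zero =>
        rw [Nat.sub_zero, Polynomial.coeff_mul_X, h2 (N + 1) (by omega), mul_zero, add_zero]
        have := h1 0 (by omega)
        rw [Nat.sub_zero] at this
        rw [this]
        simp [el]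
      | succ i =>
        have e1 : N + 1 - (i + 1) = N - i := by omega
        rw [e1, h1 i (by omega)]
        simp only [el]
        congr 1
        by_cases hi' : i + 1 ≤ N
        · have e2 : N - i = (N - (i + 1)) + 1 := by omega
          rw [e2, Polynomial.coeff_mul_X, h1 (i + 1) hi']
        · have e2 : N - i = 0 := by omega
          rw [e2, Polynomial.coeff_mul_X_zero, h3 (i + 1) (by omega)]
    · rw [hE, Polynomial.coeff_add, Polynomial.coeff_C_mul, h2 j (by omega), mul_zero, add_zero]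
      obtain ⟨j, rfl⟩ : ∃ k, j = k + 1 := ⟨j - 1, by omega⟩
      rw [Polynomial.coeff_mul_X, h2 j (by omega)]
    · obtain ⟨i, rfl⟩ : ∃ k, i = k + 1 := ⟨i - 1, by omega⟩
      simp only [el]
      rw [h3 (i + 1) (by omega), h3 i (by omega)]
      ring

lemma coeff_V (n : ℕ) : coeff (n + 1) V = ((n : ℚ) + 2) * ((n.factorial : ℚ) * b (n + 2)) := by
  unfold V M
  rw [coeff_mk, coeff_mk, if_neg (Nat.succ_ne_zero n), Nat.add_sub_cancel]
  push_cast
  ring

lemma coeff_V_zero : coeff 0 V = 0 := by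
  unfold V M
  rw [coeff_mk, coeff_mk, if_pos rfl, mul_zero]

/-- `∏_{|j|<g} (Y + j)` -/
noncomputable def Pi (g : ℕ) : Polynomial ℚ :=
  ∏ k ∈ range (2 * g - 1), (Polynomial.X + Polynomial.C ((k : ℚ) - ((g : ℚ) - 1)))

lemma taylor_Pi (g : ℕ) : Polynomial.taylor ((g : ℚ) - 1 / 2) (Pi g) = EE (2 * g - 1) := by
  unfold Pi EE
  rw [← Polynomial.taylorAlgHom_apply, map_prod]
  refine prod_congr rfl fun k _ => ?_
  rw [Polynomial.taylorAlgHom_apply, map_add, Polynomial.taylor_X, Polynomial.taylor_C, add_assoc,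
    ← Polynomial.C_add]
  congr 2
  ring

lemma coeff_VE (g : ℕ) (hg : 1 ≤ g) :
    coeff (2 * g) (V * ∏ k ∈ range (2 * g - 1), (1 + ((k : ℚ) + 1 / 2) • (X : ℚ⟦X⟧))) =
      ∑ j ∈ range (2 * g), coeff (j + 1) V * (Polynomial.taylor ((g : ℚ) - 1 / 2) (Pi g)).coeff j := by
  rw [taylor_Pi, coeff_mul, Finset.Nat.sum_antidiagonal_eq_sum_range_succ_mk, sum_range_succ',
    coeff_V_zero, zero_mul, add_zero]
  refine sum_congr rfl fun j hj => ?_
  simp only [mem_range] at hj
  rw [coeff_prod_el, ← (coeff_EE (2 * g - 1)).1 (2 * g - (j + 1)) (by omega)]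
  congr 2
  omega

/-- `∑ B_n(g) u^n / n!` -/
noncomputable def BG (g : ℚ) : ℚ⟦X⟧ :=
  PowerSeries.mk fun n => (Polynomial.bernoulli n).eval g / (n.factorial : ℚ)

lemma BG_mul (g : ℚ) : BG g * (exp ℚ - 1) = X * ez g := by
  have h := Polynomial.bernoulli_generating_function (A := ℚ) g
  have h1 : (PowerSeries.mk fun n => (Polynomial.aeval g)
      ((1 / (n.factorial : ℚ)) • Polynomial.bernoulli n)) = BG g := by
    unfold BG
    ext n
    rw [coeff_mk, coeff_mk, map_smul, Polynomial.coe_aeval_eq_eval, smul_eq_mul]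
    ring
  rw [h1] at h
  exact h

lemma exp_sub_one_ne : (exp ℚ - 1 : ℚ⟦X⟧) ≠ 0 := by
  apply ne_zero_of_coeff (n := 1)
  rw [map_sub, coeff_exp, coeff_one]
  simp

lemma S_inv_ez (c : ℚ) : S⁻¹ * ez c = BG (c + 1 / 2) := by
  apply mul_right_cancel₀ exp_sub_one_ne
  rw [BG_mul]
  have h1 : (exp ℚ - 1 : ℚ⟦X⟧) = ez (1 / 2) * (X * S) := by
    rw [X_mul_S, mul_sub, ez_mul, ez_neg_mul, ← ez_one]
    norm_num
  rw [h1]
  calc S⁻¹ * ez c * (ez (1 / 2) * (X * S)) = X * (ez c * ez (1 / 2)) * (S * S⁻¹) := by ring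
    _ = _ := by rw [ez_mul, S_mul_inv, mul_one]

/-- `∑ (j+2) b_{j+2} u^j` -/
noncomputable def KK : ℚ⟦X⟧ := PowerSeries.mk fun j => ((j : ℚ) + 2) * b (j + 2)

lemma X_mul_KK : X * KK = d⁄dX ℚ S⁻¹ := by
  ext n
  rw [coeff_derivative]
  cases n with
  | zero =>
    have : coeff (0 + 1) S⁻¹ = 0 := b_odd (n := 1) (by decide)
    rw [this]
    simp
  | succ n =>
    rw [coeff_succ_X_mul]
    unfold KK
    rw [coeff_mk]
    unfold b
    push_cast
    ring

lemma coeff_KK_ez (c : ℚ) (d : ℕ) : coeff d (KK * ez c) =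
    ((Polynomial.bernoulli (d + 2)).eval (c + 1 / 2) -
      c * (Polynomial.bernoulli (d + 1)).eval (c + 1 / 2)) / ((d + 1).factorial : ℚ) := by
  have h1 : coeff d (KK * ez c) = coeff (d + 1) (X * KK * ez c) := by
    rw [mul_assoc, coeff_succ_X_mul]
  rw [h1, X_mul_KK]
  have h2 : d⁄dX ℚ S⁻¹ * ez c = d⁄dX ℚ (BG (c + 1 / 2)) - c • BG (c + 1 / 2) := by
    rw [← S_inv_ez, Derivation.leibniz, derivative_ez]
    simp only [smul_eq_mul, mul_smul_comm]
    ring
  rw [h2, map_sub, map_smul, coeff_derivative]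
  unfold BG
  rw [coeff_mk, coeff_mk, smul_eq_mul, Nat.factorial_succ (d + 1)]
  have h3 : ((d + 1).factorial : ℚ) ≠ 0 := by positivity
  push_cast
  have h4 : ((d : ℚ) + 1 + 1) ≠ 0 := by positivity
  field_simp
  try ring

lemma theta_monomial (c : ℚ) (d : ℕ) :
    ∑ j ∈ range (d + 1), coeff (j + 1) V * (c ^ (d - j) * (d.choose j : ℚ)) =
      ((Polynomial.bernoulli (d + 2)).eval (c + 1 / 2) -
      c * (Polynomial.bernoulli (d + 1)).eval (c + 1 / 2)) / ((d : ℚ) + 1) := by
  have h1 : ∑ j ∈ range (d + 1), coeff (j + 1) V * (c ^ (d - j) * (d.choose j : ℚ)) =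
      (d.factorial : ℚ) * coeff d (KK * ez c) := by
    rw [coeff_mul, Finset.Nat.sum_antidiagonal_eq_sum_range_succ_mk, mul_sum]
    refine sum_congr rfl fun j hj => ?_
    simp only [mem_range] at hj
    rw [coeff_V, coeff_ez]
    unfold KK
    rw [coeff_mk]
    have h2 : (d.choose j : ℚ) = (d.factorial : ℚ) / ((j.factorial : ℚ) * ((d - j).factorial : ℚ)) :=
      Nat.cast_choose ℚ (by omega)
    rw [h2]
    have h3 : (j.factorial : ℚ) ≠ 0 := by positivity
    have h4 : ((d - j).factorial : ℚ) ≠ 0 := by positivity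
    field_simp
  rw [h1, coeff_KK_ez, Nat.factorial_succ]
  have h3 : (d.factorial : ℚ) ≠ 0 := by positivity
  have h4 : ((d : ℚ) + 1) ≠ 0 := by positivity
  push_cast
  field_simp

lemma natDegree_Pi (g : ℕ) (hg : 1 ≤ g) : (Pi g).natDegree < 2 * g := by
  unfold Pi
  rw [Polynomial.natDegree_prod_of_monic _ _ (fun k _ => Polynomial.monic_X_add_C _)]
  simp only [Polynomial.natDegree_X_add_C, sum_const, card_range, smul_eq_mul, mul_one]
  omega

lemma Pi_eval_nat (g m : ℕ) (hm : m < g) : (Pi g).eval (m : ℚ) = 0 := by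
  unfold Pi
  rw [Polynomial.eval_prod]
  apply prod_eq_zero (i := g - 1 - m)
  · simp only [mem_range]; omega
  · rw [Polynomial.eval_add, Polynomial.eval_X, Polynomial.eval_C, Nat.cast_sub (by omega),
      Nat.cast_sub (by omega)]
    push_cast
    ring

lemma Pi_comp_neg (g : ℕ) (hg : 1 ≤ g) : (Pi g).comp (-Polynomial.X) = -Pi g := by
  unfold Pi
  rw [Polynomial.prod_comp]
  have h1 : ∀ k ∈ range (2 * g - 1), (Polynomial.X + Polynomial.C ((k : ℚ) - ((g : ℚ) - 1))).comp
      (-Polynomial.X) = (-1) * (Polynomial.X + Polynomial.C (((2 * g - 1 - 1 - k : ℕ) : ℚ) -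
        ((g : ℚ) - 1))) := by
    intro k hk
    simp only [mem_range] at hk
    rw [Polynomial.add_comp, Polynomial.X_comp, Polynomial.C_comp, Nat.cast_sub (by omega),
      Nat.cast_sub (by omega), Nat.cast_sub (by omega)]
    have h2 : (((2 * g : ℕ) : ℚ) - (1 : ℕ) - (1 : ℕ) - (k : ℚ) - ((g : ℚ) - 1)) =
        -((k : ℚ) - ((g : ℚ) - 1)) := by
      push_cast; ring
    rw [h2, Polynomial.C_neg]
    ring
  rw [prod_congr rfl h1, prod_mul_distrib, prod_const, card_range,
    Finset.prod_range_reflect (fun k : ℕ => (Polynomial.X + Polynomial.C ((k : ℚ) - ((g : ℚ) - 1))))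
      (2 * g - 1), Odd.neg_one_pow ⟨g - 1, by omega⟩]
  ring

lemma Pi_coeff_even (g : ℕ) (hg : 1 ≤ g) {d : ℕ} (hd : Even d) : (Pi g).coeff d = 0 := by
  have h := congrArg (fun f => Polynomial.coeff f d) (Pi_comp_neg g hg)
  simp only [Polynomial.coeff_neg] at h
  have h2 : ((Pi g).comp (-Polynomial.X)).coeff d = (-1) ^ d * (Pi g).coeff d := by
    have h3 : (-Polynomial.X : Polynomial ℚ) = Polynomial.C (-1) * Polynomial.X := by simp
    rw [h3, Polynomial.comp_C_mul_X_coeff]
    ring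
  rw [h2, hd.neg_one_pow] at h
  linarith

/-- The value at `x` of the primitive of `Pi g` vanishing at zero. -/
noncomputable def F (g : ℕ) (x : ℚ) : ℚ :=
  ∑ d ∈ range (2 * g), (Pi g).coeff d * x ^ (d + 1) / ((d : ℚ) + 1)

/-- The Bernoulli part. -/
noncomputable def beta (g : ℕ) : ℚ :=
  ∑ d ∈ range (2 * g), (Pi g).coeff d * bernoulli (d + 1) / ((d : ℚ) + 1)

theorem chi_closed (g : ℕ) (hg : 1 ≤ g) :
    chi g = (2 * ∑ m ∈ range g, F g m - (2 * (g : ℚ) - 1) * beta g) / (2 * (g : ℚ) - 1) ^ 2 := by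
  rw [chi_eq g hg, coeff_VE g hg]
  set c : ℚ := (g : ℚ) - 1 / 2 with hc
  have hsum : Pi g = ∑ d ∈ range (2 * g), Polynomial.C ((Pi g).coeff d) * Polynomial.X ^ d :=
    Polynomial.as_sum_range_C_mul_X_pow' (Pi g) (natDegree_Pi g hg)
  have h1 : ∀ j, (Polynomial.taylor c (Pi g)).coeff j =
      ∑ d ∈ range (2 * g), (Pi g).coeff d * (c ^ (d - j) * (d.choose j : ℚ)) := by
    intro j
    conv_lhs => rw [hsum]
    rw [map_sum, Polynomial.finset_sum_coeff]
    refine sum_congr rfl fun d _ => ?_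
    rw [Polynomial.taylor_mul, Polynomial.taylor_C, Polynomial.taylor_X_pow, Polynomial.coeff_C_mul,
      Polynomial.coeff_X_add_C_pow]
  have h2 : ∑ j ∈ range (2 * g), coeff (j + 1) V * (Polynomial.taylor c (Pi g)).coeff j =
      ∑ d ∈ range (2 * g), (Pi g).coeff d *
        (((Polynomial.bernoulli (d + 2)).eval (c + 1 / 2) -
          c * (Polynomial.bernoulli (d + 1)).eval (c + 1 / 2)) / ((d : ℚ) + 1)) := by
    simp only [h1, mul_sum]
    rw [sum_comm]
    refine sum_congr rfl fun d hd => ?_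
    simp only [mem_range] at hd
    rw [← theta_monomial, mul_sum]
    symm
    have h3 : ∑ j ∈ range (2 * g), coeff (j + 1) V * ((Pi g).coeff d *
        (c ^ (d - j) * (d.choose j : ℚ))) = ∑ j ∈ range (d + 1), coeff (j + 1) V *
        ((Pi g).coeff d * (c ^ (d - j) * (d.choose j : ℚ))) := by
      symm
      apply sum_subset
      · intro x hx
        simp only [mem_range] at *
        omega
      · intro x _ hx
        simp only [mem_range, not_lt] at hx
        rw [Nat.choose_eq_zero_of_lt (by omega)]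
        simp
    rw [h3]
    refine sum_congr rfl fun j _ => ?_
    ring
  rw [h2]
  have hc2 : c + 1 / 2 = (g : ℚ) := by rw [hc]; ring
  rw [hc2]
  have h4 : ∀ d ∈ range (2 * g), (Pi g).coeff d *
        (((Polynomial.bernoulli (d + 2)).eval (g : ℚ) -
          c * (Polynomial.bernoulli (d + 1)).eval (g : ℚ)) / ((d : ℚ) + 1)) =
      -c * ((Pi g).coeff d * bernoulli (d + 1) / ((d : ℚ) + 1)) +
      (∑ m ∈ range g, (Pi g).coeff d * (m : ℚ) ^ (d + 1) / ((d : ℚ) + 1) +
        ∑ m ∈ range g, (m - c) * ((Pi g).coeff d * (m : ℚ) ^ d)) := by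
    intro d _
    have h5 := Polynomial.sum_range_pow_eq_bernoulli_sub g (d + 1)
    have h6 := Polynomial.sum_range_pow_eq_bernoulli_sub g d
    have h7 : (Polynomial.bernoulli (d + 2)).eval (g : ℚ) =
        bernoulli (d + 2) + ((d : ℚ) + 2) * ∑ k ∈ range g, (k : ℚ) ^ (d + 1) := by
      have : (d + 1).succ = d + 2 := rfl
      rw [this] at h5
      push_cast at h5
      linarith
    have h8 : (Polynomial.bernoulli (d + 1)).eval (g : ℚ) =
        bernoulli (d + 1) + ((d : ℚ) + 1) * ∑ k ∈ range g, (k : ℚ) ^ d := by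
      have : d.succ = d + 1 := rfl
      rw [this] at h6
      linarith
    rw [h7, h8]
    have h9 : (Pi g).coeff d * bernoulli (d + 2) = 0 := by
      rcases Nat.even_or_odd d with h | h
      · rw [Pi_coeff_even g hg h, zero_mul]
      · have : Odd (d + 2) := by
          obtain ⟨k, hk⟩ := h
          exact ⟨k + 1, by omega⟩
        rw [bernoulli_eq_zero_of_odd this (by omega), mul_zero]
    have h10 : ((d : ℚ) + 1) ≠ 0 := by positivity
    have h11 : ∑ m ∈ range g, (Pi g).coeff d * (m : ℚ) ^ (d + 1) / ((d : ℚ) + 1) =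
        (Pi g).coeff d / ((d : ℚ) + 1) * ∑ m ∈ range g, (m : ℚ) ^ (d + 1) := by
      rw [mul_sum]
      refine sum_congr rfl fun m _ => ?_
      ring
    have h12 : ∑ m ∈ range g, ((m : ℚ) - c) * ((Pi g).coeff d * (m : ℚ) ^ d) =
        (Pi g).coeff d * ∑ m ∈ range g, (m : ℚ) ^ (d + 1) -
          c * (Pi g).coeff d * ∑ m ∈ range g, (m : ℚ) ^ d := by
      rw [mul_sum, mul_sum, ← sum_sub_distrib]
      refine sum_congr rfl fun m _ => ?_
      rw [pow_succ]; ring
    rw [h11, h12]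
    field_simp
    linear_combination h9
  rw [sum_congr rfl h4, sum_add_distrib, sum_add_distrib, ← mul_sum]
  have h13 : ∑ d ∈ range (2 * g), ∑ m ∈ range g, ((m : ℚ) - c) * ((Pi g).coeff d * (m : ℚ) ^ d) = 0 := by
    rw [sum_comm]
    apply sum_eq_zero
    intro m hm
    simp only [mem_range] at hm
    rw [← mul_sum, ← Polynomial.eval_eq_sum_range' (natDegree_Pi g hg), Pi_eval_nat g m hm, mul_zero]
  rw [h13, add_zero, sum_comm]
  unfold F beta
  rw [hc]
  have h14 : (2 * (g : ℚ) - 1) ≠ 0 := by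
    have : (1 : ℚ) ≤ g := by exact_mod_cast hg
    linarith
  field_simp
  ring

end Pool.Agent.TH187.EC
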