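import Mathlib
import Pool.Agent.TH187.EC.Key5

set_option autoImplicit false
set_option linter.unusedSectionVars false

namespace Pool.Agent.TH187.EC

open Finset MeasureTheory intervalIntegral

/-- `∏_{|j|<g} (x + j)` for real `x`. -/
noncomputable def PiR (g : ℕ) (x : ℝ) : ℝ :=
  ∏ k ∈ range (2 * g - 1), (x + ((k : ℝ) - ((g : ℝ) - 1)))

lemma continuous_PiR (g : ℕ) : Continuous (PiR g) := by
  unfold PiR
  fun_prop

lemma PiR_eq_sum (g : ℕ) (hg : 1 ≤ g) (x : ℝ) :
    PiR g x = ∑ d ∈ range (2 * g), ((Pi g).coeff d : ℝ) * x ^ d := by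
  have h1 : PiR g x = Polynomial.aeval x (Pi g) := by
    unfold PiR Pi
    rw [map_prod]
    refine prod_congr rfl fun k _ => ?_
    rw [map_add, Polynomial.aeval_X, Polynomial.aeval_C]
    simp
  rw [h1, Polynomial.aeval_eq_sum_range' (natDegree_Pi g hg)]
  refine sum_congr rfl fun d _ => ?_
  rw [Algebra.smul_def]
  simp

lemma F_eq_integral (g : ℕ) (hg : 1 ≤ g) (m : ℕ) :
    ((F g m : ℚ) : ℝ) = ∫ x in (0 : ℝ)..(m : ℝ), PiR g x := by
  have h1 : (fun x : ℝ => PiR g x) = fun x => ∑ d ∈ range (2 * g), ((Pi g).coeff d : ℝ) * x ^ d := by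
    funext x
    exact PiR_eq_sum g hg x
  rw [h1, intervalIntegral.integral_finset_sum]
  · unfold F
    push_cast
    refine sum_congr rfl fun d _ => ?_
    rw [intervalIntegral.integral_const_mul, integral_pow]
    rw [zero_pow (Nat.succ_ne_zero d), sub_zero]
    ring
  · intro d _
    apply Continuous.intervalIntegrable
    fun_prop

/-- The integrals `K_i`. -/
noncomputable def fK (n i : ℕ) (s : ℝ) : ℝ :=
  (∏ a ∈ range i, ((a : ℝ) + s)) * ∏ b ∈ range (n + 1 - i), ((b : ℝ) + 1 - s)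

noncomputable def K (n i : ℕ) : ℝ := ∫ s in (0 : ℝ)..1, fK n i s

lemma continuous_fK (n i : ℕ) : Continuous (fK n i) := by
  unfold fK
  fun_prop

lemma PiR_sub (g i : ℕ) (hg : 1 ≤ g) (hi : i ≤ 2 * g - 1) (s : ℝ) :
    PiR g ((g : ℝ) - i - s) = (-1) ^ i * fK (2 * g - 2) i s := by
  unfold PiR fK
  have h0 : 2 * g - 1 = i + (2 * g - 2 + 1 - i) := by omega
  rw [h0, prod_range_add]
  have h1 : ∏ x ∈ range i, ((g : ℝ) - i - s + ((x : ℝ) - ((g : ℝ) - 1))) =
      (-1) ^ i * ∏ a ∈ range i, ((a : ℝ) + s) := by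
    rw [← Finset.prod_range_reflect (fun a : ℕ => (a : ℝ) + s)]
    rw [← card_range i, ← prod_const, card_range, ← prod_mul_distrib]
    refine prod_congr rfl fun x hx => ?_
    simp only [mem_range] at hx
    rw [Nat.cast_sub (by omega), Nat.cast_sub (by omega)]
    push_cast
    ring
  have h2 : ∏ x ∈ range (2 * g - 2 + 1 - i), ((g : ℝ) - i - s + (((i + x : ℕ) : ℝ) - ((g : ℝ) - 1))) =
      ∏ b ∈ range (2 * g - 2 + 1 - i), ((b : ℝ) + 1 - s) := by
    refine prod_congr rfl fun x _ => ?_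
    push_cast
    ring
  rw [h1, h2]
  ring

lemma integral_PiR (g i : ℕ) (hg : 1 ≤ g) (hi : i ≤ 2 * g - 1) :
    ∫ r in ((g : ℝ) - i - 1)..((g : ℝ) - i), PiR g r = (-1) ^ i * K (2 * g - 2) i := by
  have h1 := intervalIntegral.integral_comp_sub_left (a := 0) (b := 1) (PiR g) ((g : ℝ) - i)
  rw [sub_zero] at h1
  rw [← h1]
  unfold K
  rw [← intervalIntegral.integral_const_mul]
  congr 1
  funext s
  exact PiR_sub g i hg hi s

lemma sum_F (g : ℕ) (hg : 1 ≤ g) :
    ∑ m ∈ range g, ((F g m : ℚ) : ℝ) = ∑ i ∈ range g, (i : ℝ) * ((-1) ^ i * K (2 * g - 2) i) := by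
  have h1 : ∀ m : ℕ, ((F g m : ℚ) : ℝ) =
      ∑ l ∈ range m, ∫ r in ((l : ℕ) : ℝ)..((l + 1 : ℕ) : ℝ), PiR g r := by
    intro m
    rw [F_eq_integral g hg]
    have h2 := intervalIntegral.sum_integral_adjacent_intervals (f := PiR g) (μ := volume)
      (a := fun k : ℕ => (k : ℝ)) (n := m)
      (fun k _ => (continuous_PiR g).intervalIntegrable _ _)
    rw [h2]
    simp
  have h3 : ∀ M : ℕ, ∑ m ∈ range M, ∑ l ∈ range m, (∫ r in ((l : ℕ) : ℝ)..((l + 1 : ℕ) : ℝ), PiR g r) =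
      ∑ l ∈ range M, ((M : ℝ) - 1 - l) * ∫ r in ((l : ℕ) : ℝ)..((l + 1 : ℕ) : ℝ), PiR g r := by
    intro M
    induction M with
    | zero => simp
    | succ M ih =>
      rw [sum_range_succ, ih, ← sum_add_distrib, sum_range_succ]
      have h4 : (((M + 1 : ℕ) : ℝ) - 1 - M) = 0 := by push_cast; ring
      rw [h4, zero_mul, add_zero]
      refine sum_congr rfl fun l _ => ?_
      push_cast
      ring
  simp only [h1]
  rw [h3, ← Finset.sum_range_reflect]
  refine sum_congr rfl fun i hi => ?_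
  simp only [mem_range] at hi
  have h5 : ((g - 1 - i : ℕ) : ℝ) = (g : ℝ) - i - 1 := by
    rw [Nat.cast_sub (by omega), Nat.cast_sub (by omega)]
    push_cast
    ring
  have h6 : ((g - 1 - i + 1 : ℕ) : ℝ) = (g : ℝ) - i := by
    rw [Nat.cast_add, h5]
    push_cast
    ring
  rw [h5, h6, integral_PiR g i hg (by omega)]
  ring

lemma fK_nonneg (n i : ℕ) {s : ℝ} (hs : 0 ≤ s) (hs1 : s ≤ 1) : 0 ≤ fK n i s := by
  unfold fK
  apply mul_nonneg
  · exact prod_nonneg fun a _ => by positivity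
  · exact prod_nonneg fun b _ => by
      have : (0 : ℝ) ≤ b := Nat.cast_nonneg b
      linarith

lemma fK_le (n i : ℕ) (hi : 1 ≤ i) (hin : i ≤ n) {s : ℝ} (hs : 0 ≤ s) (hs1 : s ≤ 1) :
    fK n i s * ((n - 1).factorial : ℝ) ≤ (i.factorial : ℝ) * ((n - i).factorial : ℝ) * fK n 1 s := by
  induction i, hi using Nat.le_induction with
  | base =>
    rw [Nat.factorial_one]
    push_cast
    rw [one_mul, mul_comm]
  | succ i hi ih =>
    have ih' := ih (by omega)
    obtain ⟨d, rfl⟩ : ∃ d, n = i + 1 + d := ⟨n - (i + 1), by omega⟩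
    have e1 : i + 1 + d - (i + 1) = d := by omega
    have e2 : i + 1 + d - i = d + 1 := by omega
    have e3 : i + 1 + d + 1 - (i + 1) = d + 1 := by omega
    have e4 : i + 1 + d + 1 - i = d + 1 + 1 := by omega
    rw [e1]
    rw [e2] at ih'
    have h1 : fK (i + 1 + d) (i + 1) s * ((d : ℝ) + 2 - s) = fK (i + 1 + d) i s * ((i : ℝ) + s) := by
      unfold fK
      rw [e3, e4, prod_range_succ (fun a : ℕ => (a : ℝ) + s) i,
        prod_range_succ (fun b : ℕ => (b : ℝ) + 1 - s) (d + 1)]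
      push_cast
      ring
    have h2 := fK_nonneg (i + 1 + d) (i + 1) hs hs1
    have h3 := fK_nonneg (i + 1 + d) i hs hs1
    have h4 : fK (i + 1 + d) (i + 1) s * ((d : ℝ) + 1) ≤ fK (i + 1 + d) i s * ((i : ℝ) + 1) := by
      calc fK (i + 1 + d) (i + 1) s * ((d : ℝ) + 1) ≤ fK (i + 1 + d) (i + 1) s * ((d : ℝ) + 2 - s) :=
            mul_le_mul_of_nonneg_left (by linarith) h2
        _ = fK (i + 1 + d) i s * ((i : ℝ) + s) := h1
        _ ≤ _ := mul_le_mul_of_nonneg_left (by linarith) h3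
    have h5 : (0 : ℝ) < (d : ℝ) + 1 := by positivity
    have h6 : (0 : ℝ) ≤ ((i + 1 + d - 1).factorial : ℝ) := by positivity
    have h7 : (fK (i + 1 + d) (i + 1) s * ((i + 1 + d - 1).factorial : ℝ)) * ((d : ℝ) + 1) ≤
        (((i + 1).factorial : ℝ) * (d.factorial : ℝ) * fK (i + 1 + d) 1 s) * ((d : ℝ) + 1) := by
      calc (fK (i + 1 + d) (i + 1) s * ((i + 1 + d - 1).factorial : ℝ)) * ((d : ℝ) + 1)
          = (fK (i + 1 + d) (i + 1) s * ((d : ℝ) + 1)) * ((i + 1 + d - 1).factorial : ℝ) := by ring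
        _ ≤ (fK (i + 1 + d) i s * ((i : ℝ) + 1)) * ((i + 1 + d - 1).factorial : ℝ) :=
            mul_le_mul_of_nonneg_right h4 h6
        _ = ((i : ℝ) + 1) * (fK (i + 1 + d) i s * ((i + 1 + d - 1).factorial : ℝ)) := by ring
        _ ≤ ((i : ℝ) + 1) * ((i.factorial : ℝ) * ((d + 1).factorial : ℝ) * fK (i + 1 + d) 1 s) :=
            mul_le_mul_of_nonneg_left ih' (by positivity)
        _ = _ := by
            rw [Nat.factorial_succ i, Nat.factorial_succ d]
            push_cast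
            ring
    exact le_of_mul_le_mul_right h7 h5

lemma K_nonneg (n i : ℕ) : 0 ≤ K n i := by
  unfold K
  apply intervalIntegral.integral_nonneg (by norm_num)
  intro s hs
  exact fK_nonneg n i hs.1 hs.2

lemma K_le (n i : ℕ) (hi : 1 ≤ i) (hin : i ≤ n) :
    K n i * ((n - 1).factorial : ℝ) ≤ (i.factorial : ℝ) * ((n - i).factorial : ℝ) * K n 1 := by
  unfold K
  rw [← intervalIntegral.integral_mul_const, ← intervalIntegral.integral_const_mul]
  apply intervalIntegral.integral_mono_on (by norm_num)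
  · exact ((continuous_fK n i).mul continuous_const).intervalIntegrable _ _
  · exact (continuous_const.mul (continuous_fK n 1)).intervalIntegrable _ _
  · intro s hs
    exact fK_le n i hi hin hs.1 hs.2

/-- The bound for `i K_i`, in terms of binomial coefficients. -/
lemma iK_le (n i : ℕ) (hi : 1 ≤ i) (hin : i ≤ n) :
    (i : ℝ) * K n i ≤ (i : ℝ) * n / (n.choose i : ℝ) * K n 1 := by
  have h1 := K_le n i hi hin
  have h2 : (n.choose i : ℝ) = (n.factorial : ℝ) / ((i.factorial : ℝ) * ((n - i).factorial : ℝ)) :=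
    Nat.cast_choose ℝ hin
  have h3 : (0 : ℝ) < (i.factorial : ℝ) := by positivity
  have h4 : (0 : ℝ) < ((n - i).factorial : ℝ) := by positivity
  have h5 : (0 : ℝ) < ((n - 1).factorial : ℝ) := by positivity
  have h6 : (n.factorial : ℝ) = n * ((n - 1).factorial : ℝ) := by
    rw [← Nat.mul_factorial_pred (by omega)]
    push_cast
    ring
  have hn : (0 : ℝ) < n := by
    have : 0 < n := by omega
    exact_mod_cast this
  have h7 : K n i ≤ (i.factorial : ℝ) * ((n - i).factorial : ℝ) * K n 1 / ((n - 1).factorial : ℝ) := by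
    rw [le_div_iff₀ h5]
    exact h1
  have h8 : (i : ℝ) * n / (n.choose i : ℝ) * K n 1 =
      (i : ℝ) * ((i.factorial : ℝ) * ((n - i).factorial : ℝ) * K n 1 / ((n - 1).factorial : ℝ)) := by
    rw [h2, h6]
    field_simp
  rw [h8]
  exact mul_le_mul_of_nonneg_left h7 (Nat.cast_nonneg i)

lemma choose_four_le (n i : ℕ) (hi : 4 ≤ i) (hin : 2 * i ≤ n) : n.choose 4 ≤ n.choose i := by
  induction i, hi using Nat.le_induction with
  | base => exact le_refl _
  | succ i hi ih =>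
    exact (ih (by omega)).trans (Nat.choose_le_succ_of_lt_half_left (by omega))

/-- the constant in the tail estimate -/
noncomputable def tau (g : ℕ) : ℝ :=
  4 / (2 * (g : ℝ) - 3) + 18 / ((2 * (g : ℝ) - 3) * (2 * g - 4)) +
    12 * (g : ℝ) * (g - 1) / ((2 * (g : ℝ) - 3) * (2 * g - 4) * (2 * g - 5))

lemma choose_two_real (n : ℕ) : (n.choose 2 : ℝ) = n * (n - 1) / 2 := by
  rw [Nat.cast_choose_two]

lemma choose_three_real (n : ℕ) : (n.choose 3 : ℝ) = n * (n - 1) * (n - 2) / 6 := by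
  induction n with
  | zero => simp
  | succ n ih =>
    rw [Nat.choose_succ_succ' n 2]
    push_cast
    rw [ih, choose_two_real]
    ring

lemma choose_four_real (n : ℕ) : (n.choose 4 : ℝ) = n * (n - 1) * (n - 2) * (n - 3) / 24 := by
  induction n with
  | zero => simp
  | succ n ih =>
    rw [Nat.choose_succ_succ' n 3]
    push_cast
    rw [ih, choose_three_real]
    ring

lemma tail_le (g : ℕ) (hg : 5 ≤ g) :
    ∑ i ∈ Ico 2 g, (i : ℝ) * K (2 * g - 2) i ≤ tau g * K (2 * g - 2) 1 := by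
  set n := 2 * g - 2 with hn
  have hgR : (5 : ℝ) ≤ g := by exact_mod_cast hg
  have hnR : (n : ℝ) = 2 * (g : ℝ) - 2 := by
    rw [hn, Nat.cast_sub (by omega)]; push_cast; ring
  have hK := K_nonneg n 1
  have h1 : ∑ i ∈ Ico 2 g, (i : ℝ) * K n i ≤ ∑ i ∈ Ico 2 g, (i : ℝ) * n / (n.choose i : ℝ) * K n 1 := by
    apply sum_le_sum
    intro i hi
    simp only [mem_Ico] at hi
    exact iK_le n i (by omega) (by omega)
  refine h1.trans ?_
  rw [← sum_mul]
  apply mul_le_mul_of_nonneg_right _ hK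
  have h2 : Ico 2 g = insert 2 (insert 3 (Ico 4 g)) := by
    ext i
    simp only [mem_Ico, mem_insert]
    omega
  rw [h2, sum_insert (by simp), sum_insert (by simp)]
  have h3 : ∑ i ∈ Ico 4 g, (i : ℝ) * n / (n.choose i : ℝ) ≤
      ∑ i ∈ Ico 4 g, (i : ℝ) * n / (n.choose 4 : ℝ) := by
    apply sum_le_sum
    intro i hi
    simp only [mem_Ico] at hi
    have h4 : (n.choose 4 : ℝ) ≤ (n.choose i : ℝ) := by
      exact_mod_cast choose_four_le n i hi.1 (by omega)
    have h5 : (0 : ℝ) < (n.choose 4 : ℝ) := by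
      have : 0 < n.choose 4 := Nat.choose_pos (by omega)
      exact_mod_cast this
    exact div_le_div_of_nonneg_left (by positivity) h5 h4
  have h6 : ∑ i ∈ Ico 4 g, (i : ℝ) * n / (n.choose 4 : ℝ) ≤ (g : ℝ) * (g - 1) / 2 * (n / (n.choose 4 : ℝ)) := by
    have h7 : ∑ i ∈ Ico 4 g, (i : ℝ) * n / (n.choose 4 : ℝ) =
        (∑ i ∈ Ico 4 g, (i : ℝ)) * (n / (n.choose 4 : ℝ)) := by
      rw [sum_mul]
      refine sum_congr rfl fun i _ => ?_
      ring
    rw [h7]
    apply mul_le_mul_of_nonneg_right _ (by positivity)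
    have h8 : ∑ i ∈ Ico 4 g, (i : ℝ) ≤ ∑ i ∈ range g, (i : ℝ) := by
      apply sum_le_sum_of_subset_of_nonneg
      · intro x hx
        simp only [mem_Ico, mem_range] at *
        omega
      · intro x _ _
        positivity
    have h9 : ∑ i ∈ range g, (i : ℝ) = (g : ℝ) * (g - 1) / 2 := by
      have h10 := Finset.sum_range_id_mul_two g
      have h11 : (∑ i ∈ range g, (i : ℝ)) * 2 = (g : ℝ) * ((g - 1 : ℕ) : ℝ) := by
        rw [← Nat.cast_mul, ← h10]
        push_cast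
        rfl
      rw [Nat.cast_sub (by omega)] at h11
      push_cast at h11
      linarith
    rw [h9] at h8
    exact h8
  have e2 : (2 : ℕ) * (n : ℝ) / (n.choose 2 : ℝ) = 4 / (2 * (g : ℝ) - 3) := by
    rw [choose_two_real, hnR]
    have a1 : (2 * (g : ℝ) - 2) ≠ 0 := by linarith
    have a2 : (2 * (g : ℝ) - 3) ≠ 0 := by linarith
    have a3 : (2 * (g : ℝ) - 2 - 1) = 2 * (g : ℝ) - 3 := by ring
    have a8 : (g : ℝ) - 1 ≠ 0 := by linarith
    have a9 : 2 * (g : ℝ) - 2 = 2 * ((g : ℝ) - 1) := by ring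
    rw [a3, a9]
    push_cast
    field_simp
    try ring
  have e3 : (3 : ℕ) * (n : ℝ) / (n.choose 3 : ℝ) = 18 / ((2 * (g : ℝ) - 3) * (2 * g - 4)) := by
    rw [choose_three_real, hnR]
    have a1 : (2 * (g : ℝ) - 2) ≠ 0 := by linarith
    have a2 : (2 * (g : ℝ) - 3) ≠ 0 := by linarith
    have a4 : (2 * (g : ℝ) - 4) ≠ 0 := by linarith
    have a3 : (2 * (g : ℝ) - 2 - 1) = 2 * (g : ℝ) - 3 := by ring
    have a5 : (2 * (g : ℝ) - 2 - 2) = 2 * (g : ℝ) - 4 := by ring
    have a8 : (g : ℝ) - 1 ≠ 0 := by linarith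
    have a9 : 2 * (g : ℝ) - 2 = 2 * ((g : ℝ) - 1) := by ring
    rw [a3, a5, a9]
    push_cast
    field_simp
    try ring
  have e4 : (g : ℝ) * (g - 1) / 2 * ((n : ℝ) / (n.choose 4 : ℝ)) =
      12 * (g : ℝ) * (g - 1) / ((2 * (g : ℝ) - 3) * (2 * g - 4) * (2 * g - 5)) := by
    rw [choose_four_real, hnR]
    have a1 : (2 * (g : ℝ) - 2) ≠ 0 := by linarith
    have a2 : (2 * (g : ℝ) - 3) ≠ 0 := by linarith
    have a4 : (2 * (g : ℝ) - 4) ≠ 0 := by linarith
    have a6 : (2 * (g : ℝ) - 5) ≠ 0 := by linarith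
    have a3 : (2 * (g : ℝ) - 2 - 1) = 2 * (g : ℝ) - 3 := by ring
    have a5 : (2 * (g : ℝ) - 2 - 2) = 2 * (g : ℝ) - 4 := by ring
    have a7 : (2 * (g : ℝ) - 2 - 3) = 2 * (g : ℝ) - 5 := by ring
    rw [a3, a5, a7]
    field_simp
    ring
  rw [e2, e3]
  unfold tau
  rw [← e4]
  have := h3.trans h6
  linarith

end Pool.Agent.TH187.EC
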