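import Mathlib
import Pool.Agent.TH187.EC.An1

set_option autoImplicit false
set_option linter.unusedSectionVars false

namespace Pool.Agent.TH187.EC

open Finset MeasureTheory intervalIntegral

/-- `∏_{b=1}^n (1 - s/b)`. -/
noncomputable def pr (n : ℕ) (s : ℝ) : ℝ := ∏ b ∈ range n, (1 - s / ((b : ℝ) + 1))

lemma pr_nonneg (n : ℕ) {s : ℝ} (_hs : 0 ≤ s) (hs1 : s ≤ 1) : 0 ≤ pr n s := by
  unfold pr
  refine prod_nonneg fun b _ => ?_
  have h1 : (0 : ℝ) ≤ b := Nat.cast_nonneg b
  have h2 : s / ((b : ℝ) + 1) ≤ 1 := by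
    rw [div_le_one (by linarith)]
    linarith
  linarith

lemma pr_le_one (n : ℕ) {s : ℝ} (hs : 0 ≤ s) (hs1 : s ≤ 1) : pr n s ≤ 1 := by
  unfold pr
  refine prod_le_one (fun b _ => ?_) (fun b _ => ?_)
  · have h1 : (0 : ℝ) ≤ b := Nat.cast_nonneg b
    have h2 : s / ((b : ℝ) + 1) ≤ 1 := by
      rw [div_le_one (by linarith)]
      linarith
    linarith
  · have : 0 ≤ s / ((b : ℝ) + 1) := by positivity
    linarith

lemma pr_le (n : ℕ) {s : ℝ} (hs : 0 ≤ s) (hs1 : s ≤ 1) :
    pr n s ≤ Real.exp (-(Real.log ((n : ℝ) + 1) * s)) := by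
  induction n with
  | zero => simp [pr]
  | succ n ih =>
    have h0 : pr (n + 1) s = pr n s * (1 - s / ((n : ℝ) + 1)) := by
      unfold pr
      rw [prod_range_succ]
    have hn : (0 : ℝ) < (n : ℝ) + 1 := by positivity
    have hn2 : (0 : ℝ) < (n : ℝ) + 1 + 1 := by positivity
    have h1 : Real.log ((n : ℝ) + 1 + 1) - Real.log ((n : ℝ) + 1) ≤ 1 / ((n : ℝ) + 1) := by
      rw [← Real.log_div hn2.ne' hn.ne']
      have h2 := Real.log_le_sub_one_of_pos (div_pos hn2 hn)
      refine h2.trans (le_of_eq ?_)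
      field_simp
      ring
    have h3 : 1 - s / ((n : ℝ) + 1) ≤
        Real.exp (-((Real.log ((n : ℝ) + 1 + 1) - Real.log ((n : ℝ) + 1)) * s)) := by
      have h4 := Real.add_one_le_exp (-((Real.log ((n : ℝ) + 1 + 1) - Real.log ((n : ℝ) + 1)) * s))
      have h5 : (Real.log ((n : ℝ) + 1 + 1) - Real.log ((n : ℝ) + 1)) * s ≤ s / ((n : ℝ) + 1) := by
        calc (Real.log ((n : ℝ) + 1 + 1) - Real.log ((n : ℝ) + 1)) * s ≤ 1 / ((n : ℝ) + 1) * s :=
              mul_le_mul_of_nonneg_right h1 hs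
          _ = _ := by ring
      linarith
    have h6 : 0 ≤ 1 - s / ((n : ℝ) + 1) := by
      have : s / ((n : ℝ) + 1) ≤ 1 := by
        rw [div_le_one hn]
        have : (0 : ℝ) ≤ n := Nat.cast_nonneg n
        linarith
      linarith
    rw [h0]
    calc pr n s * (1 - s / ((n : ℝ) + 1)) ≤ Real.exp (-(Real.log ((n : ℝ) + 1) * s)) *
          Real.exp (-((Real.log ((n : ℝ) + 1 + 1) - Real.log ((n : ℝ) + 1)) * s)) :=
          mul_le_mul ih h3 h6 (Real.exp_pos _).le
      _ = _ := by
          rw [← Real.exp_add]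
          congr 1
          push_cast
          ring

lemma le_pr (n : ℕ) (hn : 1 ≤ n) {s : ℝ} (hs : 0 ≤ s) (hs1 : s ≤ 1) :
    (1 - s) * Real.exp (-(Real.log n * s)) ≤ pr n s := by
  induction n, hn using Nat.le_induction with
  | base => simp [pr]
  | succ n hn ih =>
    have h0 : pr (n + 1) s = pr n s * (1 - s / ((n : ℝ) + 1)) := by
      unfold pr
      rw [prod_range_succ]
    have hn0 : (0 : ℝ) < (n : ℝ) := by exact_mod_cast hn
    have hn1 : (0 : ℝ) < (n : ℝ) + 1 := by positivity
    have h1 : Real.exp (-((Real.log ((n : ℝ) + 1) - Real.log n) * s)) ≤ 1 - s / ((n : ℝ) + 1) := by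
      have h2 := rpow_one_add_le_one_add_mul_self (s := -(1 / ((n : ℝ) + 1))) (p := s) (by
        have : 1 / ((n : ℝ) + 1) ≤ 1 := by
          rw [div_le_one hn1]; linarith
        linarith) hs hs1
      have h3 : 1 + -(1 / ((n : ℝ) + 1)) = (n : ℝ) / ((n : ℝ) + 1) := by
        field_simp
        ring
      rw [h3, Real.rpow_def_of_pos (div_pos hn0 hn1), Real.log_div hn0.ne' hn1.ne'] at h2
      calc Real.exp (-((Real.log ((n : ℝ) + 1) - Real.log n) * s))
          = Real.exp ((Real.log n - Real.log ((n : ℝ) + 1)) * s) := by congr 1; ring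
        _ ≤ 1 + s * -(1 / ((n : ℝ) + 1)) := h2
        _ = _ := by ring
    rw [h0]
    push_cast
    calc (1 - s) * Real.exp (-(Real.log ((n : ℝ) + 1) * s))
        = ((1 - s) * Real.exp (-(Real.log n * s))) *
          Real.exp (-((Real.log ((n : ℝ) + 1) - Real.log n) * s)) := by
          rw [mul_assoc, ← Real.exp_add]
          congr 2
          ring
      _ ≤ pr n s * (1 - s / ((n : ℝ) + 1)) :=
          mul_le_mul ih h1 (Real.exp_pos _).le (pr_nonneg n hs hs1)

lemma continuous_pr (n : ℕ) : Continuous (pr n) := by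
  unfold pr
  fun_prop

/-- `∫_0^1 s ∏_{b=1}^n (1 - s/b) ds` -/
noncomputable def II (n : ℕ) : ℝ := ∫ s in (0 : ℝ)..1, s * pr n s

lemma K_one (n : ℕ) : K n 1 = (n.factorial : ℝ) * II n := by
  unfold K II
  rw [← intervalIntegral.integral_const_mul]
  congr 1
  funext s
  unfold fK
  rw [Nat.add_sub_cancel, prod_range_one]
  have h1 : ∏ b ∈ range n, ((b : ℝ) + 1 - s) = (n.factorial : ℝ) * pr n s := by
    induction n with
    | zero => simp [pr]
    | succ n ih =>
      have h0 : pr (n + 1) s = pr n s * (1 - s / ((n : ℝ) + 1)) := by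
        unfold pr
        rw [prod_range_succ]
      rw [prod_range_succ, ih, h0, Nat.factorial_succ]
      have : (n : ℝ) + 1 ≠ 0 := by positivity
      push_cast
      field_simp
  rw [h1]
  push_cast
  ring

lemma II_le_half (n : ℕ) : II n ≤ 1 / 2 := by
  have h1 : II n ≤ ∫ s in (0 : ℝ)..1, s := by
    unfold II
    apply intervalIntegral.integral_mono_on (by norm_num)
    · exact (continuous_id.mul (continuous_pr n)).intervalIntegrable _ _
    · exact continuous_id.intervalIntegrable _ _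
    · intro s hs
      have := mul_le_mul_of_nonneg_left (pr_le_one n hs.1 hs.2) hs.1
      simpa using this
  rw [integral_id] at h1
  norm_num at h1
  linarith

lemma le_II (n : ℕ) (hn : 1 ≤ n) : 1 / (6 * (n : ℝ)) ≤ II n := by
  have hn0 : (0 : ℝ) < (n : ℝ) := by exact_mod_cast hn
  have h1 : ∫ s in (0 : ℝ)..1, (s - s ^ 2) * (1 / (n : ℝ)) ≤ II n := by
    unfold II
    apply intervalIntegral.integral_mono_on (by norm_num)
    · apply Continuous.intervalIntegrable; fun_prop
    · exact (continuous_id.mul (continuous_pr n)).intervalIntegrable _ _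
    · intro s hs
      have h2 := le_pr n hn hs.1 hs.2
      have h3 : (1 / (n : ℝ)) ≤ Real.exp (-(Real.log n * s)) := by
        have h4 : (1 / (n : ℝ)) = Real.exp (-(Real.log n)) := by
          rw [Real.exp_neg, Real.exp_log hn0, one_div]
        rw [h4]
        apply Real.exp_le_exp.2
        have h5 : 0 ≤ Real.log n := Real.log_nonneg (by exact_mod_cast hn)
        have h6 : Real.log n * s ≤ Real.log n * 1 := mul_le_mul_of_nonneg_left hs.2 h5
        linarith
      have h7 : (1 - s) * (1 / (n : ℝ)) ≤ pr n s :=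
        (mul_le_mul_of_nonneg_left h3 (by linarith [hs.2])).trans h2
      calc (s - s ^ 2) * (1 / (n : ℝ)) = s * ((1 - s) * (1 / (n : ℝ))) := by ring
        _ ≤ s * pr n s := mul_le_mul_of_nonneg_left h7 hs.1
  have h8 : ∫ s in (0 : ℝ)..1, (s - s ^ 2) * (1 / (n : ℝ)) = 1 / (6 * (n : ℝ)) := by
    rw [intervalIntegral.integral_mul_const, intervalIntegral.integral_sub]
    · rw [integral_id, integral_pow]
      norm_num
      field_simp
    · exact continuous_id.intervalIntegrable _ _
    · exact (continuous_pow 2).intervalIntegrable _ _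
  rw [h8] at h1
  exact h1

lemma int_exp_one (L : ℝ) (hL : 0 < L) :
    ∫ s in (0 : ℝ)..1, s * Real.exp (-(L * s)) = (1 - (1 + L) * Real.exp (-L)) / L ^ 2 := by
  have h1 : ∀ s ∈ Set.uIcc (0 : ℝ) 1, HasDerivAt (fun s : ℝ => -(s / L + 1 / L ^ 2) * Real.exp (-(L * s)))
      (s * Real.exp (-(L * s))) s := by
    intro s _
    have h2 : HasDerivAt (fun s : ℝ => -(s / L + 1 / L ^ 2)) (-(1 / L)) s := by
      have := ((hasDerivAt_id s).div_const L).add_const (1 / L ^ 2)
      exact this.neg
    have h3 : HasDerivAt (fun s : ℝ => Real.exp (-(L * s))) (Real.exp (-(L * s)) * -L) s := by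
      have h4 : HasDerivAt (fun s : ℝ => -(L * s)) (-L) s := by
        have := (hasDerivAt_id' s).const_mul (-L)
        simpa [neg_mul] using this
      exact h4.exp
    have h5 : HasDerivAt (fun s : ℝ => -(s / L + 1 / L ^ 2) * Real.exp (-(L * s)))
        (-(1 / L) * Real.exp (-(L * s)) + -(s / L + 1 / L ^ 2) * (Real.exp (-(L * s)) * -L)) s :=
      h2.mul h3
    have h6 : -(1 / L) * Real.exp (-(L * s)) + -(s / L + 1 / L ^ 2) * (Real.exp (-(L * s)) * -L) =
        s * Real.exp (-(L * s)) := by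
      field_simp
      ring
    rw [h6] at h5
    exact h5
  rw [intervalIntegral.integral_eq_sub_of_hasDerivAt h1]
  · have e0 : -(L * 0) = 0 := by ring
    rw [e0, mul_one, Real.exp_zero]
    field_simp
    ring
  · apply Continuous.intervalIntegrable; fun_prop

lemma int_exp_two (L : ℝ) (hL : 0 < L) :
    ∫ s in (0 : ℝ)..1, s ^ 2 * Real.exp (-(L * s)) ≤ 2 / L ^ 3 := by
  have h1 : ∀ s ∈ Set.uIcc (0 : ℝ) 1, HasDerivAt
      (fun s : ℝ => -(s ^ 2 / L + 2 * s / L ^ 2 + 2 / L ^ 3) * Real.exp (-(L * s)))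
      (s ^ 2 * Real.exp (-(L * s))) s := by
    intro s _
    have h2 : HasDerivAt (fun s : ℝ => -(s ^ 2 / L + 2 * s / L ^ 2 + 2 / L ^ 3))
        (-(2 * s / L + 2 / L ^ 2)) s := by
      have a1 : HasDerivAt (fun s : ℝ => s ^ 2 / L) (2 * s / L) s := by
        have := (hasDerivAt_pow 2 s).div_const L
        simpa using this
      have a2 : HasDerivAt (fun s : ℝ => 2 * s / L ^ 2) (2 / L ^ 2) s := by
        have := ((hasDerivAt_id s).const_mul 2).div_const (L ^ 2)
        simpa using this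
      have := (a1.add a2).add_const (2 / L ^ 3)
      exact this.neg
    have h3 : HasDerivAt (fun s : ℝ => Real.exp (-(L * s))) (Real.exp (-(L * s)) * -L) s := by
      have h4 : HasDerivAt (fun s : ℝ => -(L * s)) (-L) s := by
        have := (hasDerivAt_id' s).const_mul (-L)
        simpa [neg_mul] using this
      exact h4.exp
    have h5 : HasDerivAt (fun s : ℝ => -(s ^ 2 / L + 2 * s / L ^ 2 + 2 / L ^ 3) *
        Real.exp (-(L * s)))
        (-(2 * s / L + 2 / L ^ 2) * Real.exp (-(L * s)) +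
          -(s ^ 2 / L + 2 * s / L ^ 2 + 2 / L ^ 3) * (Real.exp (-(L * s)) * -L)) s :=
      h2.mul h3
    have h6 : -(2 * s / L + 2 / L ^ 2) * Real.exp (-(L * s)) +
          -(s ^ 2 / L + 2 * s / L ^ 2 + 2 / L ^ 3) * (Real.exp (-(L * s)) * -L) =
        s ^ 2 * Real.exp (-(L * s)) := by
      field_simp
      ring
    rw [h6] at h5
    exact h5
  rw [intervalIntegral.integral_eq_sub_of_hasDerivAt h1]
  · have e0 : -(L * 0) = 0 := by ring
    have e1 : -(L * 1) = -L := by ring
    rw [e0, e1, Real.exp_zero]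
    have h6 : 0 ≤ (1 ^ 2 / L + 2 / L ^ 2 + 2 / L ^ 3) * Real.exp (-L) := by positivity
    have h7 : -(1 ^ 2 / L + 2 * 1 / L ^ 2 + 2 / L ^ 3) * Real.exp (-L) -
        -(0 ^ 2 / L + 2 * 0 / L ^ 2 + 2 / L ^ 3) * 1 =
        2 / L ^ 3 - (1 ^ 2 / L + 2 / L ^ 2 + 2 / L ^ 3) * Real.exp (-L) := by ring
    rw [h7]
    linarith
  · apply Continuous.intervalIntegrable; fun_prop

lemma II_upper (n : ℕ) (hn : 1 ≤ n) : II n ≤ 1 / Real.log ((n : ℝ) + 1) ^ 2 := by
  have hn0 : (1 : ℝ) ≤ (n : ℝ) := by exact_mod_cast hn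
  have hL : 0 < Real.log ((n : ℝ) + 1) := Real.log_pos (by linarith)
  have h1 : II n ≤ ∫ s in (0 : ℝ)..1, s * Real.exp (-(Real.log ((n : ℝ) + 1) * s)) := by
    unfold II
    apply intervalIntegral.integral_mono_on (by norm_num)
    · exact (continuous_id.mul (continuous_pr n)).intervalIntegrable _ _
    · apply Continuous.intervalIntegrable; fun_prop
    · intro s hs
      exact mul_le_mul_of_nonneg_left (pr_le n hs.1 hs.2) hs.1
  rw [int_exp_one _ hL] at h1
  refine h1.trans ?_
  apply div_le_div_of_nonneg_right _ (by positivity)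
  have : 0 ≤ (1 + Real.log ((n : ℝ) + 1)) * Real.exp (-Real.log ((n : ℝ) + 1)) := by positivity
  linarith

lemma II_lower (n : ℕ) (hn : 2 ≤ n) :
    (1 - (1 + Real.log n) * Real.exp (-Real.log n)) / Real.log n ^ 2 - 2 / Real.log n ^ 3 ≤ II n := by
  have hn0 : (2 : ℝ) ≤ (n : ℝ) := by exact_mod_cast hn
  have hL : 0 < Real.log n := Real.log_pos (by linarith)
  have h1 : ∫ s in (0 : ℝ)..1, (s * Real.exp (-(Real.log n * s)) - s ^ 2 * Real.exp (-(Real.log n * s))) ≤
      II n := by
    unfold II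
    apply intervalIntegral.integral_mono_on (by norm_num)
    · apply Continuous.intervalIntegrable; fun_prop
    · exact (continuous_id.mul (continuous_pr n)).intervalIntegrable _ _
    · intro s hs
      have h2 := mul_le_mul_of_nonneg_left (le_pr n (by omega) hs.1 hs.2) hs.1
      refine le_trans (le_of_eq ?_) h2
      ring
  rw [intervalIntegral.integral_sub, int_exp_one _ hL] at h1
  · have h2 := int_exp_two _ hL
    linarith
  · apply Continuous.intervalIntegrable; fun_prop
  · apply Continuous.intervalIntegrable; fun_prop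

end Pool.Agent.TH187.EC
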