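import Mathlib
import Pool.Agent.TH187.EC.An2

set_option autoImplicit false
set_option linter.unusedSectionVars false

namespace Pool.Agent.TH187.EC

open Finset MeasureTheory

lemma Pi_factor (n : ℕ) : Pi (n + 1) =
    Polynomial.X * ∏ m ∈ range n, (Polynomial.X ^ 2 - Polynomial.C (((m : ℚ) + 1) ^ 2)) := by
  have h : ∀ n : ℕ, ∏ k ∈ range (2 * n + 1), (Polynomial.X + Polynomial.C ((k : ℚ) - (n : ℚ))) =
      Polynomial.X * ∏ m ∈ range n, (Polynomial.X ^ 2 - Polynomial.C (((m : ℚ) + 1) ^ 2)) := by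
    intro n
    induction n with
    | zero => simp
    | succ n ih =>
      have e : 2 * (n + 1) + 1 = (2 * n + 1 + 1) + 1 := by ring
      rw [e, prod_range_succ, prod_range_succ', prod_range_succ _ n, ← mul_assoc, ← ih]
      have h1 : ∀ k ∈ range (2 * n + 1), (Polynomial.X + Polynomial.C (((k + 1 : ℕ) : ℚ) -
          ((n + 1 : ℕ) : ℚ))) = Polynomial.X + Polynomial.C ((k : ℚ) - (n : ℚ)) := by
        intro k _
        congr 2
        push_cast
        ring
      rw [prod_congr rfl h1, mul_assoc]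
      congr 1
      have h2 : (((0 : ℕ) : ℚ) - ((n + 1 : ℕ) : ℚ)) = -((n : ℚ) + 1) := by push_cast; ring
      have h3 : (((2 * n + 1 + 1 : ℕ) : ℚ) - ((n + 1 : ℕ) : ℚ)) = (n : ℚ) + 1 := by push_cast; ring
      rw [h2, h3, Polynomial.C_neg, Polynomial.C_pow]
      ring
  have h2 := h n
  unfold Pi
  have e : 2 * (n + 1) - 1 = 2 * n + 1 := by omega
  rw [e, ← h2]
  refine prod_congr rfl fun k _ => ?_
  congr 2
  push_cast
  ring

/-- `t ∏ (t² + m²)` -/
noncomputable def PA (n : ℕ) : Polynomial ℝ :=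
  Polynomial.X * ∏ m ∈ range n, (Polynomial.X ^ 2 + Polynomial.C (((m : ℝ) + 1) ^ 2))

lemma coeff_bound (n : ℕ) : ∀ d, |((((Polynomial.X : Polynomial ℚ) *
      ∏ m ∈ range n, (Polynomial.X ^ 2 - Polynomial.C (((m : ℚ) + 1) ^ 2))).coeff d : ℚ) : ℝ)| ≤
      (PA n).coeff d := by
  induction n with
  | zero =>
    intro d
    unfold PA
    simp only [prod_range_zero, mul_one, Polynomial.coeff_X]
    split_ifs <;> simp
  | succ n ih =>
    intro d
    have h1 : PA (n + 1) = PA n * (Polynomial.X ^ 2 + Polynomial.C (((n : ℝ) + 1) ^ 2)) := by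
      unfold PA
      rw [prod_range_succ, mul_assoc]
    rw [h1, prod_range_succ, ← mul_assoc, mul_sub, mul_add, Polynomial.coeff_sub,
      Polynomial.coeff_add, Polynomial.coeff_mul_C, Polynomial.coeff_mul_C,
      Polynomial.coeff_mul_X_pow', Polynomial.coeff_mul_X_pow']
    have h2 := ih d
    have h4 : (0 : ℝ) ≤ ((n : ℝ) + 1) ^ 2 := by positivity
    split_ifs with h
    · have h3 := ih (d - 2)
      push_cast at h2 h3 ⊢
      refine (abs_sub _ _).trans ?_
      rw [abs_mul, abs_of_nonneg h4]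
      exact add_le_add h3 (mul_le_mul_of_nonneg_right h2 h4)
    · push_cast at h2 ⊢
      rw [zero_sub, abs_neg, abs_mul, abs_of_nonneg h4, zero_add]
      exact mul_le_mul_of_nonneg_right h2 h4

lemma coeff_PA_nonneg (n d : ℕ) : 0 ≤ (PA n).coeff d := (abs_nonneg _).trans (coeff_bound n d)

lemma abs_coeff_Pi (g : ℕ) (hg : 1 ≤ g) (d : ℕ) : |((Pi g).coeff d : ℝ)| ≤ (PA (g - 1)).coeff d := by
  obtain ⟨n, rfl⟩ : ∃ n, g = n + 1 := ⟨g - 1, by omega⟩
  rw [Pi_factor, Nat.add_sub_cancel]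
  exact coeff_bound n d

lemma natDegree_PA (n : ℕ) : (PA n).natDegree < 2 * n + 2 := by
  have : ∀ n, (PA n).natDegree ≤ 2 * n + 1 := by
    intro n
    induction n with
    | zero => unfold PA; simp
    | succ n ih =>
      have h1 : PA (n + 1) = PA n * (Polynomial.X ^ 2 + Polynomial.C (((n : ℝ) + 1) ^ 2)) := by
        unfold PA
        rw [prod_range_succ, mul_assoc]
      rw [h1]
      refine Polynomial.natDegree_mul_le.trans ?_
      rw [Polynomial.natDegree_X_pow_add_C]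
      omega
  have := this n
  omega

lemma int_pow_exp (d : ℕ) {a : ℝ} (ha : 0 < a) :
    IntegrableOn (fun t : ℝ => t ^ d * Real.exp (-(a * t))) (Set.Ioi 0) ∧
    ∫ t in Set.Ioi (0 : ℝ), t ^ d * Real.exp (-(a * t)) = (d.factorial : ℝ) / a ^ (d + 1) := by
  constructor
  · have h := integrableOn_rpow_mul_exp_neg_mul_rpow (p := 1) (s := (d : ℝ)) (b := a)
      (by have : (0 : ℝ) ≤ d := Nat.cast_nonneg d
          linarith) one_pos ha
    refine h.congr_fun ?_ measurableSet_Ioi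
    intro t _
    simp only [Real.rpow_one, Real.rpow_natCast, neg_mul]
  · have h := Real.integral_rpow_mul_exp_neg_mul_Ioi (a := (d : ℝ) + 1) (r := a) (by positivity) ha
    have h2 : ∫ t in Set.Ioi (0 : ℝ), t ^ d * Real.exp (-(a * t)) =
        ∫ t in Set.Ioi (0 : ℝ), t ^ ((d : ℝ) + 1 - 1) * Real.exp (-(a * t)) := by
      congr 1
      funext t
      rw [add_sub_cancel_right, Real.rpow_natCast]
    rw [h2, h, Real.Gamma_nat_eq_factorial]
    have h3 : (1 / a) ^ ((d : ℝ) + 1) = (1 / a) ^ (d + 1) := by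
      rw [← Real.rpow_natCast]
      push_cast
      rfl
    rw [h3, one_div, inv_pow]
    field_simp

lemma PA_eval_le (n : ℕ) {t : ℝ} (ht : 0 ≤ t) :
    (PA n).eval t ≤ (n.factorial : ℝ) ^ 2 * (Real.exp (Real.pi * t) / (2 * Real.pi)) := by
  -- Euler product for sinh
  have h1 : ∀ N : ℕ, Real.pi * t * ∏ j ∈ range N, (1 + t ^ 2 / ((j : ℝ) + 1) ^ 2) ≤
      Real.sinh (Real.pi * t) := by
    have hmono : Monotone (fun N : ℕ => Real.pi * t * ∏ j ∈ range N, (1 + t ^ 2 / ((j : ℝ) + 1) ^ 2)) := by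
      apply monotone_nat_of_le_succ
      intro N
      rw [prod_range_succ, ← mul_assoc]
      have h2 : 0 ≤ Real.pi * t * ∏ j ∈ range N, (1 + t ^ 2 / ((j : ℝ) + 1) ^ 2) := by
        have : 0 ≤ ∏ j ∈ range N, (1 + t ^ 2 / ((j : ℝ) + 1) ^ 2) :=
          prod_nonneg fun j _ => by positivity
        positivity
      have h3 : (1 : ℝ) ≤ 1 + t ^ 2 / ((N : ℝ) + 1) ^ 2 := by
        have : 0 ≤ t ^ 2 / ((N : ℝ) + 1) ^ 2 := by positivity
        linarith
      exact le_mul_of_one_le_right h2 h3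
    have htend : Filter.Tendsto (fun N : ℕ => Real.pi * t * ∏ j ∈ range N, (1 + t ^ 2 / ((j : ℝ) + 1) ^ 2))
        Filter.atTop (nhds (Real.sinh (Real.pi * t))) := by
      have h4 := Complex.tendsto_euler_sin_prod ((t : ℂ) * Complex.I)
      have h5 : Complex.sin (Real.pi * ((t : ℂ) * Complex.I)) =
          ((Real.sinh (Real.pi * t) : ℝ) : ℂ) * Complex.I := by
        rw [← mul_assoc, Complex.sin_mul_I, ← Complex.ofReal_mul, Complex.ofReal_sinh]
      rw [h5] at h4
      have h6 : ∀ N : ℕ, (Real.pi : ℂ) * ((t : ℂ) * Complex.I) *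
          ∏ j ∈ range N, (1 - ((t : ℂ) * Complex.I) ^ 2 / ((j : ℂ) + 1) ^ 2) =
          ((Real.pi * t * ∏ j ∈ range N, (1 + t ^ 2 / ((j : ℝ) + 1) ^ 2) : ℝ) : ℂ) * Complex.I := by
        intro N
        push_cast
        have h7 : ∀ j ∈ range N, (1 - ((t : ℂ) * Complex.I) ^ 2 / ((j : ℂ) + 1) ^ 2) =
            1 + (t : ℂ) ^ 2 / ((j : ℂ) + 1) ^ 2 := by
          intro j _
          rw [mul_pow, Complex.I_sq]
          ring
        rw [prod_congr rfl h7]
        ring
      have h8 := (Complex.continuous_im.tendsto _).comp h4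
      have h9 : (fun N : ℕ => Real.pi * t * ∏ j ∈ range N, (1 + t ^ 2 / ((j : ℝ) + 1) ^ 2)) =
          Complex.im ∘ fun N : ℕ => (Real.pi : ℂ) * ((t : ℂ) * Complex.I) *
          ∏ j ∈ range N, (1 - ((t : ℂ) * Complex.I) ^ 2 / ((j : ℂ) + 1) ^ 2) := by
        funext N
        simp only [Function.comp]
        rw [h6 N, Complex.mul_I_im, Complex.ofReal_re]
      rw [h9]
      have h10 : (((Real.sinh (Real.pi * t) : ℝ) : ℂ) * Complex.I).im = Real.sinh (Real.pi * t) := by
        rw [Complex.mul_I_im, Complex.ofReal_re]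
      rw [h10] at h8
      exact h8
    intro N
    exact hmono.ge_of_tendsto htend N
  have h11 : (PA n).eval t = (n.factorial : ℝ) ^ 2 *
      ((Real.pi * t * ∏ j ∈ range n, (1 + t ^ 2 / ((j : ℝ) + 1) ^ 2)) / Real.pi) := by
    unfold PA
    rw [Polynomial.eval_mul, Polynomial.eval_X, Polynomial.eval_prod]
    have h12 : ∏ m ∈ range n, Polynomial.eval t (Polynomial.X ^ 2 + Polynomial.C (((m : ℝ) + 1) ^ 2)) =
        (n.factorial : ℝ) ^ 2 * ∏ j ∈ range n, (1 + t ^ 2 / ((j : ℝ) + 1) ^ 2) := by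
      induction n with
      | zero => simp
      | succ n ih =>
        rw [prod_range_succ, prod_range_succ, ih, Nat.factorial_succ]
        simp only [Polynomial.eval_add, Polynomial.eval_pow, Polynomial.eval_X, Polynomial.eval_C]
        have : ((n : ℝ) + 1) ≠ 0 := by positivity
        push_cast
        field_simp
        ring
    rw [h12]
    field_simp
  rw [h11]
  apply mul_le_mul_of_nonneg_left _ (by positivity)
  rw [div_le_div_iff₀ Real.pi_pos (by positivity)]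
  have h13 := h1 n
  have h14 : Real.sinh (Real.pi * t) ≤ Real.exp (Real.pi * t) / 2 := by
    rw [Real.sinh_eq]
    have := Real.exp_pos (-(Real.pi * t))
    linarith
  have h15 := h13.trans h14
  calc (Real.pi * t * ∏ j ∈ range n, (1 + t ^ 2 / ((j : ℝ) + 1) ^ 2)) * (2 * Real.pi)
      ≤ (Real.exp (Real.pi * t) / 2) * (2 * Real.pi) :=
        mul_le_mul_of_nonneg_right h15 (by positivity)
    _ = _ := by ring

lemma sum_PA (n : ℕ) : ∑ d ∈ range (2 * n + 2), (PA n).coeff d *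
    ((d.factorial : ℝ) / (2 * Real.pi) ^ (d + 1)) ≤ (n.factorial : ℝ) ^ 2 / (2 * Real.pi ^ 2) := by
  have hpi := Real.pi_pos
  have h2pi : (0 : ℝ) < 2 * Real.pi := by positivity
  have h1 : ∑ d ∈ range (2 * n + 2), (PA n).coeff d * ((d.factorial : ℝ) / (2 * Real.pi) ^ (d + 1)) =
      ∫ t in Set.Ioi (0 : ℝ), ∑ d ∈ range (2 * n + 2),
        (PA n).coeff d * (t ^ d * Real.exp (-((2 * Real.pi) * t))) := by
    rw [MeasureTheory.integral_finsetSum]
    · refine sum_congr rfl fun d _ => ?_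
      rw [MeasureTheory.integral_const_mul, (int_pow_exp d h2pi).2]
    · intro d _
      exact (int_pow_exp d h2pi).1.const_mul _
  rw [h1]
  have h2 : ∫ t in Set.Ioi (0 : ℝ), ∑ d ∈ range (2 * n + 2),
        (PA n).coeff d * (t ^ d * Real.exp (-((2 * Real.pi) * t))) ≤
      ∫ t in Set.Ioi (0 : ℝ), ((n.factorial : ℝ) ^ 2 / (2 * Real.pi)) * (t ^ 0 * Real.exp (-(Real.pi * t))) := by
    apply setIntegral_mono_on
    · apply MeasureTheory.integrable_finsetSum
      intro d _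
      exact (int_pow_exp d h2pi).1.const_mul _
    · exact (int_pow_exp 0 hpi).1.const_mul _
    · exact measurableSet_Ioi
    · intro t ht
      have ht' : (0 : ℝ) ≤ t := le_of_lt ht
      have h3 : ∑ d ∈ range (2 * n + 2), (PA n).coeff d * (t ^ d * Real.exp (-((2 * Real.pi) * t))) =
          (PA n).eval t * Real.exp (-((2 * Real.pi) * t)) := by
        rw [Polynomial.eval_eq_sum_range' (natDegree_PA n), sum_mul]
        refine sum_congr rfl fun d _ => ?_
        ring
      rw [h3, pow_zero, one_mul]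
      calc (PA n).eval t * Real.exp (-((2 * Real.pi) * t))
          ≤ ((n.factorial : ℝ) ^ 2 * (Real.exp (Real.pi * t) / (2 * Real.pi))) *
            Real.exp (-((2 * Real.pi) * t)) :=
            mul_le_mul_of_nonneg_right (PA_eval_le n ht') (Real.exp_pos _).le
        _ = ((n.factorial : ℝ) ^ 2 / (2 * Real.pi)) *
            (Real.exp (Real.pi * t) * Real.exp (-((2 * Real.pi) * t))) := by ring
        _ = _ := by
            rw [← Real.exp_add]
            congr 2
            ring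
  refine h2.trans (le_of_eq ?_)
  rw [MeasureTheory.integral_const_mul, (int_pow_exp 0 hpi).2]
  simp
  field_simp

lemma bernoulli_bound {d : ℕ} (hd : Odd d) : |((bernoulli (d + 1) : ℚ) : ℝ)| / ((d : ℝ) + 1) ≤
    (Real.pi ^ 2 / 3) * ((d.factorial : ℝ) / (2 * Real.pi) ^ (d + 1)) := by
  obtain ⟨k, rfl⟩ := hd
  have hk : k + 1 ≠ 0 := Nat.succ_ne_zero k
  have e : 2 * k + 1 + 1 = 2 * (k + 1) := by ring
  rw [e]
  have h1 := hasSum_zeta_nat hk
  have h2 := hasSum_zeta_nat one_ne_zero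
  have h3 : (-1 : ℝ) ^ (k + 1 + 1) * (2 : ℝ) ^ (2 * (k + 1) - 1) * Real.pi ^ (2 * (k + 1)) *
        bernoulli (2 * (k + 1)) / ((2 * (k + 1)).factorial : ℝ) ≤
      (-1 : ℝ) ^ (1 + 1) * (2 : ℝ) ^ (2 * 1 - 1) * Real.pi ^ (2 * 1) *
        bernoulli (2 * 1) / ((2 * 1).factorial : ℝ) := by
    apply hasSum_le _ h1 h2
    intro n
    rcases Nat.eq_zero_or_pos n with hn | hn
    · subst hn
      simp
    · have hn1 : (1 : ℝ) ≤ n := by exact_mod_cast hn
      apply one_div_le_one_div_of_le (by positivity)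
      exact pow_le_pow_right₀ hn1 (by omega)
  have h4 : (0 : ℝ) ≤ (-1 : ℝ) ^ (k + 1 + 1) * (2 : ℝ) ^ (2 * (k + 1) - 1) * Real.pi ^ (2 * (k + 1)) *
        bernoulli (2 * (k + 1)) / ((2 * (k + 1)).factorial : ℝ) := by
    apply h1.nonneg
    intro n
    positivity
  have h5 : (-1 : ℝ) ^ (1 + 1) * (2 : ℝ) ^ (2 * 1 - 1) * Real.pi ^ (2 * 1) *
        bernoulli (2 * 1) / ((2 * 1).factorial : ℝ) = Real.pi ^ 2 / 6 := by
    rw [mul_one, bernoulli_two]
    norm_num [Nat.factorial]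
    ring
  rw [h5] at h3
  have h6 : |(-1 : ℝ) ^ (k + 1 + 1) * (2 : ℝ) ^ (2 * (k + 1) - 1) * Real.pi ^ (2 * (k + 1)) *
        bernoulli (2 * (k + 1)) / ((2 * (k + 1)).factorial : ℝ)| ≤ Real.pi ^ 2 / 6 := by
    rw [abs_of_nonneg h4]
    exact h3
  rw [abs_div, abs_mul, abs_mul, abs_mul, abs_pow, abs_neg, abs_one, one_pow, one_mul,
    abs_of_nonneg (show (0 : ℝ) ≤ (2 : ℝ) ^ (2 * (k + 1) - 1) by positivity),
    abs_of_nonneg (show (0 : ℝ) ≤ Real.pi ^ (2 * (k + 1)) by positivity),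
    abs_of_nonneg (show (0 : ℝ) ≤ ((2 * (k + 1)).factorial : ℝ) by positivity)] at h6
  set B := |((bernoulli (2 * (k + 1)) : ℚ) : ℝ)| with hB
  have e2 : 2 * (k + 1) - 1 = 2 * k + 1 := by omega
  rw [e2] at h6
  have e3 : ((2 * (k + 1)).factorial : ℝ) = (2 * (k : ℝ) + 2) * ((2 * k + 1).factorial : ℝ) := by
    have : 2 * (k + 1) = (2 * k + 1) + 1 := by ring
    rw [this, Nat.factorial_succ]
    push_cast
    ring
  rw [e3] at h6
  have hf : (0 : ℝ) < ((2 * k + 1).factorial : ℝ) := by positivity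
  have hk2 : (0 : ℝ) < 2 * (k : ℝ) + 2 := by positivity
  have hpi := Real.pi_pos
  rw [div_le_iff₀ (by positivity)] at h6
  rw [div_le_iff₀ (by positivity)]
  have e4 : (2 * Real.pi) ^ (2 * (k + 1)) = 2 * ((2 : ℝ) ^ (2 * k + 1) * Real.pi ^ (2 * (k + 1))) := by
    rw [mul_pow, show 2 * (k + 1) = 2 * k + 1 + 1 by ring, pow_succ (2 : ℝ) (2 * k + 1)]
    ring
  have h7 : B * (2 * Real.pi) ^ (2 * (k + 1)) ≤
      (Real.pi ^ 2 / 3) * ((2 * (k : ℝ) + 2) * ((2 * k + 1).factorial : ℝ)) := by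
    rw [e4]
    linarith
  have h8 : B ≤ (Real.pi ^ 2 / 3) * ((2 * (k : ℝ) + 2) * ((2 * k + 1).factorial : ℝ)) /
      (2 * Real.pi) ^ (2 * (k + 1)) := by
    rw [le_div_iff₀ (by positivity)]
    exact h7
  refine h8.trans (le_of_eq ?_)
  push_cast
  field_simp
  ring

/-- The Bernoulli part is at most `((g-1)!)^2 / 6`. -/
lemma beta_bound (g : ℕ) (hg : 1 ≤ g) :
    |((beta g : ℚ) : ℝ)| ≤ ((g - 1).factorial : ℝ) ^ 2 / 6 := by
  have hpi := Real.pi_pos
  unfold beta
  push_cast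
  refine (abs_sum_le_sum_abs _ _).trans ?_
  have h1 : ∀ d ∈ range (2 * g), |((Pi g).coeff d : ℝ) * ((bernoulli (d + 1) : ℚ) : ℝ) / ((d : ℝ) + 1)| ≤
      (Real.pi ^ 2 / 3) * ((PA (g - 1)).coeff d * ((d.factorial : ℝ) / (2 * Real.pi) ^ (d + 1))) := by
    intro d _
    rcases Nat.even_or_odd d with h | h
    · rw [Pi_coeff_even g hg h]
      have := coeff_PA_nonneg (g - 1) d
      simp only [Rat.cast_zero, zero_mul, zero_div, abs_zero]
      positivity
    · rw [mul_div_assoc, abs_mul, abs_div, abs_of_nonneg (show (0 : ℝ) ≤ (d : ℝ) + 1 by positivity)]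
      calc |((Pi g).coeff d : ℝ)| * (|((bernoulli (d + 1) : ℚ) : ℝ)| / ((d : ℝ) + 1))
          ≤ (PA (g - 1)).coeff d * ((Real.pi ^ 2 / 3) * ((d.factorial : ℝ) / (2 * Real.pi) ^ (d + 1))) :=
            mul_le_mul (abs_coeff_Pi g hg d) (bernoulli_bound h) (by positivity)
              (coeff_PA_nonneg _ _)
        _ = _ := by ring
  refine (sum_le_sum h1).trans ?_
  rw [← mul_sum]
  have e : 2 * g = 2 * (g - 1) + 2 := by omega
  rw [e]
  calc (Real.pi ^ 2 / 3) * ∑ d ∈ range (2 * (g - 1) + 2), (PA (g - 1)).coeff d *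
        ((d.factorial : ℝ) / (2 * Real.pi) ^ (d + 1))
      ≤ (Real.pi ^ 2 / 3) * (((g - 1).factorial : ℝ) ^ 2 / (2 * Real.pi ^ 2)) :=
        mul_le_mul_of_nonneg_left (sum_PA (g - 1)) (by positivity)
    _ = _ := by
        field_simp
        norm_num

end Pool.Agent.TH187.EC
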