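import Mathlib
import Pool.Agent.TH187.EC.Key5

set_option autoImplicit false

namespace Pool.Agent.TH187.EC

open PowerSeries Finset

lemma coeff_S (n : ℕ) : coeff n S = if Even n then 1 / ((2 : ℚ) ^ n * ((n + 1).factorial : ℚ)) else 0 := by
  unfold S
  rw [coeff_mk]

lemma b_rec (n : ℕ) : ∑ i ∈ range (n + 1), coeff i S * b (n - i) = if n = 0 then 1 else 0 := by
  have h := congrArg (coeff n) S_mul_inv
  rw [coeff_mul, Finset.Nat.sum_antidiagonal_eq_sum_range_succ_mk, coeff_one] at h
  exact h

lemma b_two : b 2 = -1 / 24 := by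
  have h := b_rec 2
  have h1 : b 1 = 0 := b_odd (by decide)
  simp only [sum_range_succ, range_zero, sum_empty, coeff_S] at h
  norm_num [h1, b_zero, Nat.factorial, Nat.even_add_one] at h
  linarith

lemma b_four : b 4 = 7 / 5760 := by
  have h := b_rec 4
  have h1 : b 1 = 0 := b_odd (by decide)
  have h3 : b 3 = 0 := b_odd (by decide)
  simp only [sum_range_succ, range_zero, sum_empty, coeff_S] at h
  norm_num [h1, h3, b_zero, b_two, Nat.factorial, Nat.even_add_one] at h
  linarith

lemma b_six : b 6 = -31 / 967680 := by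
  have h := b_rec 6
  have h1 : b 1 = 0 := b_odd (by decide)
  have h3 : b 3 = 0 := b_odd (by decide)
  have h5 : b 5 = 0 := b_odd (by decide)
  simp only [sum_range_succ, range_zero, sum_empty, coeff_S] at h
  norm_num [h1, h3, h5, b_zero, b_two, b_four, Nat.factorial, Nat.even_add_one] at h
  linarith

lemma b_eight : b 8 = 127 / 154828800 := by
  have h := b_rec 8
  have h1 : b 1 = 0 := b_odd (by decide)
  have h3 : b 3 = 0 := b_odd (by decide)
  have h5 : b 5 = 0 := b_odd (by decide)
  have h7 : b 7 = 0 := b_odd (by decide)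
  simp only [sum_range_succ, range_zero, sum_empty, coeff_S] at h
  norm_num [h1, h3, h5, h7, b_zero, b_two, b_four, b_six, Nat.factorial, Nat.even_add_one] at h
  linarith

lemma b_ten : b 10 = -73 / 3503554560 := by
  have h := b_rec 10
  have h1 : b 1 = 0 := b_odd (by decide)
  have h3 : b 3 = 0 := b_odd (by decide)
  have h5 : b 5 = 0 := b_odd (by decide)
  have h7 : b 7 = 0 := b_odd (by decide)
  have h9 : b 9 = 0 := b_odd (by decide)
  simp only [sum_range_succ, range_zero, sum_empty, coeff_S] at h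
  norm_num [h1, h3, h5, h7, h9, b_zero, b_two, b_four, b_six, b_eight, Nat.factorial, Nat.even_add_one] at h
  linarith

lemma b_twelve : b 12 = 1414477 / 2678117105664000 := by
  have h := b_rec 12
  have h1 : b 1 = 0 := b_odd (by decide)
  have h3 : b 3 = 0 := b_odd (by decide)
  have h5 : b 5 = 0 := b_odd (by decide)
  have h7 : b 7 = 0 := b_odd (by decide)
  have h9 : b 9 = 0 := b_odd (by decide)
  have h11 : b 11 = 0 := b_odd (by decide)
  simp only [sum_range_succ, range_zero, sum_empty, coeff_S] at h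
  norm_num [h1, h3, h5, h7, h9, h11, b_zero, b_two, b_four, b_six, b_eight, b_ten, Nat.factorial, Nat.even_add_one] at h
  linarith

lemma b_fourteen : b 14 = -8191 / 612141052723200 := by
  have h := b_rec 14
  have h1 : b 1 = 0 := b_odd (by decide)
  have h3 : b 3 = 0 := b_odd (by decide)
  have h5 : b 5 = 0 := b_odd (by decide)
  have h7 : b 7 = 0 := b_odd (by decide)
  have h9 : b 9 = 0 := b_odd (by decide)
  have h11 : b 11 = 0 := b_odd (by decide)
  have h13 : b 13 = 0 := b_odd (by decide)
  simp only [sum_range_succ, range_zero, sum_empty, coeff_S] at h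
  norm_num [h1, h3, h5, h7, h9, h11, h13, b_zero, b_two, b_four, b_six, b_eight, b_ten, b_twelve, Nat.factorial, Nat.even_add_one] at h
  linarith

lemma chi_sum (g : ℕ) (hg : 1 ≤ g) : chi g = 2 / (2 * (g : ℚ) - 1) ^ 2 *
    ∑ j ∈ range (2 * g), ((j : ℚ) + 2) * ((j.factorial : ℚ) * b (j + 2)) *
      el (2 * g - 1) (2 * g - (j + 1)) := by
  rw [chi_eq g hg, coeff_VE g hg, taylor_Pi]
  congr 1
  refine sum_congr rfl fun j hj => ?_
  simp only [mem_range] at hj
  rw [coeff_V, ← (coeff_EE (2 * g - 1)).1 (2 * g - (j + 1)) (by omega)]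
  congr 2
  omega

lemma chi_1 : chi 1 = -1 / 12 := by
  have h3 : b 3 = 0 := b_odd (by decide)
  rw [chi_sum 1 (by norm_num)]
  simp only [show 2 * 1 = 2 from rfl, show 2 - 1 = 1 from rfl, sum_range_succ, range_zero, sum_empty]
  norm_num [h3, b_two, Nat.factorial, el]

lemma chi_2 : chi 2 = -1 / 40 := by
  have h3 : b 3 = 0 := b_odd (by decide)
  have h5 : b 5 = 0 := b_odd (by decide)
  rw [chi_sum 2 (by norm_num)]
  simp only [show 2 * 2 = 4 from rfl, show 4 - 1 = 3 from rfl, sum_range_succ, range_zero, sum_empty]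
  norm_num [h3, h5, b_two, b_four, Nat.factorial, el]

lemma chi_3 : chi 3 = -55 / 504 := by
  have h3 : b 3 = 0 := b_odd (by decide)
  have h5 : b 5 = 0 := b_odd (by decide)
  have h7 : b 7 = 0 := b_odd (by decide)
  rw [chi_sum 3 (by norm_num)]
  simp only [show 2 * 3 = 6 from rfl, show 6 - 1 = 5 from rfl, sum_range_succ, range_zero, sum_empty]
  norm_num [h3, h5, h7, b_two, b_four, b_six, Nat.factorial, el]

lemma chi_4 : chi 4 = -1169 / 720 := by
  have h3 : b 3 = 0 := b_odd (by decide)
  have h5 : b 5 = 0 := b_odd (by decide)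
  have h7 : b 7 = 0 := b_odd (by decide)
  have h9 : b 9 = 0 := b_odd (by decide)
  rw [chi_sum 4 (by norm_num)]
  simp only [show 2 * 4 = 8 from rfl, show 8 - 1 = 7 from rfl, sum_range_succ, range_zero, sum_empty]
  norm_num [h3, h5, h7, h9, b_two, b_four, b_six, b_eight, Nat.factorial, el]

lemma chi_5 : chi 5 = -4671 / 88 := by
  have h3 : b 3 = 0 := b_odd (by decide)
  have h5 : b 5 = 0 := b_odd (by decide)
  have h7 : b 7 = 0 := b_odd (by decide)
  have h9 : b 9 = 0 := b_odd (by decide)
  have h11 : b 11 = 0 := b_odd (by decide)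
  rw [chi_sum 5 (by norm_num)]
  simp only [show 2 * 5 = 10 from rfl, show 10 - 1 = 9 from rfl, sum_range_succ, range_zero, sum_empty]
  norm_num [h3, h5, h7, h9, h11, b_two, b_four, b_six, b_eight, b_ten, Nat.factorial, el]

lemma chi_6 : chi 6 = -202203133 / 65520 := by
  have h3 : b 3 = 0 := b_odd (by decide)
  have h5 : b 5 = 0 := b_odd (by decide)
  have h7 : b 7 = 0 := b_odd (by decide)
  have h9 : b 9 = 0 := b_odd (by decide)
  have h11 : b 11 = 0 := b_odd (by decide)
  have h13 : b 13 = 0 := b_odd (by decide)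
  rw [chi_sum 6 (by norm_num)]
  simp only [show 2 * 6 = 12 from rfl, show 12 - 1 = 11 from rfl, sum_range_succ, range_zero, sum_empty]
  norm_num [h3, h5, h7, h9, h11, h13, b_two, b_four, b_six, b_eight, b_ten, b_twelve, Nat.factorial, el]

lemma chi_7 : chi 7 = -203050081 / 720 := by
  have h3 : b 3 = 0 := b_odd (by decide)
  have h5 : b 5 = 0 := b_odd (by decide)
  have h7 : b 7 = 0 := b_odd (by decide)
  have h9 : b 9 = 0 := b_odd (by decide)
  have h11 : b 11 = 0 := b_odd (by decide)
  have h13 : b 13 = 0 := b_odd (by decide)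
  have h15 : b 15 = 0 := b_odd (by decide)
  rw [chi_sum 7 (by norm_num)]
  simp only [show 2 * 7 = 14 from rfl, show 14 - 1 = 13 from rfl, sum_range_succ, range_zero, sum_empty]
  norm_num [h3, h5, h7, h9, h11, h13, h15, b_two, b_four, b_six, b_eight, b_ten, b_twelve, b_fourteen, Nat.factorial, el]

end Pool.Agent.TH187.EC
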