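import Mathlib
import Pool.Agent.TH187.EC.An3
import Pool.Agent.TH187.EC.Small

set_option autoImplicit false
set_option linter.unusedSectionVars false

namespace Pool.Agent.TH187.EC

open Finset MeasureTheory

/-- the normalised value `- chi N² / (N-1)!`, `N = 2g-1` -/
noncomputable def ag (g : ℕ) : ℝ :=
  -((chi g : ℚ) : ℝ) * (2 * (g : ℝ) - 1) ^ 2 / ((2 * g - 2).factorial : ℝ)

lemma chi_real (g : ℕ) (hg : 1 ≤ g) : -((chi g : ℚ) : ℝ) * (2 * (g : ℝ) - 1) ^ 2 =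
    -2 * ∑ i ∈ range g, (i : ℝ) * ((-1) ^ i * K (2 * g - 2) i) +
      (2 * (g : ℝ) - 1) * ((beta g : ℚ) : ℝ) := by
  have h1 : (1 : ℝ) ≤ g := by exact_mod_cast hg
  have hN : (2 * (g : ℝ) - 1) ≠ 0 := by linarith
  rw [chi_closed g hg, ← sum_F g hg]
  push_cast
  field_simp
  ring

lemma main_sum (g : ℕ) (hg : 5 ≤ g) :
    |(-2 * ∑ i ∈ range g, (i : ℝ) * ((-1) ^ i * K (2 * g - 2) i)) - 2 * K (2 * g - 2) 1| ≤
      2 * (tau g * K (2 * g - 2) 1) := by
  have h1 : range g = insert 0 (insert 1 (Ico 2 g)) := by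
    ext i
    simp only [mem_range, mem_insert, mem_Ico]
    omega
  rw [h1, sum_insert (by simp), sum_insert (by simp)]
  have h2 : -2 * (((0 : ℕ) : ℝ) * ((-1) ^ 0 * K (2 * g - 2) 0) + (((1 : ℕ) : ℝ) * ((-1) ^ 1 * K (2 * g - 2) 1) +
      ∑ i ∈ Ico 2 g, (i : ℝ) * ((-1) ^ i * K (2 * g - 2) i))) - 2 * K (2 * g - 2) 1 =
      -2 * ∑ i ∈ Ico 2 g, (i : ℝ) * ((-1) ^ i * K (2 * g - 2) i) := by
    push_cast
    ring
  rw [h2, abs_mul]
  have h3 : |∑ i ∈ Ico 2 g, (i : ℝ) * ((-1) ^ i * K (2 * g - 2) i)| ≤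
      ∑ i ∈ Ico 2 g, (i : ℝ) * K (2 * g - 2) i := by
    refine (abs_sum_le_sum_abs _ _).trans (le_of_eq ?_)
    refine sum_congr rfl fun i _ => ?_
    rw [abs_mul, abs_mul, abs_pow, abs_neg, abs_one, one_pow, one_mul, abs_of_nonneg (K_nonneg _ _),
      abs_of_nonneg (Nat.cast_nonneg i)]
  have h4 := h3.trans (tail_le g hg)
  have h5 : |(-2 : ℝ)| = 2 := by norm_num
  rw [h5]
  linarith

/-- the error from the Bernoulli part -/
noncomputable def er (g : ℕ) : ℝ := (2 * (g : ℝ) - 1) * (2 * g - 2) / (6 * 4 ^ (g - 1))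

lemma beta_term (g : ℕ) (hg : 2 ≤ g) :
    |(2 * (g : ℝ) - 1) * ((beta g : ℚ) : ℝ)| ≤ er g * ((2 * g - 2).factorial : ℝ) := by
  have hgR : (2 : ℝ) ≤ g := by exact_mod_cast hg
  rw [abs_mul, abs_of_nonneg (by linarith : (0 : ℝ) ≤ 2 * (g : ℝ) - 1)]
  have h1 := beta_bound g (by omega)
  have h2 : ((g - 1).factorial : ℝ) ^ 2 * (4 : ℝ) ^ (g - 1) ≤
      (2 * (g : ℝ) - 2) * ((2 * g - 2).factorial : ℝ) := by
    have h3 := Nat.four_pow_le_two_mul_self_mul_centralBinom (g - 1) (by omega)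
    have h4 : Nat.centralBinom (g - 1) * ((g - 1).factorial * (g - 1).factorial) =
        (2 * (g - 1)).factorial := by
      rw [Nat.centralBinom_eq_two_mul_choose]
      have := Nat.choose_mul_factorial_mul_factorial (show g - 1 ≤ 2 * (g - 1) by omega)
      have e : 2 * (g - 1) - (g - 1) = g - 1 := by omega
      rw [e] at this
      rw [← mul_assoc]
      exact this
    have h5 : ((g - 1).factorial : ℝ) ^ 2 * (4 : ℝ) ^ (g - 1) ≤
        ((g - 1).factorial : ℝ) ^ 2 * ((2 * (g - 1) * Nat.centralBinom (g - 1) : ℕ) : ℝ) := by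
      apply mul_le_mul_of_nonneg_left _ (by positivity)
      exact_mod_cast h3
    refine h5.trans (le_of_eq ?_)
    have e2 : 2 * g - 2 = 2 * (g - 1) := by omega
    rw [e2, ← h4]
    push_cast [Nat.cast_sub (show 1 ≤ g by omega)]
    ring
  have h4pos : (0 : ℝ) < 4 ^ (g - 1) := by positivity
  have h6 : ((g - 1).factorial : ℝ) ^ 2 ≤ (2 * (g : ℝ) - 2) * ((2 * g - 2).factorial : ℝ) / 4 ^ (g - 1) := by
    rw [le_div_iff₀ h4pos]
    exact h2
  calc (2 * (g : ℝ) - 1) * |((beta g : ℚ) : ℝ)|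
      ≤ (2 * (g : ℝ) - 1) * (((g - 1).factorial : ℝ) ^ 2 / 6) :=
        mul_le_mul_of_nonneg_left h1 (by linarith)
    _ ≤ (2 * (g : ℝ) - 1) * (((2 * (g : ℝ) - 2) * ((2 * g - 2).factorial : ℝ) / 4 ^ (g - 1)) / 6) := by
        apply mul_le_mul_of_nonneg_left _ (by linarith)
        linarith
    _ = _ := by
        unfold er
        field_simp

lemma ag_bounds (g : ℕ) (hg : 5 ≤ g) :
    2 * (1 - tau g) * II (2 * g - 2) - er g ≤ ag g ∧
      ag g ≤ 2 * (1 + tau g) * II (2 * g - 2) + er g := by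
  have h1 := chi_real g (by omega)
  have h2 := main_sum g hg
  have h3 := beta_term g (by omega)
  have hf : (0 : ℝ) < ((2 * g - 2).factorial : ℝ) := by positivity
  rw [K_one] at h2
  rw [abs_le] at h2 h3
  unfold ag
  rw [h1]
  constructor
  · rw [le_div_iff₀ hf]
    nlinarith [h2.1, h3.1]
  · rw [div_le_iff₀ hf]
    nlinarith [h2.2, h3.2]

lemma er_bound (g : ℕ) (hg : 8 ≤ g) : er g * (2 * (g : ℝ) - 2) ≤ 3 / 100 := by
  have h1 : (2 * (g : ℝ) - 1) * (2 * g - 2) ^ 2 ≤ (18 / 100) * 4 ^ (g - 1) := by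
    induction g, hg using Nat.le_induction with
    | base => norm_num
    | succ g hg ih =>
      have hgR : (8 : ℝ) ≤ g := by exact_mod_cast hg
      have e : g + 1 - 1 = (g - 1) + 1 := by omega
      rw [e, pow_succ (4 : ℝ) (g - 1)]
      push_cast
      have h2 : (2 * ((g : ℝ) + 1) - 1) * (2 * (g + 1) - 2) ^ 2 ≤
          ((2 * (g : ℝ) - 1) * (2 * g - 2) ^ 2) * 4 := by
        nlinarith [mul_nonneg (by linarith : (0 : ℝ) ≤ g) (by linarith : (0 : ℝ) ≤ (g : ℝ) - 8),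
          mul_nonneg (mul_nonneg (by linarith : (0 : ℝ) ≤ g) (by linarith : (0 : ℝ) ≤ g))
            (by linarith : (0 : ℝ) ≤ (g : ℝ) - 8)]
      linarith
  unfold er
  have h4 : (0 : ℝ) < 4 ^ (g - 1) := by positivity
  rw [div_mul_eq_mul_div, div_le_iff₀ (by positivity)]
  nlinarith [h1]

lemma tau_nonneg (g : ℕ) (hg : 5 ≤ g) : 0 ≤ tau g := by
  have hgR : (5 : ℝ) ≤ g := by exact_mod_cast hg
  unfold tau
  have h1 : 0 < 2 * (g : ℝ) - 3 := by linarith
  have h2 : 0 < 2 * (g : ℝ) - 4 := by linarith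
  have h3 : 0 < 2 * (g : ℝ) - 5 := by linarith
  have h4 : 0 < (g : ℝ) - 1 := by linarith
  positivity

lemma tau_le (g : ℕ) (hg : 5 ≤ g) : tau g ≤ 34 / g := by
  have hgR : (5 : ℝ) ≤ g := by exact_mod_cast hg
  have hg0 : (0 : ℝ) < g := by linarith
  have h1 : (g : ℝ) ≤ 2 * (g : ℝ) - 3 := by linarith
  have h2 : (g : ℝ) ≤ 2 * (g : ℝ) - 4 := by linarith
  have h3 : (g : ℝ) ≤ 2 * (g : ℝ) - 5 := by linarith
  have a1 : 4 / (2 * (g : ℝ) - 3) ≤ 4 / g := div_le_div_of_nonneg_left (by norm_num) hg0 h1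
  have a2 : 18 / ((2 * (g : ℝ) - 3) * (2 * g - 4)) ≤ 18 / g := by
    apply div_le_div_of_nonneg_left (by norm_num) hg0
    nlinarith
  have a3 : 12 * (g : ℝ) * (g - 1) / ((2 * (g : ℝ) - 3) * (2 * g - 4) * (2 * g - 5)) ≤ 12 / g := by
    have c1 : 0 < 2 * (g : ℝ) - 3 := by linarith
    have c2 : 0 < 2 * (g : ℝ) - 4 := by linarith
    have c3 : 0 < 2 * (g : ℝ) - 5 := by linarith
    rw [div_le_div_iff₀ (by positivity) hg0]
    have b1 : (g : ℝ) * g ≤ (2 * (g : ℝ) - 3) * (2 * g - 4) := by nlinarith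
    have b2 : (g : ℝ) * g * g ≤ (2 * (g : ℝ) - 3) * (2 * g - 4) * (2 * g - 5) :=
      mul_le_mul b1 h3 hg0.le (by nlinarith)
    nlinarith
  unfold tau
  calc _ ≤ 4 / (g : ℝ) + 18 / g + 12 / g := by linarith
    _ = _ := by ring

lemma tau_le' (g : ℕ) (hg : 8 ≤ g) : tau g ≤ 82 / 100 := by
  have hgR : (8 : ℝ) ≤ g := by exact_mod_cast hg
  obtain ⟨x, hx⟩ : ∃ x : ℝ, (g : ℝ) = 8 + x := ⟨(g : ℝ) - 8, by ring⟩
  have hx0 : 0 ≤ x := by linarith
  have a1 : 4 / (2 * (g : ℝ) - 3) ≤ 4 / 13 := by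
    apply div_le_div_of_nonneg_left (by norm_num) (by norm_num)
    linarith
  have a2 : 18 / ((2 * (g : ℝ) - 3) * (2 * g - 4)) ≤ 18 / 156 := by
    apply div_le_div_of_nonneg_left (by norm_num) (by norm_num)
    nlinarith
  have a3 : 12 * (g : ℝ) * (g - 1) / ((2 * (g : ℝ) - 3) * (2 * g - 4) * (2 * g - 5)) ≤ 672 / 1716 := by
    rw [hx]
    rw [div_le_div_iff₀ (by
      have : 0 < 2 * (8 + x) - 3 := by linarith
      have : 0 < 2 * (8 + x) - 4 := by linarith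
      have : 0 < 2 * (8 + x) - 5 := by linarith
      positivity) (by norm_num)]
    nlinarith [mul_nonneg hx0 hx0, mul_nonneg (mul_nonneg hx0 hx0) hx0]
  unfold tau
  norm_num at a3 ⊢
  linarith

/-- Explicit bounds for large genus. -/
lemma explicit_large (g : ℕ) (hg : 8 ≤ g) :
    (1 / 40) / (2 * (g : ℝ) - 2) ≤ ag g ∧ ag g ≤ 2 := by
  obtain ⟨h1, h2⟩ := ag_bounds g (by omega)
  have hgR : (8 : ℝ) ≤ g := by exact_mod_cast hg
  have hn : 0 < 2 * (g : ℝ) - 2 := by linarith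
  have h3 := er_bound g hg
  have h4 := tau_le' g hg
  have h5 := tau_nonneg g (by omega)
  have h6 := le_II (2 * g - 2) (by omega)
  have h7 := II_le_half (2 * g - 2)
  have hnR : ((2 * g - 2 : ℕ) : ℝ) = 2 * (g : ℝ) - 2 := by
    rw [Nat.cast_sub (by omega)]; push_cast; ring
  rw [hnR] at h6
  have h8 : er g ≤ (3 / 100) / (2 * (g : ℝ) - 2) := by
    rw [le_div_iff₀ hn]
    exact h3
  constructor
  · refine le_trans ?_ h1
    have h9 : 2 * (1 - tau g) * (1 / (6 * (2 * (g : ℝ) - 2))) ≤ 2 * (1 - tau g) * II (2 * g - 2) :=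
      mul_le_mul_of_nonneg_left h6 (by linarith)
    have h10 : 2 * (18 / 100) * (1 / (6 * (2 * (g : ℝ) - 2))) ≤
        2 * (1 - tau g) * (1 / (6 * (2 * (g : ℝ) - 2))) := by
      apply mul_le_mul_of_nonneg_right _ (by positivity)
      linarith
    have h11 : 2 * (18 / 100) * (1 / (6 * (2 * (g : ℝ) - 2))) - (3 / 100) / (2 * (g : ℝ) - 2) ≥
        (1 / 40) / (2 * (g : ℝ) - 2) := by
      have : 2 * (18 / 100) * (1 / (6 * (2 * (g : ℝ) - 2))) - (3 / 100) / (2 * (g : ℝ) - 2) =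
          (3 / 100) / (2 * (g : ℝ) - 2) := by
        field_simp
        norm_num
      rw [this]
      apply div_le_div_of_nonneg_right _ hn.le
      norm_num
    linarith
  · refine h2.trans ?_
    have h12 : (3 / 100) / (2 * (g : ℝ) - 2) ≤ (3 / 100) / 14 := by
      apply div_le_div_of_nonneg_left (by norm_num) (by norm_num)
      linarith
    have h13 : 2 * (1 + tau g) * II (2 * g - 2) ≤ 2 * (1 + tau g) * (1 / 2) :=
      mul_le_mul_of_nonneg_left h7 (by linarith)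
    linarith

end Pool.Agent.TH187.EC
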