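import Mathlib
import Pool.Agent.TH187.EC.An4

set_option autoImplicit false
set_option linter.unusedSectionVars false

namespace Pool.Agent.TH187.EC

open Finset MeasureTheory Filter Topology

lemma neg_chi_eq (g : ℕ) (hg : 1 ≤ g) :
    -((chi g : ℚ) : ℝ) = ag g * ((2 * g - 2).factorial : ℝ) / (2 * (g : ℝ) - 1) ^ 2 := by
  have h1 : (1 : ℝ) ≤ g := by exact_mod_cast hg
  have hN : (2 * (g : ℝ) - 1) ≠ 0 := by linarith
  have hf : ((2 * g - 2).factorial : ℝ) ≠ 0 := by positivity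
  unfold ag
  field_simp

lemma fact_eq (g : ℕ) (hg : 1 ≤ g) :
    ((2 * g - 1).factorial : ℝ) = (2 * (g : ℝ) - 1) * ((2 * g - 2).factorial : ℝ) := by
  have e : 2 * g - 1 = (2 * g - 2) + 1 := by omega
  rw [e, Nat.factorial_succ]
  push_cast [Nat.cast_sub (show 2 ≤ 2 * g by omega)]
  ring

lemma bounds_large (g : ℕ) (hg : 8 ≤ g) :
    (1 / 40) * (((2 * g - 1).factorial : ℝ) / (2 * (g : ℝ) - 1) ^ 4) ≤ -((chi g : ℚ) : ℝ) ∧
    -((chi g : ℚ) : ℝ) ≤ 2 * (((2 * g - 1).factorial : ℝ) / (2 * (g : ℝ) - 1) ^ 3) := by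
  obtain ⟨h1, h2⟩ := explicit_large g hg
  have hgR : (8 : ℝ) ≤ g := by exact_mod_cast hg
  have hN : 0 < 2 * (g : ℝ) - 1 := by linarith
  have hN2 : 0 < 2 * (g : ℝ) - 2 := by linarith
  have hf : (0 : ℝ) < ((2 * g - 2).factorial : ℝ) := by positivity
  rw [neg_chi_eq g (by omega), fact_eq g (by omega)]
  constructor
  · have h3 : (1 / 40) * ((2 * (g : ℝ) - 1) * ((2 * g - 2).factorial : ℝ) / (2 * (g : ℝ) - 1) ^ 4) =
        ((1 / 40) / (2 * (g : ℝ) - 1)) * ((2 * g - 2).factorial : ℝ) / (2 * (g : ℝ) - 1) ^ 2 := by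
      field_simp
    rw [h3]
    apply div_le_div_of_nonneg_right _ (by positivity)
    apply mul_le_mul_of_nonneg_right _ hf.le
    refine le_trans ?_ h1
    apply div_le_div_of_nonneg_left (by norm_num) hN2
    linarith
  · have h3 : 2 * ((2 * (g : ℝ) - 1) * ((2 * g - 2).factorial : ℝ) / (2 * (g : ℝ) - 1) ^ 3) =
        2 * ((2 * g - 2).factorial : ℝ) / (2 * (g : ℝ) - 1) ^ 2 := by
      field_simp
    rw [h3]
    apply div_le_div_of_nonneg_right _ (by positivity)
    exact mul_le_mul_of_nonneg_right h2 hf.le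

lemma bounds_small (g : ℕ) (hg : 1 ≤ g) (hg8 : g < 8) :
    (1 / 40) * (((2 * g - 1).factorial : ℝ) / (2 * (g : ℝ) - 1) ^ 4) ≤ -((chi g : ℚ) : ℝ) ∧
    -((chi g : ℚ) : ℝ) ≤ 2 * (((2 * g - 1).factorial : ℝ) / (2 * (g : ℝ) - 1) ^ 3) := by
  interval_cases g
  · rw [chi_1]; norm_num [Nat.factorial]
  · rw [chi_2]; norm_num [Nat.factorial]
  · rw [chi_3]; norm_num [Nat.factorial]
  · rw [chi_4]; norm_num [Nat.factorial]
  · rw [chi_5]; norm_num [Nat.factorial]
  · rw [chi_6]; norm_num [Nat.factorial]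
  · rw [chi_7]; norm_num [Nat.factorial]

/-- Explicit two-sided bounds for all genera. -/
theorem chi_bounds (g : ℕ) (hg : 1 ≤ g) :
    (1 / 40) * (((2 * g - 1).factorial : ℝ) / (2 * (g : ℝ) - 1) ^ 4) ≤ -((chi g : ℚ) : ℝ) ∧
    -((chi g : ℚ) : ℝ) ≤ 2 * (((2 * g - 1).factorial : ℝ) / (2 * (g : ℝ) - 1) ^ 3) := by
  rcases lt_or_ge g 8 with h | h
  · exact bounds_small g hg h
  · exact bounds_large g h

/-- The Euler characteristics are negative. -/
theorem chi_neg (g : ℕ) (hg : 1 ≤ g) : chi g < 0 := by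
  have h1 := (chi_bounds g hg).1
  have hgR : (1 : ℝ) ≤ g := by exact_mod_cast hg
  have hN : 0 < 2 * (g : ℝ) - 1 := by linarith
  have h2 : 0 < (1 / 40) * (((2 * g - 1).factorial : ℝ) / (2 * (g : ℝ) - 1) ^ 4) := by positivity
  have h3 : ((chi g : ℚ) : ℝ) < 0 := by linarith
  exact_mod_cast h3

/-! ### The precise asymptotics -/

lemma tendsto_log_g : Tendsto (fun g : ℕ => Real.log (g : ℝ)) atTop atTop :=
  Real.tendsto_log_atTop.comp tendsto_natCast_atTop_atTop

lemma tendsto_tau : Tendsto tau atTop (𝓝 0) := by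
  have h1 : Tendsto (fun g : ℕ => (34 : ℝ) / (g : ℝ)) atTop (𝓝 0) :=
    tendsto_const_div_atTop_nhds_zero_nat 34
  refine tendsto_of_tendsto_of_tendsto_of_le_of_le' tendsto_const_nhds h1 ?_ ?_
  · filter_upwards [eventually_ge_atTop 5] with g hg using tau_nonneg g hg
  · filter_upwards [eventually_ge_atTop 5] with g hg using tau_le g hg

lemma er_nonneg (g : ℕ) (hg : 1 ≤ g) : 0 ≤ er g := by
  have hgR : (1 : ℝ) ≤ g := by exact_mod_cast hg
  have h1 : 0 ≤ 2 * (g : ℝ) - 1 := by linarith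
  have h2 : 0 ≤ 2 * (g : ℝ) - 2 := by linarith
  unfold er
  positivity

lemma tendsto_log_sq_div : Tendsto (fun g : ℕ => Real.log (g : ℝ) ^ 2 / (g : ℝ)) atTop (𝓝 0) := by
  have h1 := Real.isLittleO_pow_log_id_atTop (n := 2)
  have h2 := h1.tendsto_div_nhds_zero
  exact h2.comp tendsto_natCast_atTop_atTop

lemma tendsto_er : Tendsto (fun g : ℕ => er g * Real.log (g : ℝ) ^ 2) atTop (𝓝 0) := by
  refine tendsto_of_tendsto_of_tendsto_of_le_of_le' tendsto_const_nhds tendsto_log_sq_div ?_ ?_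
  · filter_upwards [eventually_ge_atTop 8] with g hg
    have := er_nonneg g (by omega)
    positivity
  · filter_upwards [eventually_ge_atTop 8] with g hg
    have hgR : (8 : ℝ) ≤ g := by exact_mod_cast hg
    have hg0 : (0 : ℝ) < g := by linarith
    have h1 := er_bound g hg
    have h2 := er_nonneg g (by omega)
    have h3 : er g ≤ 1 / g := by
      rw [le_div_iff₀ hg0]
      have : er g * g ≤ er g * (2 * (g : ℝ) - 2) := mul_le_mul_of_nonneg_left (by linarith) h2
      linarith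
    calc er g * Real.log (g : ℝ) ^ 2 ≤ 1 / g * Real.log (g : ℝ) ^ 2 :=
          mul_le_mul_of_nonneg_right h3 (by positivity)
      _ = _ := by ring

lemma II_log_le (g : ℕ) (hg : 2 ≤ g) : II (2 * g - 2) * Real.log (g : ℝ) ^ 2 ≤ 1 := by
  have hgR : (2 : ℝ) ≤ g := by exact_mod_cast hg
  have h1 := II_upper (2 * g - 2) (by omega)
  have hnR : ((2 * g - 2 : ℕ) : ℝ) = 2 * (g : ℝ) - 2 := by
    rw [Nat.cast_sub (by omega)]; push_cast; ring
  rw [hnR] at h1
  have hl : 0 < Real.log (g : ℝ) := Real.log_pos (by linarith)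
  have hle : Real.log (g : ℝ) ≤ Real.log (2 * (g : ℝ) - 2 + 1) :=
    Real.log_le_log (by linarith) (by linarith)
  have h2 : 1 / Real.log (2 * (g : ℝ) - 2 + 1) ^ 2 ≤ 1 / Real.log (g : ℝ) ^ 2 :=
    div_le_div_of_nonneg_left (by norm_num) (by positivity) (pow_le_pow_left₀ hl.le hle 2)
  calc II (2 * g - 2) * Real.log (g : ℝ) ^ 2 ≤ 1 / Real.log (g : ℝ) ^ 2 * Real.log (g : ℝ) ^ 2 :=
        mul_le_mul_of_nonneg_right (h1.trans h2) (by positivity)
    _ = 1 := by field_simp

/-- the function bounding `II n (log n)²` from below -/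
noncomputable def lo (L : ℝ) : ℝ := 1 - (1 + L) * Real.exp (-L) - 2 / L

lemma tendsto_lo : Tendsto lo atTop (𝓝 1) := by
  have h1 : Tendsto (fun L : ℝ => (1 + L) * Real.exp (-L)) atTop (𝓝 0) := by
    have a1 : Tendsto (fun L : ℝ => Real.exp (-L)) atTop (𝓝 0) :=
      Real.tendsto_exp_atBot.comp tendsto_neg_atTop_atBot
    have a2 : Tendsto (fun L : ℝ => L ^ 1 * Real.exp (-L)) atTop (𝓝 0) :=
      Real.tendsto_pow_mul_exp_neg_atTop_nhds_zero 1
    have a3 := a1.add a2
    rw [add_zero] at a3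
    refine a3.congr fun L => ?_
    ring
  have h2 : Tendsto (fun L : ℝ => 2 / L) atTop (𝓝 0) := tendsto_const_nhds.div_atTop tendsto_id
  have h3 := ((tendsto_const_nhds (x := (1 : ℝ))).sub h1).sub h2
  rw [sub_zero, sub_zero] at h3
  exact h3

lemma tendsto_n : Tendsto (fun g : ℕ => Real.log (((2 * g - 2 : ℕ) : ℝ))) atTop atTop := by
  refine Real.tendsto_log_atTop.comp (tendsto_natCast_atTop_atTop.comp ?_)
  refine tendsto_atTop_mono' _ ?_ tendsto_id
  filter_upwards [eventually_ge_atTop 2] with g hg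
  simp only [id_eq]
  omega

lemma tendsto_ratio : Tendsto (fun g : ℕ => Real.log (g : ℝ) / Real.log (((2 * g - 2 : ℕ) : ℝ)))
    atTop (𝓝 1) := by
  have h1 : Tendsto (fun g : ℕ => Real.log (g : ℝ) / (Real.log 2 + Real.log (g : ℝ))) atTop (𝓝 1) := by
    have a1 : Tendsto (fun g : ℕ => Real.log 2 / Real.log (g : ℝ)) atTop (𝓝 0) :=
      tendsto_const_nhds.div_atTop tendsto_log_g
    have a2 : Tendsto (fun g : ℕ => (Real.log 2 / Real.log (g : ℝ) + 1)⁻¹) atTop (𝓝 1) := by
      have := (a1.add_const 1).inv₀ (by norm_num)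
      simpa using this
    refine a2.congr' ?_
    filter_upwards [eventually_ge_atTop 2] with g hg
    have hgR : (2 : ℝ) ≤ g := by exact_mod_cast hg
    have hl : 0 < Real.log (g : ℝ) := Real.log_pos (by linarith)
    have hl2 : 0 < Real.log 2 := Real.log_pos (by norm_num)
    field_simp
  refine tendsto_of_tendsto_of_tendsto_of_le_of_le' h1 tendsto_const_nhds ?_ ?_
  · filter_upwards [eventually_ge_atTop 3] with g hg
    have hgR : (3 : ℝ) ≤ g := by exact_mod_cast hg
    have hnR : ((2 * g - 2 : ℕ) : ℝ) = 2 * (g : ℝ) - 2 := by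
      rw [Nat.cast_sub (by omega)]; push_cast; ring
    rw [hnR]
    have hl : 0 < Real.log (g : ℝ) := Real.log_pos (by linarith)
    apply div_le_div_of_nonneg_left hl.le (Real.log_pos (by linarith))
    rw [← Real.log_mul (by norm_num) (by linarith)]
    exact Real.log_le_log (by linarith) (by linarith)
  · filter_upwards [eventually_ge_atTop 3] with g hg
    have hgR : (3 : ℝ) ≤ g := by exact_mod_cast hg
    have hnR : ((2 * g - 2 : ℕ) : ℝ) = 2 * (g : ℝ) - 2 := by
      rw [Nat.cast_sub (by omega)]; push_cast; ring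
    rw [hnR]
    rw [div_le_one (Real.log_pos (by linarith))]
    exact Real.log_le_log (by linarith) (by linarith)

lemma tendsto_II : Tendsto (fun g : ℕ => II (2 * g - 2) * Real.log (g : ℝ) ^ 2) atTop (𝓝 1) := by
  have h1 : Tendsto (fun g : ℕ => lo (Real.log (((2 * g - 2 : ℕ) : ℝ))) *
      (Real.log (g : ℝ) / Real.log (((2 * g - 2 : ℕ) : ℝ))) ^ 2) atTop (𝓝 1) := by
    have a1 := (tendsto_lo.comp tendsto_n).mul (tendsto_ratio.pow 2)
    simpa using a1
  refine tendsto_of_tendsto_of_tendsto_of_le_of_le' h1 tendsto_const_nhds ?_ ?_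
  · filter_upwards [eventually_ge_atTop 3] with g hg
    have h2 := II_lower (2 * g - 2) (by omega)
    have hn : (2 : ℝ) ≤ ((2 * g - 2 : ℕ) : ℝ) := by
      exact_mod_cast (show 2 ≤ 2 * g - 2 by omega)
    set L := Real.log (((2 * g - 2 : ℕ) : ℝ)) with hL
    have hL0 : 0 < L := Real.log_pos (by linarith)
    have h3 : lo L * (Real.log (g : ℝ) / L) ^ 2 =
        ((1 - (1 + L) * Real.exp (-L)) / L ^ 2 - 2 / L ^ 3) * Real.log (g : ℝ) ^ 2 := by
      unfold lo
      field_simp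
    rw [h3]
    exact mul_le_mul_of_nonneg_right h2 (by positivity)
  · filter_upwards [eventually_ge_atTop 2] with g hg using II_log_le g hg

lemma tendsto_ag : Tendsto (fun g : ℕ => ag g * Real.log (g : ℝ) ^ 2) atTop (𝓝 2) := by
  have h1 : Tendsto (fun g : ℕ => 2 * (1 - tau g) * (II (2 * g - 2) * Real.log (g : ℝ) ^ 2) -
      er g * Real.log (g : ℝ) ^ 2) atTop (𝓝 2) := by
    have a1 := ((((tendsto_const_nhds (x := (1 : ℝ))).sub tendsto_tau).const_mul 2).mul
      tendsto_II).sub tendsto_er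
    simpa using a1
  have h2 : Tendsto (fun g : ℕ => 2 * (1 + tau g) * (II (2 * g - 2) * Real.log (g : ℝ) ^ 2) +
      er g * Real.log (g : ℝ) ^ 2) atTop (𝓝 2) := by
    have a1 := ((((tendsto_const_nhds (x := (1 : ℝ))).add tendsto_tau).const_mul 2).mul
      tendsto_II).add tendsto_er
    simpa using a1
  refine tendsto_of_tendsto_of_tendsto_of_le_of_le' h1 h2 ?_ ?_
  · filter_upwards [eventually_ge_atTop 5] with g hg
    have h3 := mul_le_mul_of_nonneg_right (ag_bounds g hg).1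
      (by positivity : (0 : ℝ) ≤ Real.log (g : ℝ) ^ 2)
    refine le_trans (le_of_eq ?_) h3
    ring
  · filter_upwards [eventually_ge_atTop 5] with g hg
    have h3 := mul_le_mul_of_nonneg_right (ag_bounds g hg).2
      (by positivity : (0 : ℝ) ≤ Real.log (g : ℝ) ^ 2)
    refine h3.trans (le_of_eq ?_)
    ring

/-- The precise asymptotic growth. -/
theorem tendsto_chi : Tendsto (fun g : ℕ => -((chi g : ℚ) : ℝ) * (2 * (g : ℝ) - 1) ^ 3 *
    Real.log (g : ℝ) ^ 2 / ((2 * g - 1).factorial : ℝ)) atTop (𝓝 2) := by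
  refine tendsto_ag.congr' ?_
  filter_upwards [eventually_ge_atTop 1] with g hg
  have hgR : (1 : ℝ) ≤ g := by exact_mod_cast hg
  have hN : (2 * (g : ℝ) - 1) ≠ 0 := by linarith
  have hf : ((2 * g - 2).factorial : ℝ) ≠ 0 := by positivity
  rw [neg_chi_eq g hg, fact_eq g hg]
  field_simp

end Pool.Agent.TH187.EC
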